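import Pool.Agent.TH466.QG.Gal
import Pool.Agent.W619.Y.Unir

/-!
Subfields of ruled function fields: finite generation, uniruledness, pseudo-effectivity.
-/

set_option autoImplicit false
set_option linter.overlappingInstances false
set_option linter.unusedSectionVars false

open FF IntermediateField Pool.Agent.W603.LV

namespace Pool.Agent.TH466.QG

open Pool.Agent.W602.GT (GeneralType Psef KodGe Ruled Divisorial DerReg DerLog RegAt LogAt IsPluri
  kod_of_general psef_of_kodGe not_psef_of)
open Pool.Agent.W619.PQ (IsUniruled)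
open Pool.Agent.W619.TW (IsPsef NumNeg NumLe IsSec)

section fg

variable {k F K : Type} [Field k] [Field F] [Field K] [Algebra k F] [Algebra k K] [Algebra F K]
  [IsScalarTower k F K]

/-- subfields of finite index of finitely generated fields are finitely generated -/
theorem ess_below [FiniteDimensional F K] [hK : Algebra.EssFiniteType k K] :
    Algebra.EssFiniteType k F := by
  have hKF : Algebra.IsAlgebraic F K := inferInstance
  obtain ⟨s, hs⟩ := exists_isTranscendenceBasis k F
  -- the transcendence basis is finite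
  have hfin : Set.Finite s := by
    have h1 : IsTranscendenceBasis k (algebraMap F K ∘ ((↑) : s → F)) := hs.algebraMap_comp
    have h2 : Algebra.trdeg k K < Cardinal.aleph0 := trdeg_lt_aleph0 k K
    have h3 := h1.cardinalMk_eq_trdeg
    rw [← h3] at h2
    exact Cardinal.lt_aleph0_iff_set_finite.1 h2
  let A : IntermediateField k F := adjoin k s
  have hA : Algebra.EssFiniteType k A := by
    rw [essFiniteType_iff]
    exact ⟨hfin.toFinset, by rw [Set.Finite.coe_toFinset]⟩
  have t1 : IsScalarTower A F K := inferInstance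
  have t2 : IsScalarTower k A K := IsScalarTower.of_algebraMap_eq fun x => by
    rw [IsScalarTower.algebraMap_apply k F K, IsScalarTower.algebraMap_apply A F K,
      ← IsScalarTower.algebraMap_apply k A F]
  have hAF : Algebra.IsAlgebraic A F := by
    have h1 := hs.isAlgebraic_field
    rwa [Subtype.range_coe] at h1
  have hAK : Algebra.IsAlgebraic A K := Algebra.IsAlgebraic.trans A F K
  have hAess : Algebra.EssFiniteType A K := Algebra.EssFiniteType.of_comp k A K
  have hAKfin : Module.Finite A K := Algebra.finite_of_essFiniteType_of_isAlgebraic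
  have hAFfin : Module.Finite A F := by
    refine Module.Finite.of_injective
      ((IsScalarTower.toAlgHom A F K).toLinearMap) (algebraMap F K).injective
  have hAFess : Algebra.EssFiniteType A F := inferInstance
  exact Algebra.EssFiniteType.comp k A F

/-- the base of a ruled variety has a finitely generated function field -/
theorem ess_base [hK : Algebra.EssFiniteType k K] (C : IntermediateField k K) {σ : K}
    (hσ : Transcendental C σ) (htop : C⟮σ⟯ = ⊤) : Algebra.EssFiniteType k C := by
  classical
  obtain ⟨s, hs⟩ := fg_top k K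
  have hex : ∀ g : K, ∃ r q : Polynomial C, g = Polynomial.aeval σ r / Polynomial.aeval σ q := by
    intro g
    rw [← mem_adjoin_simple_iff, htop]
    trivial
  choose r q hrq using hex
  let S : Finset K := s.biUnion fun g =>
    ((r g).support.image fun i => ((r g).coeff i : K)) ∪
      ((q g).support.image fun i => ((q g).coeff i : K))
  let C' : IntermediateField k K := adjoin k (S : Set K)
  have hC'C : C' ≤ C := by
    rw [adjoin_le_iff]
    intro x hx
    rw [Finset.mem_coe, Finset.mem_biUnion] at hx
    obtain ⟨g, -, hx⟩ := hx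
    rw [Finset.mem_union, Finset.mem_image, Finset.mem_image] at hx
    rcases hx with ⟨i, -, rfl⟩ | ⟨i, -, rfl⟩
    · exact ((r g).coeff i).2
    · exact ((q g).coeff i).2
  have hmemr : ∀ g ∈ s, ∀ i, ((r g).coeff i : K) ∈ C' := by
    intro g hg i
    by_cases h0 : (r g).coeff i = 0
    · rw [h0]
      exact C'.zero_mem
    · apply subset_adjoin k (S : Set K)
      rw [Finset.mem_coe, Finset.mem_biUnion]
      exact ⟨g, hg, Finset.mem_union_left _ (Finset.mem_image.2
        ⟨i, Polynomial.mem_support_iff.2 h0, rfl⟩)⟩
  have hmemq : ∀ g ∈ s, ∀ i, ((q g).coeff i : K) ∈ C' := by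
    intro g hg i
    by_cases h0 : (q g).coeff i = 0
    · rw [h0]
      exact C'.zero_mem
    · apply subset_adjoin k (S : Set K)
      rw [Finset.mem_coe, Finset.mem_biUnion]
      exact ⟨g, hg, Finset.mem_union_right _ (Finset.mem_image.2
        ⟨i, Polynomial.mem_support_iff.2 h0, rfl⟩)⟩
  have hev : ∀ p : Polynomial C, (∀ i, (p.coeff i : K) ∈ C') →
      Polynomial.aeval σ p ∈ C'⟮σ⟯ := by
    intro p hp
    rw [Polynomial.aeval_eq_sum_range]
    refine sum_mem fun i _ => ?_
    rw [Algebra.smul_def]
    refine mul_mem ?_ (pow_mem (mem_adjoin_simple_self C' σ) i)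
    exact (C'⟮σ⟯).algebraMap_mem ⟨_, hp i⟩
  have htop' : ∀ x : K, x ∈ C'⟮σ⟯ := by
    intro x
    have h1 : (⊤ : IntermediateField k K) ≤ C'⟮σ⟯.restrictScalars k := by
      rw [← hs, adjoin_le_iff]
      intro g hg
      change g ∈ C'⟮σ⟯
      rw [hrq g]
      exact div_mem (hev _ (hmemr g hg)) (hev _ (hmemq g hg))
    exact h1 (by trivial : x ∈ (⊤ : IntermediateField k K))
  have hCC' : C ≤ C' := by
    intro c hc
    obtain ⟨a, b, hab⟩ := (mem_adjoin_simple_iff (F := C') c).1 (htop' c)
    by_cases hb : Polynomial.aeval σ b = 0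
    · rw [hab, hb, div_zero]
      exact C'.zero_mem
    · have h1 : c * Polynomial.aeval σ b = Polynomial.aeval σ a := by
        rw [hab]
        field_simp
      let ι : C' →+* C := (inclusion hC'C).toRingHom
      have hι : ∀ p : Polynomial C', Polynomial.aeval σ (p.map ι) = Polynomial.aeval σ p := by
        intro p
        rw [Polynomial.aeval_def, Polynomial.aeval_def, Polynomial.eval₂_map]
        rfl
      have h2 : Polynomial.C (⟨c, hc⟩ : C) * b.map ι = a.map ι := by
        apply transcendental_iff_injective.1 hσ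
        rw [map_mul, hι, hι, Polynomial.aeval_C]
        exact h1
      have hb0 : b ≠ 0 := by
        rintro rfl
        exact hb (map_zero _)
      obtain ⟨j, hj⟩ : ∃ j, b.coeff j ≠ 0 := by
        by_contra hcon
        push Not at hcon
        exact hb0 (Polynomial.ext hcon)
      have h3 := congrArg (fun p : Polynomial C => ((p.coeff j : C) : K)) h2
      simp only [Polynomial.coeff_C_mul, Polynomial.coeff_map] at h3
      have h4 : c * (b.coeff j : K) = (a.coeff j : K) := h3
      have h5 : (b.coeff j : K) ≠ 0 := fun h => hj (Subtype.ext h)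
      have h6 : c = (a.coeff j : K) / (b.coeff j : K) := by
        field_simp
        exact h4
      rw [h6]
      exact div_mem (a.coeff j).2 (b.coeff j).2
  rw [essFiniteType_iff]
  exact ⟨S, le_antisymm hC'C hCC'⟩

end fg

section

variable {k F K : Type} [Field k] [CharZero k] [IsAlgClosed k] [Field F] [Field K] [Algebra k F]
  [Algebra k K] [Algebra F K] [IsScalarTower k F K]

/-- the dimension of the base of a ruled variety -/
theorem trdeg_base (C : IntermediateField k K) {σ : K} (hσ : Transcendental C σ)
    (htop : C⟮σ⟯ = ⊤) : Algebra.trdeg k C + 1 = Algebra.trdeg k K := by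
  have hC : CharZero C := charZero_of_injective_algebraMap (algebraMap k C).injective
  have hFF : IsFF C K := by
    refine IsFF.of_finite (f := σ) hσ ?_
    rw [htop]
    exact Module.Finite.of_surjective (Algebra.linearMap (⊤ : IntermediateField C K) K)
      fun z => ⟨⟨z, trivial⟩, rfl⟩
  rw [← trdeg_add_eq k C (A := K), hFF.trdeg]

/-- varieties dominated by ruled varieties are uniruled -/
theorem uniruled_below [Algebra.EssFiniteType k K] {n : ℕ} (hn : Algebra.trdeg k K = n)
    (hR : Ruled k K) : IsUniruled k F n := by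
  obtain ⟨C, σ, hσ, htop⟩ := hR
  refine ⟨C, inferInstance, inferInstance, ess_base C hσ htop, ?_, ⟨?_⟩⟩
  · rw [trdeg_base C hσ htop, hn]
  · let e1 : RatFunc C ≃ₐ[C] C⟮σ⟯ := RatFunc.algEquivOfTranscendental σ hσ
    let e2 : C⟮σ⟯ ≃ₐ[C] K := (equivOfEq htop).trans topEquiv
    exact (((e1.trans e2).symm.restrictScalars k : K ≃ₐ[k] RatFunc C) : K →ₐ[k] RatFunc C).comp
      (IsScalarTower.toAlgHom k F K)

theorem derReg_of_log {P : Place k K} {D : Derivation k K K} (h : DerLog P D) : DerReg P D := by
  intro f hf
  by_cases h0 : f = 0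
  · rw [h0, map_zero]
    exact P.reg_zero
  · have h3 := P.reg_mul (h f) hf
    rwa [div_mul_cancel₀ _ h0] at h3

/-- the two definitions of pseudo-effectivity agree -/
theorem psef_iff (n : ℕ) : Psef k K n (fun _ => False) ↔ IsPsef k K n (fun _ => False) := by
  constructor
  · rintro ⟨S, h⟩
    refine ⟨S, fun N => ?_⟩
    obtain ⟨j, hj, ω, ⟨h1, -, h3⟩, h4⟩ := h N
    exact ⟨j, hj, ω, ⟨h1, fun v hv hB D hD => h3 v hv hB D hD, fun v _ hB => absurd hB id⟩, h4⟩
  · rintro ⟨S, h⟩
    refine ⟨S, fun N => ?_⟩
    obtain ⟨j, hj, ω, ⟨h1, h2, -⟩, h4⟩ := h N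
    exact ⟨j, hj, ω, ⟨h1, fun v hv D hD => h2 v hv id D fun l => derReg_of_log (hD l),
      fun v hv _ D hD => h2 v hv id D hD⟩, h4⟩

end

end Pool.Agent.TH466.QG
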