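import Pool.Agent.TH466.QG.Base

/-!
Transport of pluricanonical forms along an isomorphism of function fields.
-/

set_option autoImplicit false
set_option linter.overlappingInstances false
set_option linter.unusedSectionVars false

open FF

namespace Pool.Agent.TH466.QG

open Pool.Agent.W602.GT (IsPluri DerReg DerLog Divisorial RegAt GeneralType)

variable {k F F' : Type} [Field k] [Field F] [Field F'] [Algebra k F] [Algebra k F']

/-- The place of `F` which corresponds to a place of `F'` under an isomorphism. -/
noncomputable def pullPl (e : F ≃ₐ[k] F') (w : Place k F') : Place k F where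
  ord f := w.ord (e f)
  ord_zero := by rw [map_zero, w.ord_zero]
  ord_mul := by
    intro f g hf hg
    rw [map_mul, w.ord_mul (by simpa using hf) (by simpa using hg)]
  ord_add := by
    intro f g hf hg hfg
    rw [map_add]
    exact w.ord_add (by simpa using hf) (by simpa using hg)
      (by rw [← map_add]; exact (map_ne_zero_iff _ e.injective).2 hfg)
  ord_const := by intro c hc; rw [AlgEquiv.commutes, w.ord_const hc]
  surj := by
    obtain ⟨t, h0, ht⟩ := w.surj
    exact ⟨e.symm t, by simpa using h0, by simpa using ht⟩

theorem reg_pullPl (e : F ≃ₐ[k] F') (w : Place k F') (f : F) :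
    (pullPl e w).Reg f ↔ w.Reg (e f) := by
  unfold Place.Reg
  rw [map_eq_zero]
  rfl

/-- The derivation of `F'` which corresponds to a derivation of `F` under an isomorphism. -/
noncomputable def pushD (e : F ≃ₐ[k] F') (D : Derivation k F F) : Derivation k F' F' :=
  Derivation.mk' ((e.toLinearMap.comp (D : F →ₗ[k] F)).comp e.symm.toLinearMap) (by
    intro a b
    change e (D (e.symm (a * b))) = a • e (D (e.symm b)) + b • e (D (e.symm a))
    rw [map_mul, D.leibniz, map_add, smul_eq_mul, smul_eq_mul, map_mul, map_mul,
      AlgEquiv.apply_symm_apply, AlgEquiv.apply_symm_apply, smul_eq_mul, smul_eq_mul])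

theorem pushD_apply (e : F ≃ₐ[k] F') (D : Derivation k F F) (x : F') :
    pushD e D x = e (D (e.symm x)) := rfl

theorem pushD_symm (e : F ≃ₐ[k] F') (D : Derivation k F F) : pushD e.symm (pushD e D) = D := by
  ext x
  rw [pushD_apply, pushD_apply, AlgEquiv.symm_symm, AlgEquiv.symm_apply_apply,
    AlgEquiv.symm_apply_apply]

theorem general_of_equiv (e : F ≃ₐ[k] F') {w : ℕ} (h : GeneralType k F w) :
    GeneralType k F' w := by
  obtain ⟨htr, N, hN, ω, hω, hreg, D, hD0, hD⟩ := h
  refine ⟨by rw [← htr]; exact e.symm.trdeg_eq, N, hN,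
    fun j D' => e (ω j (fun i => pushD e.symm (D' i))), fun j A D' => ?_, fun P hP j D' hD' => ?_,
    fun i => pushD e (D i), ?_, ?_⟩
  · have h1 : (fun i => pushD e.symm (∑ l, A i l • D' l)) =
        fun i => ∑ l, (A.map e.symm) i l • pushD e.symm (D' l) := by
      funext i
      ext x
      rw [pushD_apply, Pool.Agent.W357.PG.sum_apply', Pool.Agent.W357.PG.sum_apply', map_sum]
      refine Finset.sum_congr rfl fun l _ => ?_
      rw [Derivation.coe_smul, Pi.smul_apply, smul_eq_mul, map_mul, Matrix.map_apply,
        Derivation.coe_smul, Pi.smul_apply, smul_eq_mul, pushD_apply]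
    change e (ω j (fun i => pushD e.symm (∑ l, A i l • D' l))) = _
    rw [h1, hω j, map_mul, map_pow]
    congr 2
    have h2 := RingHom.map_det (e : F →+* F') (A.map e.symm)
    change e _ = _ at h2
    rw [h2]
    congr 1
    ext i l
    simp [RingHom.mapMatrix_apply]
  · change P.Reg (e _)
    rw [← reg_pullPl e P]
    refine hreg (pullPl e P) ?_ j _ fun i f hf => ?_
    · obtain ⟨u, hu⟩ := hP
      refine ⟨fun i => e.symm (u i), fun G hG => ?_⟩
      have h1 : MvPolynomial.aeval (fun i => e.symm (u i)) G = e.symm (MvPolynomial.aeval u G) := by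
        rw [← AlgEquiv.coe_toAlgHom, ← MvPolynomial.comp_aeval_apply]
      rw [h1]
      refine ⟨by simpa using (hu G hG).1, ?_⟩
      change P.ord (e (e.symm _)) = 0
      rw [AlgEquiv.apply_symm_apply]
      exact (hu G hG).2
    · rw [reg_pullPl] at hf ⊢
      rw [pushD_apply, AlgEquiv.symm_symm, AlgEquiv.apply_symm_apply]
      exact hD' i _ hf
  · simp only [pushD_symm]
    simpa using hD0
  · simp only [pushD_symm]
    have h1 := hD.map' (f := (e : F →ₐ[k] F')) e.injective
    convert h1 using 1
    funext i
    simp

end Pool.Agent.TH466.QG
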