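import Pool.Agent.W602.GT.KGen

/-!
Systems of circuits of high powers in the function fields of varieties given by sums of few high
powers (after the start's Dich, KLine, Ps and KGen, with the circuits kept).
-/

set_option autoImplicit false
set_option linter.unusedSectionVars false

open FF Pool.Agent.W603.LV Pool.Agent.W602.GT
open IntermediateField (adjoin)
open scoped IntermediateField

namespace Pool.Agent.TH466.QG

variable {k : Type} [Field k]

/-- `K` has a system of `w` circuits with at most `s` members, which are constant multiples of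
powers with exponents at least `N`, whose ratios contain a transcendence basis. -/
def HasCirc (k : Type) [Field k] (s N w : ℕ) (K : Type) [Field K] [Algebra k K] : Prop :=
  ∃ (m d : Fin w → ℕ) (U : ∀ i, Fin (m i + 1) → K) (c : ∀ i, Fin (m i + 1) → k)
    (a b : ∀ i, Fin (m i + 1)), (∀ i, m i + 1 ≤ s) ∧ (∀ i, N ≤ d i) ∧ (∀ i j, U i j ≠ 0) ∧
    (∀ i j, c i j ≠ 0) ∧ (∀ i, ∑ j, c i j • U i j ^ d i = 0) ∧
    (∀ i, LinearIndependent k (fun l => c i ((Fin.last (m i)).succAbove l) •
      U i ((Fin.last (m i)).succAbove l) ^ d i)) ∧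
    IsTranscendenceBasis k (fun i => (c i (a i) • U i (a i) ^ d i) / (c i (b i) • U i (b i) ^ d i))

section

variable {K : Type} [Field K] [Algebra k K]

theorem dich_circ [IsAlgClosed k] [CharZero k] {w : ℕ} (htr : Algebra.trdeg k K = w)
    {Ε : Type} {J : Ε → Type} [∀ e, Fintype (J e)]
    (g : ∀ e, J e → K) (hg : ∀ e j, g e j ≠ 0) (hsum : ∀ e, ∑ j, g e j = 0) :
    (∃ (e : Fin w → Ε) (C : ∀ i, CD k (g (e i))) (a b : ∀ i, Fin ((C i).m + 1)),
      IsTranscendenceBasis k (fun i => ((C i).c (a i) • g (e i) ((C i).e (a i))) /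
        ((C i).c (b i) • g (e i) ((C i).e (b i))))) ∨
    ∃ D : Derivation k K K, D ≠ 0 ∧ ∀ e, ∃ R : J e → J e → Prop, Equivalence R ∧
      (∀ i j, R i j → D (g e i) * g e j = g e i * D (g e j)) ∧
      ∀ (j0 : J e) (A : Finset (J e)), (∀ j, j ∈ A ↔ R j0 j) → ∑ j ∈ A, g e j = 0 := by
  classical
  by_cases halg : Algebra.IsAlgebraic (IntermediateField.adjoin k (ratios k g)) K
  · left
    have halg' := alg_adjoin halg
    obtain ⟨B, hB, hBb⟩ := exists_isTranscendenceBasis_subset (R := k) (A := K) (ratios k g)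
    have hcard := hBb.cardinalMk_eq_trdeg
    rw [htr] at hcard
    obtain ⟨φ⟩ : Nonempty (Fin w ≃ B) := by
      rw [← Cardinal.eq, Cardinal.mk_fin]
      exact hcard.symm
    set t : Fin w → K := fun i => (φ i : K) with ht
    have htb : IsTranscendenceBasis k t := hBb.comp_equiv φ
    have hmem : ∀ i, t i ∈ ratios k g := fun i => hB (φ i).2
    choose e C a b hab using hmem
    refine ⟨e, C, a, b, ?_⟩
    have h1 : (fun i => ((C i).c (a i) • g (e i) ((C i).e (a i))) /
        ((C i).c (b i) • g (e i) ((C i).e (b i)))) = t := funext fun i => (hab i).symm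
    rw [h1]
    exact htb
  · right
    obtain ⟨D, hD0, hD⟩ := exists_der_over (ratios k g) halg
    refine ⟨D, hD0, fun e => ?_⟩
    let R0 : J e → J e → Prop := fun i j => ∃ (C : CD k (g e)) (a b : Fin (C.m + 1)),
      C.e a = i ∧ C.e b = j
    have hR0 : ∀ i j, R0 i j → D (g e i) * g e j = g e i * D (g e j) := by
      rintro _ _ ⟨C, a, b, rfl, rfl⟩
      have h1 := hD _ ⟨e, C, a, b, rfl⟩
      have hca : algebraMap k K (C.c a) ≠ 0 := by
        rw [Ne, map_eq_zero]; exact C.hc a
      have hcb : algebraMap k K (C.c b) ≠ 0 := by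
        rw [Ne, map_eq_zero]; exact C.hc b
      have hga := hg e (C.e a)
      have hgb := hg e (C.e b)
      rw [Algebra.smul_def, Algebra.smul_def, div_eq_mul_inv, D.leibniz, D.leibniz_inv, D.leibniz,
        D.leibniz, D.map_algebraMap, D.map_algebraMap] at h1
      simp only [smul_eq_mul, mul_zero, add_zero] at h1
      field_simp at h1
      rw [mul_zero] at h1
      have h2 := (mul_eq_zero.1 h1).resolve_left hca
      linear_combination h2
    refine ⟨Relation.EqvGen R0, Relation.EqvGen.is_equivalence R0, ?_, ?_⟩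
    · intro i j hij
      induction hij with
      | rel i j h => exact hR0 i j h
      | refl i => exact mul_comm _ _
      | symm i j _ ih => linear_combination -ih
      | trans i j l _ _ ih1 ih2 =>
        have hj := hg e j
        apply mul_right_cancel₀ hj
        linear_combination (g e l) * ih1 + (g e i) * ih2
    · intro j0 A hA
      have key := class_sum (k := k) (g e) (Relation.EqvGen R0) (Relation.EqvGen.is_equivalence R0)
        (by
          intro m em hem c hc hrel hlin i j
          exact Relation.EqvGen.rel _ _ ⟨⟨m, em, hem, c, hc, hrel, hlin⟩, i, j, rfl, rfl⟩)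
        (Finset.univ.filter fun j => (fun _ : J e => (1 : k)) j ≠ 0).card (fun _ => 1) le_rfl
        (by simpa using hsum e) j0
      simp only [one_smul] at key
      rw [← key]
      exact Finset.sum_congr (by ext j; simp [hA]) (fun _ _ => rfl)

end

section war

variable {n : ℕ} {ι : Type}

theorem waring_circ [IsAlgClosed k] [CharZero k] {K : Type} [Field K] [Algebra k K]
    {F : ι → MvPolynomial (Fin (n + 1)) k}
    {s N : ℕ} (hF : ∀ e, IsPowSum s N (F e)) (hN1 : 1 ≤ N)
    {w : ℕ} (htr : Algebra.trdeg k K = w) {y : Fin (n + 1) → K}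
    (hyF : ∀ e, val y (F e) = 0) : HasCirc k s N w K ∨
    ∃ (D : Derivation k K K) (Z : Set (Fin (n + 1) → k))
      (Q : Set ((Fin (n + 1) → k) × (Fin (n + 1) → k))), D ≠ 0 ∧ (∀ l ∈ Z, lin l y = 0) ∧
      (∀ p ∈ Q, lin p.1 y ≠ 0 ∧ lin p.2 y ≠ 0 ∧ D (lin p.1 y / lin p.2 y) = 0) ∧
      ∀ (M : Type) [Field M] [Algebra k M] [Algebra K M] [IsScalarTower k K M]
        (x : Fin (n + 1) → M), (∀ l ∈ Z, lin l x = 0) →
        (∀ p ∈ Q, lin p.1 x = algebraMap K M (lin p.1 y / lin p.2 y) * lin p.2 x) →
        ∀ e, val x (F e) = 0 := by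
  classical
  choose r d l hr hd hFe using hF
  have hK : CharZero K := charZero_of_injective_algebraMap (algebraMap k K).injective
  let L : ∀ e, Fin (r e) → (Fin (n + 1) → K) → K := fun e j x => lin (l e j) x
  have hvalM : ∀ (M : Type) [Field M] [Algebra k M] (x : Fin (n + 1) → M) e,
      val x (F e) = ∑ j, lin (l e j) x ^ d e := by
    intro M _ _ x e
    unfold val
    rw [hFe e, map_sum]
    refine Finset.sum_congr rfl fun j _ => ?_
    rw [map_pow, map_sum]
    simp only [map_mul, MvPolynomial.aeval_C, MvPolynomial.aeval_X]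
    rfl
  have hval : ∀ (x : Fin (n + 1) → K) e, val x (F e) = ∑ j, L e j x ^ d e := hvalM K
  have hd0 : ∀ e, 0 < d e := fun e => lt_of_lt_of_le hN1 (hd e)
  let J : ι → Type := fun e => {j : Fin (r e) // L e j y ≠ 0}
  let g : ∀ e, J e → K := fun e j => L e j.1 y ^ d e
  have hg : ∀ e j, g e j ≠ 0 := fun e j => pow_ne_zero _ j.2
  have hsub : ∀ (M : Type) [Field M] (e : ι) (f : Fin (r e) → M), (∀ j, L e j y = 0 → f j = 0) →
      ∑ j, f j = ∑ j : J e, f j.1 := by
    intro M _ e f hf
    rw [← Finset.sum_subtype (Finset.univ.filter fun j => L e j y ≠ 0) (by simp) f]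
    rw [Finset.sum_filter_of_ne]
    intro j _ hj h0
    exact hj (hf j h0)
  have hsum : ∀ e, ∑ j, g e j = 0 := by
    intro e
    rw [← hsub K e (fun j => L e j y ^ d e) (fun j hj => by rw [hj, zero_pow (hd0 e).ne']), ← hval]
    exact hyF e
  have hcard : ∀ e, Fintype.card (J e) ≤ s := fun e =>
    (Fintype.card_subtype_le _).trans (by rw [Fintype.card_fin]; exact hr e)
  rcases dich_circ htr g hg hsum with ⟨e, C, a, b, hb⟩ | ⟨D, hD, hR⟩
  · left
    refine ⟨fun i => (C i).m, fun i => d (e i), fun i j => L (e i) ((C i).e j).1 y,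
      fun i => (C i).c, a, b, fun i => ?_, fun i => hd _, fun i j => ((C i).e j).2,
      fun i => (C i).hc, fun i => (C i).rel, fun i => (C i).lin, hb⟩
    have := Fintype.card_le_of_injective _ (C i).he
    simp only [Fintype.card_fin] at this
    exact this.trans (hcard _)
  right
  choose R hRe hRD hRs using hR
  refine ⟨D, {z | ∃ e j, L e j y = 0 ∧ z = l e j},
    {p | ∃ (e : ι) (i j : J e), R e i j ∧ p = (l e i.1, l e j.1)}, hD, ?_, ?_, ?_⟩
  · rintro z ⟨e, j, hj, rfl⟩
    exact hj
  · rintro p ⟨e, i, j, hij, rfl⟩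
    have h2 := hRD e i j hij
    have hi := i.2
    have hj := j.2
    refine ⟨hi, hj, ?_⟩
    have hde : (d e : K) ≠ 0 := by exact_mod_cast (hd0 e).ne'
    change D (L e i.1 y ^ d e) * L e j.1 y ^ d e = L e i.1 y ^ d e * D (L e j.1 y ^ d e) at h2
    have hpow : ∀ x : K, x ≠ 0 → D (x ^ d e) = d e * x ^ d e * (D x / x) := by
      intro x hx
      rw [D.leibniz_pow]
      obtain ⟨q, hq⟩ : ∃ q, d e = q + 1 := ⟨d e - 1, by have := hd0 e; omega⟩
      rw [hq]
      simp only [nsmul_eq_mul, smul_eq_mul, Nat.add_sub_cancel]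
      field_simp
      ring
    rw [hpow _ hi, hpow _ hj] at h2
    have h3 : D (L e i.1 y) / L e i.1 y = D (L e j.1 y) / L e j.1 y := by
      have h4 : (d e : K) * L e i.1 y ^ d e * L e j.1 y ^ d e ≠ 0 :=
        mul_ne_zero (mul_ne_zero hde (pow_ne_zero _ hi)) (pow_ne_zero _ hj)
      apply mul_left_cancel₀ h4
      linear_combination h2
    change D (L e i.1 y / L e j.1 y) = 0
    rw [div_eq_mul_inv, D.leibniz, D.leibniz_inv]
    simp only [smul_eq_mul]
    field_simp at h3 ⊢
    linear_combination h3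
  · intro M _ _ _ _ x hZ hQ e
    rw [hvalM, hsub M e (fun j => lin (l e j) x ^ d e) (fun j hj => by
      rw [hZ _ ⟨e, j, hj, rfl⟩, zero_pow (hd0 e).ne'])]
    have hy0 : ∀ j : J e, algebraMap K M (L e j.1 y) ≠ 0 := fun j => by
      rw [Ne, map_eq_zero]
      exact j.2
    have h1 := weighted_sum (R e) (hRe e) (fun j : J e => algebraMap K M (g e j))
      (fun j => (lin (l e j.1) x / algebraMap K M (L e j.1 y)) ^ d e)
      (fun i j hij => by
        have h2 := hQ _ ⟨e, i, j, hij, rfl⟩
        change lin (l e i.1) x = algebraMap K M (L e i.1 y / L e j.1 y) * lin (l e j.1) x at h2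
        rw [map_div₀] at h2
        have := hy0 i
        have := hy0 j
        congr 1
        rw [h2]
        field_simp)
      (fun j0 A hA => by
        rw [← map_sum, hRs e j0 A hA, map_zero])
    refine Eq.trans (Finset.sum_congr rfl fun j _ => ?_) h1
    have := hy0 j
    change _ = _ * algebraMap K M (L e j.1 y ^ d e)
    rw [map_pow, ← mul_pow]
    congr 1
    field_simp

end war

section sp

open MvPolynomial

variable {K : Type} [Field K] [Algebra k K] {n : ℕ}

theorem sparse_circ [IsAlgClosed k] [CharZero k] {ι : Type}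
    {F : ι → MvPolynomial (Fin (n + 1)) k} {s N : ℕ} (hF : ∀ e, IsPowSparse ∅ s N (F e))
    {w : ℕ} (htr : Algebra.trdeg k K = w) {y : Fin (n + 1) → K}
    (hgen : Algebra.IsAlgebraic (coords k y) K) (hyF : ∀ e, val y (F e) = 0) :
    HasCirc k s N w K ∨
    ∃ (b : Fin (n + 1) → ℤ) (i i' : Fin (n + 1)), y i ≠ 0 ∧ y i' ≠ 0 ∧ b i ≠ b i' ∧
      ∀ e v, val y (wc b v (F e)) = 0 := by
  classical
  have hK : CharZero K := charZero_of_injective_algebraMap (algebraMap k K).injective
  let T : ∀ e, (Fin (n + 1) →₀ ℕ) → K := fun e α => algebraMap k K ((F e).coeff α) * ∏ j, y j ^ α j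
  let J : ι → Type := fun e => {α : (F e).support // T e α ≠ 0}
  let g : ∀ e, J e → K := fun e α => T e α.1
  have hg : ∀ e j, g e j ≠ 0 := fun e j => j.2
  have hsub : ∀ (e : ι) (h : (Fin (n + 1) →₀ ℕ) → K), ∑ α ∈ (F e).support, h α * T e α =
      ∑ α : J e, h α.1 * g e α := by
    intro e h
    rw [← Finset.sum_coe_sort (F e).support (fun α => h α * T e α)]
    rw [← Finset.sum_subtype (Finset.univ.filter fun α : (F e).support => T e α ≠ 0) (by simp)
      (fun α : (F e).support => h α * T e α), Finset.sum_filter_of_ne]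
    intro α _ hα h0
    exact hα (by rw [h0, mul_zero])
  have hsum : ∀ e, ∑ j, g e j = 0 := by
    intro e
    have h1 := hsub e (fun _ => 1)
    simp only [one_mul] at h1
    rw [← h1, ← val_eq_sum]
    exact hyF e
  have hcard : ∀ e, Fintype.card (J e) ≤ s := fun e =>
    (Fintype.card_subtype_le _).trans (by rw [Fintype.card_coe]; exact (hF e).2.1)
  rcases dich_circ htr g hg hsum with ⟨e, C, a, b, hb⟩ | ⟨D, hD, hR⟩
  · left
    choose N' hN' hdvd using fun e => (hF e).2.2
    let U : ∀ i, Fin ((C i).m + 1) → K := fun i j =>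
      ∏ l, y l ^ ((((C i).e j).1 : Fin (n + 1) →₀ ℕ) l / N' (e i))
    have hUpow : ∀ i j, U i j ^ N' (e i) =
        ∏ l, y l ^ ((((C i).e j).1 : Fin (n + 1) →₀ ℕ) l) := by
      intro i j
      simp only [U]
      rw [← Finset.prod_pow]
      refine Finset.prod_congr rfl fun l _ => ?_
      rw [← pow_mul]
      congr 1
      exact Nat.div_mul_cancel (hdvd (e i) _ ((C i).e j).1.2 l (Set.notMem_empty l))
    let c : ∀ i, Fin ((C i).m + 1) → k := fun i j =>
      (C i).c j * (F (e i)).coeff (((C i).e j).1 : Fin (n + 1) →₀ ℕ)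
    have hval : ∀ i j, c i j • U i j ^ N' (e i) = (C i).c j • g (e i) ((C i).e j) := by
      intro i j
      rw [hUpow]
      change _ = (C i).c j • (algebraMap k K ((F (e i)).coeff _) * ∏ l, y l ^ _)
      rw [Algebra.smul_def, Algebra.smul_def, map_mul, mul_assoc]
    have hne : ∀ i j, c i j • U i j ^ N' (e i) ≠ 0 := by
      intro i j
      rw [hval]
      exact smul_ne_zero ((C i).hc j) (hg _ _)
    have hU1 : ∀ i j, U i j ≠ 0 := by
      intro i j h0
      have h1 := hne i j
      rcases Nat.eq_zero_or_pos (N' (e i)) with h2 | h2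
      · have h3 : ∏ l, y l ^ ((((C i).e j).1 : Fin (n + 1) →₀ ℕ) l) ≠ 0 := by
          rw [← hUpow, h2, pow_zero]
          exact one_ne_zero
        have h4 : U i j = 1 := by
          simp only [U]
          rw [h2]
          simp
        rw [h4] at h0
        exact one_ne_zero h0
      · apply h1
        rw [h0, zero_pow h2.ne', smul_zero]
    refine ⟨fun i => (C i).m, fun i => N' (e i), U, c, a, b, fun i => ?_, fun i => hN' _,
      hU1, fun i j h0 => hne i j (by rw [h0, zero_smul]), fun i => ?_, fun i => ?_, ?_⟩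
    · have := Fintype.card_le_of_injective _ (C i).he
      simp only [Fintype.card_fin] at this
      exact this.trans (hcard _)
    · rw [Finset.sum_congr rfl fun j _ => hval i j]
      exact (C i).rel
    · simp only [hval]
      exact (C i).lin
    · simp only [hval]
      exact hb
  right
  obtain ⟨i, i', hii⟩ := moves hgen hD
  have hyi : y i ≠ 0 := by
    intro h0
    apply hii
    rw [h0, map_zero]
    ring
  have hyi' : y i' ≠ 0 := by
    intro h0
    apply hii
    rw [h0, map_zero]
    ring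
  have hlam : D (y i) / y i ≠ D (y i') / y i' := by
    intro h0
    apply hii
    field_simp at h0
    linear_combination -h0
  obtain ⟨b, hb, hb2⟩ := int_weights (fun j => D (y j) / y j) hlam
  refine ⟨b, i, i', hyi, hyi', hb, fun e v => ?_⟩
  obtain ⟨R, hRe, hRD, hRs⟩ := hR e
  rw [val_wc, Finset.sum_filter]
  have h1 := hsub e (fun α => if ∑ j, (α j : ℤ) * b j = v then 1 else 0)
  simp only [ite_mul, one_mul, zero_mul] at h1
  rw [h1]
  have h2 := weighted_sum R hRe (g e)
    (fun α => if ∑ j, ((α.1 : Fin (n + 1) →₀ ℕ) j : ℤ) * b j = v then 1 else 0) ?_ hRs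
  · simpa only [ite_mul, one_mul, zero_mul] using h2
  · intro α β hαβ
    have h3 := hRD α β hαβ
    change D (T e α.1) * T e β.1 = T e α.1 * D (T e β.1) at h3
    rw [der_mon D α.2, der_mon D β.2] at h3
    have h4 : ∑ j, ((α.1 : Fin (n + 1) →₀ ℕ) j : K) * (D (y j) / y j) =
        ∑ j, ((β.1 : Fin (n + 1) →₀ ℕ) j : K) * (D (y j) / y j) := by
      apply mul_left_cancel₀ (mul_ne_zero α.2 β.2)
      linear_combination h3
    have h5 := hb2 (fun j => ((α.1 : Fin (n + 1) →₀ ℕ) j : ℤ) - ((β.1 : Fin (n + 1) →₀ ℕ) j : ℤ)) (by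
      push_cast
      simp only [sub_mul, Finset.sum_sub_distrib]
      rw [h4, sub_self])
    simp only [sub_mul, Finset.sum_sub_distrib] at h5
    rw [sub_eq_zero.1 h5]

end sp

variable [CharZero k] [IsAlgClosed k] {n : ℕ} {ι : Type}

/-- The dichotomy for the components of systems of high powers: a system of circuits, or generated
by a transcendental element over a subfield. -/
theorem circ_or_ruled {F : ι → MvPolynomial (Fin (n + 1)) k} {s N : ℕ} (hF : HighPowers s N F)
    (hN1 : 1 ≤ N) {K : Type} [Field K] [Algebra k K] {w : ℕ}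
    {y : Fin (n + 1) → K} (hy : SubVar F K w y) (hcomp : IsComponent F y) :
    HasCirc k s N w K ∨
    ∃ (C : IntermediateField k K) (σ : K), Transcendental C σ ∧ C⟮σ⟯ = ⊤ := by
  have hgen : Algebra.IsAlgebraic (coords k y) K := by
    rw [hy.gen]
    infer_instance
  rcases hF with h | h
  · rcases waring_circ h hN1 hy.dim hy.mem with hc | ⟨D, Z, Q, hD, hZ, hQ, hx⟩
    · exact Or.inl hc
    right
    obtain ⟨C, i0, j0, -, h1, h2, -⟩ := flow_of_pi hy hcomp D Z Q hD hZ hQ hx
    exact ⟨C, _, h1, h2⟩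
  · rcases sparse_circ h hy.dim hgen hy.mem with hc | ⟨b, i, i', hi, hi', hb, hwc⟩
    · exact Or.inl hc
    right
    have hyU : SubVarU ∅ F K w y :=
      ⟨hy.ne, fun j hj => absurd hj (Set.notMem_empty j), hy.mem, hy.gen, hy.dim⟩
    have hcompU : IsComponentU ∅ F y := by
      obtain ⟨H, hH, hHy, hcone⟩ := hcomp
      exact ⟨H, hH, hHy, fun x hx hxH => hcone x (mem_cone_empty hx) hxH⟩
    obtain ⟨δ, σ, -, -, hσ0, hσ, htop, -⟩ := exists_delta hy.gen b hi hi' hb
      (fun G hG h0 v => ideal_hom hyU hcompU hwc G hG h0 v)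
    refine ⟨consts δ, σ, ?_, htop⟩
    intro halg
    have h1 : Algebra.IsAlgebraic (consts δ) K := by
      have h2 : Algebra.IsAlgebraic (consts δ) (consts δ)⟮σ⟯ :=
        IntermediateField.isAlgebraic_adjoin_simple halg.isIntegral
      constructor
      intro z
      have h3 := h2.isAlgebraic (⟨z, by rw [htop]; exact IntermediateField.mem_top⟩ : (consts δ)⟮σ⟯)
      exact h3.algebraMap (A := K)
    have h2 : Algebra.IsAlgebraic (IntermediateField.adjoin k (consts δ : Set K)) K := by
      rw [IntermediateField.adjoin_self]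
      exact h1
    have h3 := der_eq_zero δ _ h2 (fun s hs => hs)
    rw [h3] at hσ
    exact hσ0 hσ.symm

end Pool.Agent.TH466.QG
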