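import Pool.Agent.TH466.QG.Gen
import Pool.Agent.TH466.QG.Sysc
import Pool.Agent.TH466.QG.Equiv

/-!
Passage to the Galois closure: fields below a field with a system of circuits of high powers.
-/

set_option autoImplicit false
set_option linter.overlappingInstances false
set_option linter.unusedSectionVars false

open FF IntermediateField Pool.Agent.W603.LV

namespace Pool.Agent.TH466.QG

open Pool.Agent.W602.GT (GeneralType tn)

/-- generic coefficients -/
theorem exists_generic {k M : Type} [Field k] [Infinite k] [Field M] [Algebra k M]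
    {Γ : Subgroup (M ≃ₐ[k] M)} [Finite Γ] {m : ℕ} (u : Fin (m + 1) → M) :
    ∃ γ : Fin (m + 1) → k, ∀ g : Γ,
      (g : M ≃ₐ[k] M) (∑ j, γ j • u j) = ∑ j, γ j • u j → ∀ j, (g : M ≃ₐ[k] M) (u j) = u j := by
  classical
  let p : Γ → Submodule k (Fin (m + 1) → k) := fun g =>
    if (∀ j, (g : M ≃ₐ[k] M) (u j) = u j) then ⊥ else
      LinearMap.ker (Fintype.linearCombination k (fun j => (g : M ≃ₐ[k] M) (u j) - u j))
  have hp : ∀ g, p g ≠ ⊤ := by
    intro g
    change (if _ then _ else _) ≠ _
    split_ifs with h
    · exact bot_ne_top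
    · push Not at h
      obtain ⟨j, hj⟩ := h
      intro htop
      have h1 : (Pi.single j 1 : Fin (m + 1) → k) ∈
          LinearMap.ker (Fintype.linearCombination k (fun j => (g : M ≃ₐ[k] M) (u j) - u j)) := by
        rw [htop]
        trivial
      rw [LinearMap.mem_ker, Fintype.linearCombination_apply_single, one_smul] at h1
      exact hj (sub_eq_zero.1 h1)
  have h1 : (⋃ g, (p g : Set (Fin (m + 1) → k))) ≠ Set.univ := by
    intro h
    obtain ⟨g, hg⟩ := Subspace.exists_eq_top_of_iUnion_eq_univ h
    exact hp g hg
  obtain ⟨γ, hγ⟩ := (Set.ne_univ_iff_exists_notMem _).1 h1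
  rw [Set.mem_iUnion, not_exists] at hγ
  refine ⟨γ, fun g hg => ?_⟩
  by_contra h
  apply hγ g
  have hpg : p g =
      LinearMap.ker (Fintype.linearCombination k (fun j => (g : M ≃ₐ[k] M) (u j) - u j)) :=
    if_neg h
  change γ ∈ p g
  rw [hpg, LinearMap.mem_ker, Fintype.linearCombination_apply]
  simp only [smul_sub, Finset.sum_sub_distrib]
  rw [sub_eq_zero, ← hg, map_sum]
  exact Finset.sum_congr rfl fun j _ => by rw [map_smul]

/-- a circuit whose ratios are not all constant has at least three members -/
theorem two_le {k M : Type} [Field k] [Field M] [Algebra k M] {m : ℕ} {T : Fin (m + 1) → M}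
    (hT : ∀ j, T j ≠ 0) (hsum : ∑ j, T j = 0) {a b : Fin (m + 1)}
    (htr : Transcendental k (T a / T b)) : 2 ≤ m := by
  by_contra h
  have hm : m = 0 ∨ m = 1 := by omega
  rcases hm with rfl | rfl
  · rw [Fin.sum_univ_one] at hsum
    exact hT 0 hsum
  · rw [Fin.sum_univ_two] at hsum
    have h1 : T 1 = -T 0 := by linear_combination hsum
    have h0 := hT 0
    apply htr
    have halg : T a / T b = 1 ∨ T a / T b = -1 := by
      fin_cases a <;> fin_cases b <;> simp [h1, h0, div_neg, neg_div]
    rcases halg with h | h
    · rw [h]; exact isAlgebraic_one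
    · rw [h]; exact isAlgebraic_one.neg

theorem tn_mono {a b : ℕ} (h : a ≤ b) : tn a ≤ tn b := by
  unfold tn
  rw [Fin.sum_univ_eq_sum_range (fun i => i), Fin.sum_univ_eq_sum_range (fun i => i)]
  exact Finset.sum_le_sum_of_subset (Finset.range_mono h)

theorem tn_pos {a : ℕ} (h : 2 ≤ a) : 0 < tn a := by
  have h1 : tn 2 = 1 := by decide
  have := tn_mono h
  omega

section

variable {k M F K : Type} [Field k] [CharZero k] [IsAlgClosed k] [Field M] [Field F] [Field K]
  [Algebra k M] [Algebra k F] [Algebra k K] [Algebra F K] [Algebra F M] [Algebra K M]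
  [IsScalarTower k F K] [IsScalarTower k F M] [IsScalarTower k K M] [IsScalarTower F K M]

/-- the automorphisms which fix the elements of `F` -/
def fixg (k M F : Type) [Field k] [Field M] [Field F] [Algebra k M] [Algebra F M] :
    Subgroup (M ≃ₐ[k] M) where
  carrier := {g | ∀ x : F, g (algebraMap F M x) = algebraMap F M x}
  mul_mem' := by
    intro a b ha hb x
    change a (b _) = _
    rw [hb x, ha x]
  one_mem' := fun x => rfl
  inv_mem' := by
    intro a ha x
    conv_lhs => rw [← ha x]
    change (a⁻¹ * a) _ = _
    rw [inv_mul_cancel]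
    rfl

theorem mem_fixg {g : M ≃ₐ[k] M} :
    g ∈ fixg k M F ↔ ∀ x : F, g (algebraMap F M x) = algebraMap F M x := Iff.rfl

/-- as automorphisms over `F` -/
def toF (g : fixg k M F) : M ≃ₐ[F] M :=
  AlgEquiv.ofRingEquiv (f := ((g : M ≃ₐ[k] M) : M ≃+* M)) fun x => g.2 x

theorem toF_apply (g : fixg k M F) (x : M) : toF g x = (g : M ≃ₐ[k] M) x := rfl

theorem toF_injective : Function.Injective (toF : fixg k M F → (M ≃ₐ[F] M)) := by
  intro g h hgh
  apply Subtype.ext
  ext x
  exact congrArg (fun φ : M ≃ₐ[F] M => φ x) hgh

theorem fixg_finite [FiniteDimensional F M] : Finite (fixg k M F) :=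
  Finite.of_injective _ toF_injective

/-- the fixed field is `F` -/
theorem exists_equiv [FiniteDimensional F M] [IsGalois F M] :
    Nonempty (fixedField (fixg k M F) ≃ₐ[k] F) := by
  let φ : F →ₐ[k] M := IsScalarTower.toAlgHom k F M
  have h : φ.fieldRange = fixedField (fixg k M F) := by
    ext x
    rw [AlgHom.mem_fieldRange, IntermediateField.mem_fixedField_iff]
    constructor
    · rintro ⟨y, rfl⟩ g hg
      exact hg y
    · intro hx
      have h1 : x ∈ Set.range (algebraMap F M) := by
        rw [IsGalois.mem_range_algebraMap_iff_fixed]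
        intro f
        exact hx (f.restrictScalars k) fun y => f.commutes y
      obtain ⟨y, hy⟩ := h1
      exact ⟨y, hy⟩
  exact ⟨((AlgEquiv.ofInjectiveField φ).trans (IntermediateField.equivOfEq h)).symm⟩

/-- the elements which also fix `K` -/
def fixK (k M F K : Type) [Field k] [Field M] [Field F] [Field K] [Algebra k M] [Algebra F M]
    [Algebra K M] : Subgroup (fixg k M F) := (fixg k M K).comap (fixg k M F).subtype

theorem index_le [FiniteDimensional F M] [IsGalois F M] [FiniteDimensional F K] :
    (fixK k M F K).index ≤ Module.finrank F K := by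
  classical
  have hF : CharZero F := charZero_of_injective_algebraMap (algebraMap k F).injective
  have hfin : Finite (fixg k M F) := fixg_finite
  let ψ : fixg k M F → (K →ₐ[F] M) := fun g =>
    ((toF g : M ≃ₐ[F] M) : M →ₐ[F] M).comp (IsScalarTower.toAlgHom F K M)
  have hψ : ∀ (g : fixg k M F) (x : K), ψ g x = (g : M ≃ₐ[k] M) (algebraMap K M x) :=
    fun g x => rfl
  have hrel : ∀ g h : fixg k M F, g⁻¹ * h ∈ fixK k M F K ↔ ψ g = ψ h := by
    intro g h
    constructor
    · intro hgh
      ext x
      have h1 : ((g⁻¹ * h : fixg k M F) : M ≃ₐ[k] M) (algebraMap K M x) = algebraMap K M x := hgh x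
      rw [hψ, hψ]
      conv_lhs => rw [← h1]
      change ((g * (g⁻¹ * h) : fixg k M F) : M ≃ₐ[k] M) _ = _
      rw [mul_inv_cancel_left]
    · intro hgh x
      have h1 := congrArg (fun φ : K →ₐ[F] M => φ x) hgh
      change (g : M ≃ₐ[k] M) (algebraMap K M x) = (h : M ≃ₐ[k] M) (algebraMap K M x) at h1
      change ((g⁻¹ : fixg k M F) : M ≃ₐ[k] M) ((h : M ≃ₐ[k] M) (algebraMap K M x)) = _
      rw [← h1]
      change ((g⁻¹ * g : fixg k M F) : M ≃ₐ[k] M) _ = _
      rw [inv_mul_cancel]
      rfl
  let Ψ : (fixg k M F ⧸ fixK k M F K) → (K →ₐ[F] M) := fun q => ψ q.out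
  have hΨ : Function.Injective Ψ := by
    intro q q' h
    have h1 : (q.out)⁻¹ * q'.out ∈ fixK k M F K := (hrel _ _).2 h
    have h2 := QuotientGroup.eq.2 h1
    rwa [QuotientGroup.out_eq', QuotientGroup.out_eq'] at h2
  have h1 : Nat.card (fixg k M F ⧸ fixK k M F K) ≤ Nat.card (K →ₐ[F] M) :=
    Nat.card_le_card_of_injective Ψ hΨ
  refine h1.trans (le_of_eq ?_)
  refine AlgHom.natCard_of_splits F K M fun x => ?_
  have h3 : Normal F M := inferInstance
  have h4 := h3.splits (algebraMap K M x)
  rwa [minpoly.algebraMap_eq (algebraMap K M).injective] at h4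

/-- **The theorem on subfields of a field with a system of circuits**, when a Galois closure is
given. -/
theorem general_galois [FiniteDimensional F M] [IsGalois F M] [FiniteDimensional F K]
    {s N n r : ℕ} (hn1 : 1 ≤ n) (hr : Module.finrank F K ≤ r) (hC : HasCirc k s N n K)
    (hN : r * (n * ((s + 4) * tn (s - 1))) ≤ N) : GeneralType k F n := by
  classical
  obtain ⟨m, d, U, c, a, b, hms, hNd, hU, hc, hsum, hlin, hbas⟩ := hC
  have hfin : Finite (fixg k M F) := fixg_finite
  have halg : Algebra.IsAlgebraic K M := by
    have : Algebra.IsAlgebraic F M := inferInstance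
    exact Algebra.IsAlgebraic.tower_top (K := F) K
  have hbas' := hbas.algebraMap_comp (A := M)
  have hMn : Algebra.trdeg k M = n := by
    have := hbas'.cardinalMk_eq_trdeg
    rw [← this]
    simp
  obtain ⟨e⟩ := exists_equiv (k := k) (M := M) (F := F)
  refine general_of_equiv e ?_
  set H := fixK k M F K with hHdef
  have hHr : H.index ≤ r := index_le.trans hr
  have hinj := (algebraMap K M).injective
  choose γ hγ using fun i => exists_generic (Γ := fixg k M F)
    (fun j => algebraMap K M (U i j) / algebraMap K M (U i (b i)))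
  have hHfix : ∀ h ∈ H, ∀ x : K, (h : M ≃ₐ[k] M) (algebraMap K M x) = algebraMap K M x :=
    fun h hh x => hh x
  let z : Fin n → M := fun i =>
    (∑ j, γ i j • algebraMap K M (U i j)) / algebraMap K M (U i (b i))
  have hz : ∀ i, z i = ∑ j, γ i j • (algebraMap K M (U i j) / algebraMap K M (U i (b i))) := by
    intro i
    change (∑ j, γ i j • algebraMap K M (U i j)) / algebraMap K M (U i (b i)) = _
    rw [Finset.sum_div]
    exact Finset.sum_congr rfl fun j _ => by rw [smul_div_assoc]
  have hzH : ∀ i, ∀ h ∈ H, (h : M ≃ₐ[k] M) (z i) = z i := by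
    intro i h hh
    rw [hz, map_sum]
    refine Finset.sum_congr rfl fun j _ => ?_
    rw [map_smul, map_div₀, hHfix h hh, hHfix h hh]
  choose Y hYc hYm hY using fun i => exists_rep (z i) H (hzH i)
  let C : Fin n → CC (fixg k M F) := fun i =>
    { m := m i, U := fun j => algebraMap K M (U i j), c := c i, d := d i, b := b i, γ := γ i,
      Y := Y i }
  have hCT : ∀ i j, (C i).T j = algebraMap K M (c i j • U i j ^ d i) := by
    intro i j
    change c i j • (algebraMap K M (U i j)) ^ d i = _
    rw [Algebra.smul_def, Algebra.smul_def, map_mul, map_pow,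
      IsScalarTower.algebraMap_apply k K M]
  have htr : ∀ i, Transcendental k ((C i).T (a i) / (C i).T (b i)) := by
    intro i
    rw [hCT, hCT, ← map_div₀]
    exact hbas'.1.transcendental i
  have hTne : ∀ i j, (C i).T j ≠ 0 := by
    intro i j
    rw [hCT]
    simp only [ne_eq, map_eq_zero]
    exact smul_ne_zero (hc i j) (pow_ne_zero _ (hU i j))
  have hTsum : ∀ i, ∑ j, (C i).T j = 0 := by
    intro i
    have h1 : ∑ j, (C i).T j = algebraMap K M (∑ j, c i j • U i j ^ d i) := by
      rw [map_sum]
      exact Finset.sum_congr rfl fun j _ => hCT i j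
    rw [h1, hsum, map_zero]
  have hWle : Wt C (s + 4) ≤ n * ((s + 4) * tn (s - 1)) := by
    unfold Wt
    calc ∑ i, (s + 4) * tn (C i).m ≤ ∑ _i : Fin n, (s + 4) * tn (s - 1) := by
          refine Finset.sum_le_sum fun i _ => Nat.mul_le_mul_left _ (tn_mono ?_)
          have := hms i
          change m i ≤ s - 1
          omega
      _ = n * ((s + 4) * tn (s - 1)) := by simp
  have hS : Sys C (s + 4) r H :=
    { hc := hc
      hU := fun i j => by
        change algebraMap K M (U i j) ≠ 0
        rw [Ne, map_eq_zero]
        exact hU i j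
      hsum := hTsum
      hlin := by
        intro i
        have h1 := (hlin i).map' (IsScalarTower.toAlgHom k K M).toLinearMap
          (LinearMap.ker_eq_bot.2 hinj)
        have h2 : (fun l => (C i).T ((Fin.last (m i)).succAbove l)) =
            (IsScalarTower.toAlgHom k K M).toLinearMap ∘ fun l =>
              c i ((Fin.last (m i)).succAbove l) • U i ((Fin.last (m i)).succAbove l) ^ d i :=
          funext fun l => hCT i _
        change LinearIndependent k (fun l => (C i).T ((Fin.last (m i)).succAbove l))
        rw [h2]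
        exact h1
      hgen := by
        intro i g hg j
        change (g : M ≃ₐ[k] M) (z i) = z i at hg
        rw [hz] at hg
        exact hγ i g hg j
      hH := fun i j h hh => hHfix h hh _
      hr := hHr
      hYc := fun i => (hYc i).trans hHr
      hY := fun i g hg => hY i g hg
      hYm := fun i τ hτ => hYm i τ hτ
      hA := fun i => by
        have := hms i
        change m i + 5 ≤ s + 4
        omega
      hd := fun i => ((Nat.mul_le_mul_left r hWle).trans hN).trans (hNd i)
      hW := by
        unfold Wt
        have h1 : 0 < (s + 4) * tn (C ⟨0, hn1⟩).m := by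
          refine Nat.mul_pos (by omega) (tn_pos ?_)
          exact two_le (hTne _) (hTsum _) (htr ⟨0, hn1⟩)
        exact lt_of_lt_of_le h1
          (Finset.single_le_sum (f := fun i => (s + 4) * tn (C i).m) (fun i _ => Nat.zero_le _)
            (Finset.mem_univ _)) }
  refine general_of_sys hMn hS a ?_
  convert hbas' using 1
  funext i
  rw [hCT, hCT]
  simp only [Function.comp, map_div₀]
  rfl

end

/-- **The theorem on subfields of a field with a system of circuits.** -/
theorem general_below {k F K : Type} [Field k] [CharZero k] [IsAlgClosed k] [Field F] [Field K]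
    [Algebra k F] [Algebra k K] [Algebra F K] [IsScalarTower k F K] [FiniteDimensional F K]
    {s N n r : ℕ} (hn1 : 1 ≤ n) (hr : Module.finrank F K ≤ r) (hC : HasCirc k s N n K)
    (hN : r * (n * ((s + 4) * tn (s - 1))) ≤ N) : GeneralType k F n := by
  have hF : CharZero F := charZero_of_injective_algebraMap (algebraMap k F).injective
  let L := AlgebraicClosure K
  have h1 : IsScalarTower F K L := inferInstance
  have h2 : IsScalarTower k K L := inferInstance
  have h3 : IsScalarTower k F L := IsScalarTower.of_algebraMap_eq fun x => by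
    rw [IsScalarTower.algebraMap_apply k K L, IsScalarTower.algebraMap_apply F K L,
      IsScalarTower.algebraMap_apply k F K]
  have hLF : Algebra.IsAlgebraic F L := by
    have : Algebra.IsAlgebraic F K := inferInstance
    have : Algebra.IsAlgebraic K L := inferInstance
    exact Algebra.IsAlgebraic.trans F K L
  have hLn : Normal F L := by
    have : IsAlgClosure F L := ⟨inferInstance, hLF⟩
    exact IsAlgClosure.normal F L
  let M := normalClosure F K L
  have hMn : Normal F M := inferInstance
  have hMf : FiniteDimensional F M := inferInstance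
  have hMg : IsGalois F M := ⟨⟩
  have h4 : IsScalarTower k F M := inferInstance
  have h5 : IsScalarTower F K M := inferInstance
  have h6 : IsScalarTower k K M := IsScalarTower.of_algebraMap_eq fun x => by
    rw [IsScalarTower.algebraMap_apply k F M, IsScalarTower.algebraMap_apply F K M,
      IsScalarTower.algebraMap_apply k F K]
  exact general_galois (M := M) hn1 hr hC hN

end Pool.Agent.TH466.QG
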