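import Pool.Agent.TH466.QG.Arr
import Pool.Agent.TH466.QG.Gal

/-!
Fields below a cover of projective space over an arrangement with high branching are of general
type.
-/

set_option autoImplicit false
set_option linter.overlappingInstances false
set_option linter.unusedSectionVars false

open FF IntermediateField Pool.Agent.W603.LV

namespace Pool.Agent.TH466.QG

open Pool.Agent.W619.PQ (Inert exists_inertia)
open Pool.Agent.W602.GT (IsPluri DerReg DerLog ge_div GeneralType der_ext ord_prod')
open Pool.Agent.W602.Cov (Form Reducible)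
open Pool.Agent.W602.Cov.G (lf bw)
open Pool.Agent.W168.CG.PGR (lf_add lf_smul lf_zero lf_mul lf_proj)
open Pool.Agent.TH152.AC (Bases Proper cnt rk pf pf_ord' pf_pluri pf_scale den den_ne ord_den log0
  bwa exists_bases weights lf_ne)

section gen

variable {M : Type} [Field M] [Algebra ℂ M] {Γ : Subgroup (M ≃ₐ[ℂ] M)} {n : ℕ}
variable {C : CC Γ} {ℓ : Fin (C.m + 1) → Form n} {x : Fin (n + 1) → M} {N r : ℕ} {H : Subgroup Γ}

variable [Finite Γ]

/-- **The main theorem for arrangements.** -/
theorem arr_general (hnn : 1 ≤ n) (hn : Algebra.trdeg ℂ M = n) (hS : ASys C ℓ x N r H)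
    (hℓ : ∀ i, ℓ i ≠ 0) (hr : ¬ Reducible ℓ) (hx0 : x 0 ≠ 0)
    (hbas : IsTranscendenceBasis ℂ (fun j : Fin n => x j.succ / x 0)) :
    GeneralType ℂ (fixedField Γ) n := by
  classical
  obtain ⟨p, hp0, hp⟩ := weights hnn hℓ hr
  obtain ⟨t, ht⟩ : ∃ t : ℕ, t = n + 2 := ⟨_, rfl⟩
  obtain ⟨W, hW⟩ : ∃ W : ℕ, W = t * ∑ B, p B := ⟨_, rfl⟩
  have hp1 : 1 ≤ ∑ B, p B := hp0
  have hWn : n + 2 ≤ W := by
    rw [hW, ht]
    exact Nat.le_mul_of_pos_right _ hp1
  set κ := 2 * W with hκ
  -- nonvanishing
  have hPsi0 : C.Psi ^ κ ≠ 0 := by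
    apply pow_ne_zero
    unfold CC.Psi
    rw [Finset.prod_ne_zero_iff]
    intro τ hτ h0
    apply hS.hYm τ hτ
    have h1 := sub_eq_zero.1 h0
    rw [hS.hb, map_one, mul_one, mul_one] at h1
    exact h1.symm
  let ω : Fin (C.m + 1) → (Fin n → Derivation ℂ M M) → M := fun c D' =>
    pf ℓ x p t D' * (C.Psi ^ κ * C.U c)
  have hω : ∀ c, IsPluri W (ω c) := by
    intro c A D
    change pf ℓ x p t _ * _ = _ * (pf ℓ x p t _ * _)
    rw [pf_pluri x p t A D, hW]
    ring
  have hωne : ∀ D' : Fin n → Derivation ℂ M M, LinearIndependent M D' → ω C.b D' ≠ 0 := by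
    intro D hD
    refine mul_ne_zero ?_ (mul_ne_zero hPsi0 (hS.hU _))
    unfold pf
    refine div_ne_zero (pow_ne_zero _ ?_) (den_ne hS.hx p t)
    rw [Pool.Agent.W930.CG.bw_eq bwa D x hx0]
    refine mul_ne_zero (pow_ne_zero _ hx0) fun h2 => ?_
    obtain ⟨z, hz0, hz⟩ := Matrix.exists_vecMul_eq_zero_iff.2 h2
    apply hz0
    have h3 : ∑ i, z i • D i = 0 := by
      apply der_ext _ hbas
      intro l
      rw [Pool.Agent.W357.PG.sum_apply']
      exact congrFun hz l
    funext i
    exact Fintype.linearIndependent_iff.1 hD z h3 i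
  -- the ratios
  have halg : Algebra.IsAlgebraic (IntermediateField.adjoin ℂ (Set.range C.U)) M := by
    have h1 : Algebra.IsAlgebraic
        (IntermediateField.adjoin ℂ (Set.range fun j : Fin n => x j.succ / x 0)) M :=
      hbas.isAlgebraic_field
    have h2 : IntermediateField.adjoin ℂ (Set.range fun j : Fin n => x j.succ / x 0) ≤
        IntermediateField.adjoin ℂ (Set.range C.U) := by
      rw [IntermediateField.adjoin_le_iff]
      rintro _ ⟨i, rfl⟩
      set lam := (lf (ℓ C.b) x)⁻¹ with hlam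
      have hlam0 : lam ≠ 0 := inv_ne_zero (hS.hx _)
      have hmem : ∀ φ : Form n, lf φ (fun i => lam * x i) ∈
          IntermediateField.adjoin ℂ (Set.range C.U) := by
        refine lf_mem (S := (IntermediateField.adjoin ℂ (Set.range C.U) : Set M))
          (zero_mem _) (fun a ha b hb => add_mem ha hb)
          (fun c a ha => mul_mem (IntermediateField.algebraMap_mem _ _) ha) hS.hspan ?_
        intro j
        rw [lf_mul, hS.hpow j, hlam, ← mul_assoc, inv_mul_cancel₀ (hS.hx _), one_mul]
        exact pow_mem (IntermediateField.subset_adjoin ℂ (Set.range C.U) ⟨j, rfl⟩) N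
      have hxm : ∀ i, lam * x i ∈ IntermediateField.adjoin ℂ (Set.range C.U) := by
        intro i
        have h1 := hmem (LinearMap.proj i)
        rwa [lf_proj] at h1
      have h3 : x i.succ / x 0 = (lam * x i.succ) / (lam * x 0) :=
        (mul_div_mul_left _ _ hlam0).symm
      change x i.succ / x 0 ∈ _
      rw [h3]
      exact div_mem (hxm _) (hxm _)
    exact Pool.Agent.W602.GT.alg_mono h2 h1
  have halg' := Pool.Agent.W602.GT.alg_adjoin halg
  obtain ⟨S, hSs, hSb⟩ := exists_isTranscendenceBasis_subset (R := ℂ) (A := M) (Set.range C.U)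
  have hcard := hSb.cardinalMk_eq_trdeg
  rw [hn] at hcard
  obtain ⟨φ⟩ : Nonempty (Fin n ≃ S) := by
    rw [← Cardinal.eq, Cardinal.mk_fin]
    exact hcard.symm
  let u : Fin n → M := fun i => (φ i : M)
  have hub : IsTranscendenceBasis ℂ u := hSb.comp_equiv φ
  have huq : ∀ i, ∃ q, C.U q = u i := fun i => hSs (φ i).2
  choose q hq using huq
  have hcc : ∀ i D', ω (q i) D' = ω C.b D' * u i := by
    intro i D
    change pf ℓ x p t D * (C.Psi ^ κ * C.U (q i)) = pf ℓ x p t D * (C.Psi ^ κ * C.U C.b) * u i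
    rw [hq i, hS.hb]
    ring
  refine general_of_forms (Γ := Γ) hn (by omega : 0 < W) ω hω C.b hωne u hub q hcc
    (fun w => (κ : ℕ) * C.BB w) (fun w => ?_) fun v => ?_
  · have hft : Fintype Γ := Fintype.ofFinite Γ
    rw [finsum_eq_sum_of_fintype]
    have h1 := sum_BB C w
    rw [finsum_eq_sum_of_fintype] at h1
    rw [← Finset.mul_sum, h1, mul_zero]
  · obtain ⟨w, e, I, hwv, hcard, hI⟩ := exists_inertia Γ v
    refine ⟨w, e, hwv, fun g c D D' hDD hD => ?_⟩
    refine arr_local (I := I.map (MulAut.conj g⁻¹).toMonoidHom) hn hS p hp hW hWn (over_comp hwv g)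
      ?_ ?_ hDD hD c
    · rw [Subgroup.card_map_of_injective (MulAut.conj g⁻¹).injective]
      exact hcard
    · rintro _ ⟨h, hh, rfl⟩
      exact inert_comp (hI h hh) g

end gen

section

variable {M F K : Type} [Field M] [Field F] [Field K]
  [Algebra ℂ M] [Algebra ℂ F] [Algebra ℂ K] [Algebra F K] [Algebra F M] [Algebra K M]
  [IsScalarTower ℂ F K] [IsScalarTower ℂ F M] [IsScalarTower ℂ K M] [IsScalarTower F K M]

theorem lf_map {n : ℕ} (φ : Form n) (x : Fin (n + 1) → K) :
    lf φ (fun i => algebraMap K M (x i)) = algebraMap K M (lf φ x) := by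
  unfold Pool.Agent.W602.Cov.G.lf
  rw [map_sum]
  refine Finset.sum_congr rfl fun i _ => ?_
  rw [map_mul, ← IsScalarTower.algebraMap_apply ℂ K M]

/-- **The theorem on subfields of a cover over an arrangement**, when a Galois closure is given. -/
theorem arr_galois [FiniteDimensional F M] [IsGalois F M] [FiniteDimensional F K]
    {q N n r : ℕ} (hnn : 1 ≤ n) (hr : Module.finrank F K ≤ r) {ℓ : Fin q → Form n}
    (hℓ : ∀ i, ℓ i ≠ 0) (hred : ¬ Reducible ℓ) {x : Fin (n + 1) → K} (hx0 : x 0 ≠ 0)
    (hbas : IsTranscendenceBasis ℂ (fun j : Fin n => x j.succ / x 0))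
    (hroots : ∀ i j, ∃ z : K, lf (ℓ i) x = lf (ℓ j) x * z ^ N)
    (hN : 5 * (n + 2) * r < N + 4 * (n + 2)) : GeneralType ℂ F n := by
  classical
  have hspan := Pool.Agent.W392.CG.span_top hnn ℓ hred
  obtain ⟨B0⟩ := exists_bases hspan
  obtain ⟨m, rfl⟩ : ∃ m, q = m + 1 := by
    have := (B0.1 0).pos
    exact ⟨q - 1, by omega⟩
  have hlx : ∀ i, lf (ℓ i) x ≠ 0 := fun i => lf_ne hx0 hbas.1 (hℓ i)
  have hr1 : 1 ≤ r := (Nat.one_le_iff_ne_zero.2 Module.finrank_pos.ne').trans hr
  have hN0 : N ≠ 0 := by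
    rintro rfl
    have h3 : 5 * (n + 2) * 1 ≤ 5 * (n + 2) * r := Nat.mul_le_mul_left _ hr1
    omega
  have hroots' : ∀ j, ∃ z : K, lf (ℓ j) x = lf (ℓ 0) x * z ^ N ∧ (j = 0 → z = 1) := by
    intro j
    by_cases hj : j = 0
    · exact ⟨1, by rw [hj, one_pow, mul_one], fun _ => rfl⟩
    · obtain ⟨z, hz⟩ := hroots j 0
      exact ⟨z, hz, fun h => absurd h hj⟩
  choose U hUp hU1 using hroots'
  have hU0 : ∀ j, U j ≠ 0 := by
    intro j h0
    apply hlx j
    rw [hUp, h0, zero_pow hN0, mul_zero]
  have hfin : Finite (fixg ℂ M F) := fixg_finite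
  have halg : Algebra.IsAlgebraic K M := by
    have : Algebra.IsAlgebraic F M := inferInstance
    exact Algebra.IsAlgebraic.tower_top (K := F) K
  have hbas' := hbas.algebraMap_comp (A := M)
  have hMn : Algebra.trdeg ℂ M = n := by
    have := hbas'.cardinalMk_eq_trdeg
    rw [← this]
    simp
  obtain ⟨e⟩ := exists_equiv (k := ℂ) (M := M) (F := F)
  refine general_of_equiv e ?_
  set H := fixK ℂ M F K with hHdef
  have hHr : H.index ≤ r := index_le.trans hr
  have hinj := (algebraMap K M).injective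
  obtain ⟨γ, hγ⟩ := exists_generic (Γ := fixg ℂ M F) (fun j => algebraMap K M (U j))
  have hHfix : ∀ h ∈ H, ∀ x : K, (h : M ≃ₐ[ℂ] M) (algebraMap K M x) = algebraMap K M x :=
    fun h hh x => hh x
  obtain ⟨z, hz⟩ : ∃ z : M, z = ∑ j, γ j • algebraMap K M (U j) := ⟨_, rfl⟩
  have hzH : ∀ h ∈ H, (h : M ≃ₐ[ℂ] M) z = z := by
    intro h hh
    rw [hz, map_sum]
    refine Finset.sum_congr rfl fun j _ => ?_
    rw [map_smul, hHfix h hh]
  obtain ⟨Y, hYc, hYm, hY⟩ := exists_rep z H hzH
  let C : CC (fixg ℂ M F) :=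
    { m := m, U := fun j => algebraMap K M (U j), c := fun _ => 1, d := N, b := 0, γ := γ,
      Y := Y }
  have hCV : C.V = z := hz.symm
  have hS : ASys C ℓ (fun i => algebraMap K M (x i)) N r H :=
    { hspan := hspan
      hx := fun i => by
        rw [lf_map, Ne, map_eq_zero]
        exact hlx i
      hU := fun j => by
        change algebraMap K M (U j) ≠ 0
        rw [Ne, map_eq_zero]
        exact hU0 j
      hb := by
        change algebraMap K M (U 0) = 1
        rw [hU1 0 rfl, map_one]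
      hpow := fun j => by
        change lf (ℓ j) _ = lf (ℓ 0) _ * (algebraMap K M (U j)) ^ N
        rw [lf_map, lf_map, hUp, map_mul, map_pow]
      hgen := fun g hg j => by
        rw [hCV, hz] at hg
        exact hγ g hg j
      hH := fun j h hh => hHfix h hh _
      hr := hHr
      hr1 := hr1
      hYc := hYc.trans hHr
      hY := fun g hg => by
        rw [hCV] at hg ⊢
        exact hY g hg
      hYm := fun τ hτ => by
        rw [hCV]
        exact hYm τ hτ
      hN := hN }
  refine arr_general hnn hMn hS hℓ hred ?_ ?_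
  · rw [Ne, map_eq_zero]
    exact hx0
  · convert hbas' using 1
    funext i
    simp only [Function.comp, map_div₀]

end

/-- **The theorem on subfields of a cover over an arrangement.** -/
theorem arr_below {F K : Type} [Field F] [Field K]
    [Algebra ℂ F] [Algebra ℂ K] [Algebra F K] [IsScalarTower ℂ F K] [FiniteDimensional F K]
    {q N n r : ℕ} (hnn : 1 ≤ n) (hr : Module.finrank F K ≤ r) {ℓ : Fin q → Form n}
    (hℓ : ∀ i, ℓ i ≠ 0) (hred : ¬ Reducible ℓ) {x : Fin (n + 1) → K} (hx0 : x 0 ≠ 0)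
    (hbas : IsTranscendenceBasis ℂ (fun j : Fin n => x j.succ / x 0))
    (hroots : ∀ i j, ∃ z : K, lf (ℓ i) x = lf (ℓ j) x * z ^ N)
    (hN : 5 * (n + 2) * r < N + 4 * (n + 2)) : GeneralType ℂ F n := by
  have hF : CharZero F := charZero_of_injective_algebraMap (algebraMap ℂ F).injective
  let L := AlgebraicClosure K
  have h1 : IsScalarTower F K L := inferInstance
  have h2 : IsScalarTower ℂ K L := inferInstance
  have h3 : IsScalarTower ℂ F L := IsScalarTower.of_algebraMap_eq fun x => by
    rw [IsScalarTower.algebraMap_apply ℂ K L, IsScalarTower.algebraMap_apply F K L,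
      IsScalarTower.algebraMap_apply ℂ F K]
  have hLF : Algebra.IsAlgebraic F L := by
    have : Algebra.IsAlgebraic F K := inferInstance
    have : Algebra.IsAlgebraic K L := inferInstance
    exact Algebra.IsAlgebraic.trans F K L
  have hLn : Normal F L := by
    have : IsAlgClosure F L := ⟨inferInstance, hLF⟩
    exact IsAlgClosure.normal F L
  let M := normalClosure F K L
  have hMn : Normal F M := inferInstance
  have hMf : FiniteDimensional F M := inferInstance
  have hMg : IsGalois F M := ⟨⟩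
  have h4 : IsScalarTower ℂ F M := inferInstance
  have h5 : IsScalarTower F K M := inferInstance
  have h6 : IsScalarTower ℂ K M := IsScalarTower.of_algebraMap_eq fun x => by
    rw [IsScalarTower.algebraMap_apply ℂ F M, IsScalarTower.algebraMap_apply F K M,
      IsScalarTower.algebraMap_apply ℂ F K]
  exact arr_galois (M := M) hnn hr hℓ hred hx0 hbas hroots hN

end Pool.Agent.TH466.QG
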