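import Pool.Agent.TH466.QG.Gal
import Pool.Agent.W602.GT.Uni

/-!
Systems of circuits over subvarieties which are not covered by rational curves.
-/

set_option autoImplicit false
set_option linter.overlappingInstances false
set_option linter.unusedSectionVars false

open FF IntermediateField Pool.Agent.W603.LV

namespace Pool.Agent.TH466.QG

open Pool.Agent.W602.GT (GeneralType tn val lin coords HighPowers IsPowSum IsPowSparse wc IsForm
  val_polyK)

/-- systems of circuits can be pulled back to algebraic extensions -/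
theorem HasCirc.up {k K K' : Type} [Field k] [Field K] [Field K'] [Algebra k K] [Algebra k K']
    [Algebra K K'] [IsScalarTower k K K'] [Algebra.IsAlgebraic K K'] {s N n : ℕ}
    (h : HasCirc k s N n K) : HasCirc k s N n K' := by
  obtain ⟨m, d, U, c, a, b, hms, hNd, hU, hc, hsum, hlin, hbas⟩ := h
  have hT : ∀ i j, c i j • (algebraMap K K' (U i j)) ^ d i =
      algebraMap K K' (c i j • U i j ^ d i) := by
    intro i j
    rw [Algebra.smul_def, Algebra.smul_def, map_mul, map_pow,
      IsScalarTower.algebraMap_apply k K K']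
  refine ⟨m, d, fun i j => algebraMap K K' (U i j), c, a, b, hms, hNd, fun i j => ?_, hc,
    fun i => ?_, fun i => ?_, ?_⟩
  · rw [Ne, map_eq_zero]
    exact hU i j
  · have h1 : ∑ j, c i j • (algebraMap K K' (U i j)) ^ d i =
        algebraMap K K' (∑ j, c i j • U i j ^ d i) := by
      rw [map_sum]
      exact Finset.sum_congr rfl fun j _ => hT i j
    rw [h1, hsum, map_zero]
  · have h1 := (hlin i).map' (IsScalarTower.toAlgHom k K K').toLinearMap
      (LinearMap.ker_eq_bot.2 (algebraMap K K').injective)
    have h2 : (fun l => c i ((Fin.last (m i)).succAbove l) •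
        (algebraMap K K' (U i ((Fin.last (m i)).succAbove l))) ^ d i) =
        (IsScalarTower.toAlgHom k K K').toLinearMap ∘ fun l =>
          c i ((Fin.last (m i)).succAbove l) • U i ((Fin.last (m i)).succAbove l) ^ d i :=
      funext fun l => hT i _
    rw [h2]
    exact h1
  · have h1 := hbas.algebraMap_comp (A := K')
    convert h1 using 1
    funext i
    simp only [Function.comp, map_div₀, hT]

/-- Through the point `y` over `K` of the variety `F = 0` passes a rational curve over `K` which
lies in `F = 0`: polynomials `P 0, ..., P n` with `P(1) = y`, not all proportional to `y`, with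
`F(P) = 0`. -/
def RatCurve {k : Type} [Field k] {n : ℕ} {ι : Type} (F : ι → MvPolynomial (Fin (n + 1)) k)
    {K : Type} [Field K] [Algebra k K] (y : Fin (n + 1) → K) : Prop :=
  ∃ P : Fin (n + 1) → Polynomial K, (∀ i, (P i).eval 1 = y i) ∧
    (∃ i j, P i * Polynomial.C (y j) ≠ P j * Polynomial.C (y i)) ∧
    ∀ e, MvPolynomial.aeval P (F e) = 0

section

variable {k : Type} [Field k] [CharZero k] [IsAlgClosed k] {n : ℕ} {ι : Type}
  {F : ι → MvPolynomial (Fin (n + 1)) k} {K : Type} [Field K] [Algebra k K]
  {y : Fin (n + 1) → K}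

theorem aeval_zero_of_eval {P : Fin (n + 1) → Polynomial K} {G : MvPolynomial (Fin (n + 1)) k}
    (h : ∀ t : K, t ≠ 0 → val (fun i => (P i).eval t) G = 0) : MvPolynomial.aeval P G = 0 := by
  have hK : CharZero K := charZero_of_injective_algebraMap (algebraMap k K).injective
  have h1 : ∀ t : K, (MvPolynomial.aeval P G).eval t = val (fun i => (P i).eval t) G := by
    intro t
    unfold Pool.Agent.W602.GT.val
    have h1 : ((Polynomial.aeval t : Polynomial K →ₐ[K] K).restrictScalars k).comp
        (MvPolynomial.aeval P) = MvPolynomial.aeval (fun i => (P i).eval t) := by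
      apply MvPolynomial.algHom_ext
      intro i
      simp
    rw [← h1]
    simp
  have h2 : Polynomial.X * MvPolynomial.aeval P G = 0 := by
    apply Polynomial.funext
    intro t
    rw [Polynomial.eval_mul, Polynomial.eval_X, Polynomial.eval_zero]
    by_cases ht : t = 0
    · rw [ht, zero_mul]
    · rw [h1, h t ht, mul_zero]
  exact (mul_eq_zero.1 h2).resolve_left Polynomial.X_ne_zero

theorem lin_der (D : Derivation k K K) (l : Fin (n + 1) → k) (c : K) :
    lin l (fun j => c * D (y j / c)) = c * D (lin l y / c) := by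
  unfold lin
  rw [Finset.sum_div, map_sum, Finset.mul_sum]
  refine Finset.sum_congr rfl fun j _ => ?_
  rw [mul_div_assoc, Derivation.leibniz, Derivation.map_algebraMap, smul_zero, add_zero,
    smul_eq_mul]
  ring

/-- sums of powers of linear forms: lines -/
theorem circ_or_curve_waring {s N : ℕ} (hF : ∀ e, IsPowSum s N (F e)) (hN1 : 1 ≤ N) {w : ℕ}
    (htr : Algebra.trdeg k K = w) (hy : y ≠ 0) (hgen : Algebra.IsAlgebraic (coords k y) K)
    (hyF : ∀ e, val y (F e) = 0) : HasCirc k s N w K ∨ RatCurve F y := by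
  rcases waring_circ hF hN1 htr hyF with h | ⟨D, Z, Q, hD, hZ, hQ, hx⟩
  · exact Or.inl h
  right
  obtain ⟨i0, hi0'⟩ := Function.ne_iff.1 hy
  have hi0 : y i0 ≠ 0 := hi0'
  let v : Fin (n + 1) → K := fun j => y i0 * D (y j / y i0)
  have hv0 : v i0 = 0 := by
    change y i0 * D (y i0 / y i0) = 0
    rw [div_self hi0, Derivation.map_one_eq_zero, mul_zero]
  obtain ⟨j0, hj0⟩ : ∃ j, v j ≠ 0 := by
    by_contra hcon
    push Not at hcon
    apply hD
    have h0 : ∀ j, D (y j / y i0) = 0 := fun j =>
      (mul_eq_zero.1 (hcon j)).resolve_left hi0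
    refine Pool.Agent.W602.GT.der_eq_zero D {z | ∃ i j, y j ≠ 0 ∧ z = y i / y j} ?_ ?_
    · exact hgen
    · rintro _ ⟨i, j, hj, rfl⟩
      have h1 : y i / y j = (y i / y i0) / (y j / y i0) := by
        field_simp
      rw [h1, div_eq_mul_inv, D.leibniz, D.leibniz_inv, h0, h0]
      simp
  have hzZ : ∀ l ∈ Z, lin l v = 0 := by
    intro l hl
    rw [lin_der, hZ l hl, zero_div, map_zero, mul_zero]
  have hzQ : ∀ p ∈ Q, lin p.1 v = lin p.1 y / lin p.2 y * lin p.2 v := by
    intro p hp
    obtain ⟨h1, h2, h3⟩ := hQ p hp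
    rw [lin_der, lin_der]
    have h4 : lin p.1 y / y i0 = lin p.1 y / lin p.2 y * (lin p.2 y / y i0) := by
      field_simp
    rw [h4, D.leibniz, h3, smul_zero, add_zero, smul_eq_mul]
    ring
  let P : Fin (n + 1) → Polynomial K := fun l =>
    Polynomial.C (y l) + Polynomial.C (v l) * (Polynomial.X - 1)
  have hPe : ∀ t : K, (fun l => (P l).eval t) = fun l => 1 * y l + (t - 1) * v l := by
    intro t
    funext l
    simp only [P, Polynomial.eval_add, Polynomial.eval_mul, Polynomial.eval_C, Polynomial.eval_X,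
      Polynomial.eval_sub, Polynomial.eval_one]
    ring
  refine ⟨P, fun i => ?_, ⟨j0, i0, fun h => ?_⟩, fun e => aeval_zero_of_eval fun t _ => ?_⟩
  · have := congrFun (hPe 1) i
    simp only [sub_self, zero_mul, one_mul, add_zero] at this
    exact this
  · have h1 := congrArg (fun p : Polynomial K => p.coeff 1) h
    simp only [P, mul_sub, mul_one, Polynomial.coeff_mul_C, Polynomial.coeff_add,
      Polynomial.coeff_sub, Polynomial.coeff_C_mul, Polynomial.coeff_X_one,
      Polynomial.coeff_C_succ] at h1
    rw [hv0] at h1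
    simp only [zero_add, sub_zero, zero_mul] at h1
    rcases mul_eq_zero.1 h1 with h2 | h2
    · exact hj0 h2
    · exact hi0 h2
  · rw [hPe]
    refine hx K _ (fun l hl => ?_) (fun p hp => ?_) e
    · rw [Pool.Agent.W602.GT.lin_add_smul, hZ l hl, hzZ l hl, mul_zero, mul_zero, add_zero]
    · rw [Pool.Agent.W602.GT.lin_add_smul, Pool.Agent.W602.GT.lin_add_smul, hzQ p hp]
      have h2 := (hQ p hp).2.1
      simp only [Algebra.algebraMap_self, RingHom.id_apply]
      field_simp

/-- sums of few high powers of monomials: monomial curves -/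
theorem circ_or_curve_sparse {s N : ℕ} (hF : ∀ e, IsPowSparse ∅ s N (F e)) {w : ℕ}
    (htr : Algebra.trdeg k K = w) (hgen : Algebra.IsAlgebraic (coords k y) K)
    (hyF : ∀ e, val y (F e) = 0) : HasCirc k s N w K ∨ RatCurve F y := by
  rcases sparse_circ hF htr hgen hyF with h | ⟨b, i, i', hi, hi', hb, hwc⟩
  · exact Or.inl h
  right
  obtain ⟨B, hB⟩ : ∃ B : ℤ, ∀ j, 0 ≤ b j + B := by
    refine ⟨∑ j, |b j|, fun j => ?_⟩
    have h1 := Finset.single_le_sum (f := fun j => |b j|) (fun _ _ => abs_nonneg _)
      (Finset.mem_univ j)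
    have h2 := neg_abs_le (b j)
    have h3 : |b j| ≤ ∑ j, |b j| := h1
    linarith
  let β : Fin (n + 1) → ℕ := fun j => (b j + B).toNat
  have hβ : ∀ j, (β j : ℤ) = b j + B := fun j => Int.toNat_of_nonneg (hB j)
  let P : Fin (n + 1) → Polynomial K := fun j => Polynomial.C (y j) * Polynomial.X ^ β j
  refine ⟨P, fun j => by simp [P], ⟨i, i', fun h => ?_⟩,
    fun e => aeval_zero_of_eval fun t ht => ?_⟩
  · have h1 : Polynomial.C (y i * y i') * Polynomial.X ^ β i =
        Polynomial.C (y i * y i') * Polynomial.X ^ β i' := by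
      rw [Polynomial.C_mul]
      simp only [P] at h
      linear_combination h
    have h2 : Polynomial.C (y i * y i') ≠ 0 := by
      rw [Ne, Polynomial.C_eq_zero]
      exact mul_ne_zero hi hi'
    have h3 := congrArg Polynomial.natDegree (mul_left_cancel₀ h2 h1)
    rw [Polynomial.natDegree_X_pow, Polynomial.natDegree_X_pow] at h3
    apply hb
    have h4 : (β i : ℤ) = β i' := by exact_mod_cast h3
    rw [hβ, hβ] at h4
    linarith
  · have h1 := Pool.Agent.W602.GT.val_orbit y b ht (F e) (hwc e)
    obtain ⟨dd, hdd⟩ := (hF e).1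
    have h2 : (fun j => (P j).eval t) = fun j => t ^ B * (t ^ b j * y j) := by
      funext j
      simp only [P, Polynomial.eval_mul, Polynomial.eval_C, Polynomial.eval_pow,
        Polynomial.eval_X]
      rw [← zpow_natCast, hβ, zpow_add₀ ht]
      ring
    rw [h2]
    have h3 : val (fun j => t ^ B * (t ^ b j * y j)) (F e) =
        (t ^ B) ^ dd * val (fun j => t ^ b j * y j) (F e) := by
      unfold Pool.Agent.W602.GT.val
      rw [MvPolynomial.aeval_def, MvPolynomial.aeval_def, MvPolynomial.eval₂_eq,
        MvPolynomial.eval₂_eq, Finset.mul_sum]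
      refine Finset.sum_congr rfl fun α hα => ?_
      have h4 : ∑ j ∈ α.support, α j = dd := by
        have h5 := hdd (MvPolynomial.mem_support_iff.1 hα)
        rw [Finsupp.weight_apply, Finsupp.sum] at h5
        simpa using h5
      simp only [mul_pow]
      rw [Finset.prod_mul_distrib, Finset.prod_pow_eq_pow_sum, h4]
      ring
    rw [h3, h1, mul_zero]

theorem circ_or_curve {s N : ℕ} (hF : HighPowers s N F) (hN1 : 1 ≤ N) {w : ℕ}
    (htr : Algebra.trdeg k K = w) (hy : y ≠ 0) (hgen : Algebra.IsAlgebraic (coords k y) K)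
    (hyF : ∀ e, val y (F e) = 0) : HasCirc k s N w K ∨ RatCurve F y := by
  rcases hF with h | h
  · exact circ_or_curve_waring h hN1 htr hy hgen hyF
  · exact circ_or_curve_sparse h htr hgen hyF

end

end Pool.Agent.TH466.QG
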