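import Pool.Agent.TH466.QG.Low
import Pool.Agent.TH466.QG.Sub

/-!
Varieties dominated by varieties which are given by sums of few high powers.
-/

set_option autoImplicit false
set_option linter.overlappingInstances false
set_option linter.unusedSectionVars false

open FF IntermediateField

namespace Pool.Agent.TH466.QG

open Pool.Agent.W602.GT (GeneralType Psef KodGe Ruled HighPowers SubVar IsComponent coords
  kod_of_general psef_of_kodGe not_psef_of tn essFinite)
open Pool.Agent.W619.PQ (IsUniruled)
open Pool.Agent.W619.TW (IsPsef NumNeg NumLe)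

theorem tn_eq (s : ℕ) : tn (s - 1) = (s - 1) * (s - 2) / 2 := by
  unfold tn
  rw [Fin.sum_univ_eq_sum_range (fun i => i), Finset.sum_range_id, Nat.sub_sub]

variable {k : Type} [Field k] [CharZero k] [IsAlgClosed k] {n : ℕ} {ι : Type}
  {F : ι → MvPolynomial (Fin (n + 1)) k}

/-- fields below an algebraic extension of a field with a system of circuits -/
theorem general_corr {K K' L : Type} [Field K] [Field K'] [Field L] [Algebra k K] [Algebra k K']
    [Algebra k L] [Algebra K K'] [Algebra L K'] [IsScalarTower k K K'] [IsScalarTower k L K']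
    [Algebra.IsAlgebraic K K'] [FiniteDimensional L K'] {s N w r : ℕ} (hw : 1 ≤ w)
    (hC : HasCirc k s N w K) (hr : Module.finrank L K' ≤ r)
    (hN : r * (w * ((s + 4) * ((s - 1) * (s - 2) / 2))) ≤ N) : GeneralType k L w := by
  have h1 : HasCirc k s N w K' := hC.up
  refine general_below hw hr h1 ?_
  rw [tn_eq]
  exact hN

/-- **Varieties with a generically finite map to a system of high powers.** -/
theorem curve_or_general {s N : ℕ} (hF : HighPowers s N F) (hN1 : 1 ≤ N) {K' L : Type} [Field K']
    [Field L] [Algebra k K'] [Algebra k L] [Algebra L K'] [IsScalarTower k L K']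
    [FiniteDimensional L K'] {w r : ℕ} (hw : 1 ≤ w) (hdim : Algebra.trdeg k K' = w)
    {y : Fin (n + 1) → K'} (hy : y ≠ 0) (hyF : ∀ e, Pool.Agent.W602.GT.val y (F e) = 0)
    (hgen : Algebra.IsAlgebraic (coords k y) K') (hr : Module.finrank L K' ≤ r)
    (hN : r * (w * ((s + 4) * ((s - 1) * (s - 2) / 2))) ≤ N) :
    RatCurve F y ∨ GeneralType k L w := by
  rcases circ_or_curve hF hN1 hdim hy hgen hyF with h | h
  · right
    refine general_below hw hr h ?_
    rw [tn_eq]
    exact hN
  · exact Or.inl h

/-- finite generation of the function field of a component -/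
theorem SubVar.ess {K : Type} [Field K] [Algebra k K] {w : ℕ} {y : Fin (n + 1) → K}
    (hy : SubVar F K w y) : Algebra.EssFiniteType k K := essFinite hy.gen

/-- varieties dominated by ruled varieties: the canonical bundle is not pseudo-effective -/
theorem neg_below {K L : Type} [Field K] [Field L] [Algebra k K] [Algebra k L] [Algebra L K]
    [IsScalarTower k L K] [FiniteDimensional L K] [hK : Algebra.EssFiniteType k K] {w : ℕ}
    (hdim : Algebra.trdeg k K = w) (hR : Ruled k K) :
    IsUniruled k L w ∧ ¬ Psef k L w (fun _ => False) ∧ NumNeg k L w (fun _ => False) := by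
  have hL : Algebra.EssFiniteType k L := ess_below (K := K)
  have hLdim : Algebra.trdeg k L = w := by
    rw [← hdim, ← trdeg_add_eq k L (A := K)]
    have h1 : Algebra.trdeg L K = 0 := by
      rw [trdeg_eq_zero_iff]
      infer_instance
    rw [h1, add_zero]
  have h1 : IsUniruled k L w := uniruled_below hdim hR
  obtain ⟨h2, h3⟩ := Pool.Agent.W619.Y.uniruled_neg w hLdim h1
  exact ⟨h1, fun h => h2 ((psef_iff w).1 h), h3⟩

theorem not_ruled_of_general {K : Type} [Field K] [Algebra k K] {w : ℕ}
    (h : GeneralType k K w) : ¬ Ruled k K := by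
  rintro ⟨C, σ, h1, h2⟩
  exact not_psef_of h.1 C h1 h2 (psef_of_kodGe (kod_of_general h))

/-- **The dichotomy for components of systems of high powers.** -/
theorem component_dichotomy {s N : ℕ} (hF : HighPowers s N F) (hN1 : 1 ≤ N) {K : Type} [Field K]
    [Algebra k K] {w : ℕ} (hw : 1 ≤ w) {y : Fin (n + 1) → K} (hy : SubVar F K w y)
    (hcomp : IsComponent F y) {r : ℕ} (hr1 : 1 ≤ r)
    (hN : r * (w * ((s + 4) * ((s - 1) * (s - 2) / 2))) ≤ N) :
    (¬ Ruled k K ∧ ∀ (K' L : Type) [Field K'] [Field L] [Algebra k K'] [Algebra k L]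
        [Algebra K K'] [Algebra L K'] [IsScalarTower k K K'] [IsScalarTower k L K']
        [Algebra.IsAlgebraic K K'] [FiniteDimensional L K'], Module.finrank L K' ≤ r →
        GeneralType k L w) ∨
    (Ruled k K ∧ ∀ (L : Type) [Field L] [Algebra k L] [Algebra L K] [IsScalarTower k L K]
        [FiniteDimensional L K],
        IsUniruled k L w ∧ ¬ Psef k L w (fun _ => False) ∧ NumNeg k L w (fun _ => False)) := by
  rcases circ_or_ruled hF hN1 hy hcomp with h | h
  · left
    refine ⟨?_, ?_⟩
    · have h1 : GeneralType k K w := by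
        refine general_corr (K' := K) hw h (r := 1) (by simp) (le_trans ?_ hN)
        exact Nat.mul_le_mul_right _ hr1
      exact not_ruled_of_general h1
    · intro K' L _ _ _ _ _ _ _ _ _ _ hr
      exact general_corr hw h hr hN
  · right
    have hK : Algebra.EssFiniteType k K := SubVar.ess hy
    obtain ⟨C, σ, h1, h2⟩ := h
    exact ⟨⟨C, σ, h1, h2⟩, fun L _ _ _ _ _ => neg_below hy.dim ⟨C, σ, h1, h2⟩⟩

end Pool.Agent.TH466.QG
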