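import Pool.Agent.TH466.QG.AGen
import Pool.Agent.TH466.QG.Top

/-!
Varieties dominated by covers of projective space over an arrangement with high branching.
-/

set_option autoImplicit false
set_option linter.overlappingInstances false
set_option linter.unusedSectionVars false

open FF IntermediateField

namespace Pool.Agent.TH466.QG

open Pool.Agent.W602.GT (GeneralType Psef KodGe Ruled kod_of_general psef_of_kodGe)
open Pool.Agent.W619.PQ (IsUniruled)
open Pool.Agent.W602.Cov (Form Reducible Cover)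
open Pool.Agent.W602.Cov.G (lf h_orb)

theorem arr_corr {K K' L : Type} [Field K] [Field K'] [Field L] [Algebra ℂ K] [Algebra ℂ K']
    [Algebra ℂ L] [Algebra K K'] [Algebra L K'] [IsScalarTower ℂ K K'] [IsScalarTower ℂ L K']
    [Algebra.IsAlgebraic K K'] [FiniteDimensional L K'] {q N n r : ℕ} (hnn : 1 ≤ n)
    (hr : Module.finrank L K' ≤ r) {ℓ : Fin q → Form n} (hℓ : ∀ i, ℓ i ≠ 0)
    (hred : ¬ Reducible ℓ) {x : Fin (n + 1) → K} (hx0 : x 0 ≠ 0)
    (hbas : IsTranscendenceBasis ℂ (fun j : Fin n => x j.succ / x 0))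
    (hroots : ∀ i j, ∃ z : K, lf (ℓ i) x = lf (ℓ j) x * z ^ N)
    (hN : 5 * (n + 2) * r < N + 4 * (n + 2)) : GeneralType ℂ L n := by
  refine arr_below (K := K') hnn hr hℓ hred (x := fun i => algebraMap K K' (x i)) ?_ ?_ ?_ hN
  · rw [Ne, map_eq_zero]
    exact hx0
  · have h1 := hbas.algebraMap_comp (A := K')
    convert h1 using 1
    funext i
    simp only [Function.comp, map_div₀]
  · intro i j
    obtain ⟨z, hz⟩ := hroots i j
    exact ⟨algebraMap K K' z, by rw [lf_map, lf_map, hz, map_mul, map_pow]⟩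

/-- the function field of a cover is finitely generated -/
theorem cover_ess {n q q' : ℕ} {X : Cover n q q'} {K : Type} [Field K] [Algebra ℂ K]
    {x : Fin (n + 1) → K} {y : Fin q' → K} (hK : X.FunctionField K x y) :
    Algebra.EssFiniteType ℂ K := by
  classical
  rw [← IntermediateField.fg_top_iff]
  refine ⟨(Set.finite_range (Sum.elim x y)).toFinset, ?_⟩
  rw [Set.Finite.coe_toFinset, eq_top_iff]
  intro f _
  have h : ∀ G : Pool.Agent.W602.Cov.Cover.Poly n q',
      Pool.Agent.W602.Cov.Cover.evK x y G ∈ IntermediateField.adjoin ℂ (Set.range (Sum.elim x y)) := by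
    intro G
    unfold Pool.Agent.W602.Cov.Cover.evK
    have h1 : (MvPolynomial.aeval (Sum.elim x y)) G ∈ Algebra.adjoin ℂ (Set.range (Sum.elim x y)) := by
      rw [Algebra.adjoin_range_eq_range_aeval]
      exact ⟨G, rfl⟩
    exact IntermediateField.algebra_adjoin_le_adjoin _ _ h1
  obtain ⟨G, H, D, -, -, -, rfl⟩ := hK.gen f
  exact div_mem (h G) (h H)

theorem arr_tfae {n q q' N r : ℕ} (hnn : 1 ≤ n) (X : Cover n q q') (hF : X.Free) {K : Type}
    [Field K] [Algebra ℂ K] {x : Fin (n + 1) → K} {y : Fin q' → K} (hK : X.FunctionField K x y)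
    (hroots : ∀ i j, ∃ z : K, lf (X.ℓ i) x = lf (X.ℓ j) x * z ^ N)
    (hN : 5 * (n + 2) * r < N + 4 * (n + 2))
    {L : Type} [Field L] [Algebra ℂ L] [Algebra L K] [IsScalarTower ℂ L K] [FiniteDimensional L K]
    (hr : Module.finrank L K ≤ r) :
    [¬ KodGe ℂ L n (fun _ => False) 0, ¬ Psef ℂ L n (fun _ => False), IsUniruled ℂ L n,
      ¬ GeneralType ℂ L n, Reducible X.ℓ].TFAE := by
  obtain ⟨h1, h2, h3⟩ := Pool.Agent.TH152.AC.coords X hK
  have htr : Algebra.trdeg ℂ K = n := Pool.Agent.W602.GT.trdeg_of_basis h3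
  have hLtr : Algebra.trdeg ℂ L = n := by
    rw [← htr, ← trdeg_add_eq ℂ L (A := K)]
    have h1 : Algebra.trdeg L K = 0 := by
      rw [trdeg_eq_zero_iff]
      infer_instance
    rw [h1, add_zero]
  have hess : Algebra.EssFiniteType ℂ K := cover_ess hK
  have hessL : Algebra.EssFiniteType ℂ L := ess_below (K := K)
  have hneg : Reducible X.ℓ → IsUniruled ℂ L n := by
    intro hred
    exact (neg_below htr (Pool.Agent.TH152.AC.ruled X hF hK hred)).1
  have hgen : ¬ Reducible X.ℓ → GeneralType ℂ L n := fun hred =>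
    arr_below (K := K) hnn hr X.hℓ hred h2 h3 hroots hN
  tfae_have 5 → 3 := hneg
  tfae_have 3 → 2 := fun h h' => (Pool.Agent.W619.Y.uniruled_neg n hLtr h).1 ((psef_iff n).1 h')
  tfae_have 2 → 1 := fun hp hk => hp (psef_of_kodGe hk)
  tfae_have 1 → 4 := fun hk hg => hk (kod_of_general hg)
  tfae_have 4 → 5 := fun h => by
    by_contra hred
    exact h (hgen hred)
  tfae_finish

/-- the Kummer cover -/
theorem kummer_roots {n q N : ℕ} (X : Cover n q q) (hm : ∀ k, X.m k = N)
    (he : ∀ k i, X.e k i = if i = k then 1 else 0) {K : Type} [Field K] [Algebra ℂ K]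
    {x : Fin (n + 1) → K} {y : Fin q → K} (hK : X.FunctionField K x y) (i j : Fin q) :
    ∃ z : K, lf (X.ℓ i) x = lf (X.ℓ j) x * z ^ N := by
  have h1 : ∀ k, y k ^ N = lf (X.ℓ k) x := by
    intro k
    have h2 := Pool.Agent.W337.CG.main n q q X K x y hK k
    rw [hm] at h2
    rw [h2, Finset.prod_eq_single k]
    · rw [he, if_pos rfl, pow_one]
    · intro i _ hi
      rw [he, if_neg hi, pow_zero]
    · intro h
      exact absurd (Finset.mem_univ _) h
  have hy : ∀ k, y k ≠ 0 := (Pool.Agent.W352.CG.TRA.main n q q X K x y hK).2.1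
  refine ⟨y i / y j, ?_⟩
  rw [← h1, ← h1, div_pow, mul_div_cancel₀ _ (pow_ne_zero _ (hy j))]

end Pool.Agent.TH466.QG
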