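import Pool.Agent.TH466.QG.Low
import Pool.Agent.TH152.AC.Fin

/-!
Varieties dominated by covers of projective space over an arrangement, with high branching.
-/

set_option autoImplicit false
set_option linter.overlappingInstances false
set_option linter.unusedSectionVars false

open FF IntermediateField Pool.Agent.W603.LV

namespace Pool.Agent.TH466.QG

open Pool.Agent.W619.PQ (Inert exists_inertia)
open Pool.Agent.W602.GT (IsPluri DerReg DerLog ge_div GeneralType der_ext ord_prod')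
open Pool.Agent.W602.Cov (Form Reducible)
open Pool.Agent.W602.Cov.G (lf bw)
open Pool.Agent.W168.CG.PGR (lf_add lf_smul lf_zero lf_mul lf_proj)
open Pool.Agent.TH152.AC (Bases Proper cnt rk pf pf_ord' pf_pluri pf_scale den den_ne ord_den log0
  bwa exists_bases weights)

variable {M : Type} [Field M] [Algebra ℂ M] {Γ : Subgroup (M ≃ₐ[ℂ] M)} {n : ℕ}

/-- a cover over an arrangement, with roots of the ratios of the linear forms -/
structure ASys (C : CC Γ) (ℓ : Fin (C.m + 1) → Form n) (x : Fin (n + 1) → M) (N r : ℕ)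
    (H : Subgroup Γ) : Prop where
  hspan : Submodule.span ℂ (Set.range ℓ) = ⊤
  hx : ∀ i, lf (ℓ i) x ≠ 0
  hU : ∀ j, C.U j ≠ 0
  hb : C.U C.b = 1
  hpow : ∀ j, lf (ℓ j) x = lf (ℓ C.b) x * C.U j ^ N
  hgen : ∀ g : Γ, (g : M ≃ₐ[ℂ] M) C.V = C.V → ∀ j, (g : M ≃ₐ[ℂ] M) (C.U j) = C.U j
  hH : ∀ j, ∀ h ∈ H, (h : M ≃ₐ[ℂ] M) (C.U j) = C.U j
  hr : H.index ≤ r
  hr1 : 1 ≤ r
  hYc : C.Y.card + 1 ≤ r
  hY : ∀ g : Γ, (g : M ≃ₐ[ℂ] M) C.V ≠ C.V → ∃ τ ∈ C.Y, (τ : M ≃ₐ[ℂ] M) C.V =
    (g : M ≃ₐ[ℂ] M) C.V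
  hYm : ∀ τ ∈ C.Y, (τ : M ≃ₐ[ℂ] M) C.V ≠ C.V
  hN : 5 * (n + 2) * r < N + 4 * (n + 2)

variable {C : CC Γ} {ℓ : Fin (C.m + 1) → Form n} {x : Fin (n + 1) → M} {N r : ℕ} {H : Subgroup Γ}

/-- linear forms lie in a set which is closed under linear combinations -/
theorem lf_mem {S : Set M} (h0 : (0 : M) ∈ S) (hadd : ∀ a ∈ S, ∀ b ∈ S, a + b ∈ S)
    (hsmul : ∀ (c : ℂ), ∀ a ∈ S, algebraMap ℂ M c * a ∈ S) {q : ℕ} {ℓ : Fin q → Form n}
    {x : Fin (n + 1) → M} (hspan : Submodule.span ℂ (Set.range ℓ) = ⊤)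
    (h : ∀ i, lf (ℓ i) x ∈ S) (φ : Form n) : lf φ x ∈ S := by
  have hφ : φ ∈ Submodule.span ℂ (Set.range ℓ) := by rw [hspan]; trivial
  induction hφ using Submodule.span_induction with
  | mem φ hφ =>
    obtain ⟨i, rfl⟩ := hφ
    exact h i
  | zero => rw [lf_zero]; exact h0
  | add φ ψ _ _ h1 h2 => rw [lf_add]; exact hadd _ h1 _ h2
  | smul c φ _ h1 => rw [lf_smul]; exact hsmul _ _ h1

/-- the numerical part of the estimate -/
theorem arith {n N W r e f Y δ ν c1 : ℤ} (hn : 0 ≤ n) (hN : 0 < N) (hW : n + 2 ≤ W) (hr : 1 ≤ r)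
    (hf : 0 ≤ f) (he : e ≤ r * f) (hY : Y + 1 ≤ r) (hν : 0 ≤ ν) (hδ : N * f ≤ δ)
    (hνδ : N * ν ≤ δ) (h7 : W * δ ≤ (n + 2) * c1) (hb : 5 * (n + 2) * r + 1 ≤ N + 4 * (n + 2)) :
    W * e + (4 * W * Y + 1) * ν ≤ c1 := by
  have hn2 : 0 < n + 2 := by linarith
  have hW0 : 0 < W := lt_of_lt_of_le hn2 hW
  have hδ0 : 0 ≤ δ := le_trans (mul_nonneg hN.le hf) hδ
  have key : (n + 2) * N * (W * e + (4 * W * Y + 1) * ν) ≤ (n + 2) * N * c1 := by
    have k1 : N * (W * δ) ≤ N * ((n + 2) * c1) := mul_le_mul_of_nonneg_left h7 hN.le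
    have k2 : (4 * W * Y + 1) * (N * ν) ≤ (4 * W * (r - 1) + 1) * δ := by
      have a1 : (4 * W * Y + 1) * (N * ν) ≤ (4 * W * (r - 1) + 1) * (N * ν) := by
        refine mul_le_mul_of_nonneg_right ?_ (mul_nonneg hN.le hν)
        have : 4 * W * Y ≤ 4 * W * (r - 1) := mul_le_mul_of_nonneg_left (by linarith) (by linarith)
        linarith
      refine a1.trans (mul_le_mul_of_nonneg_left hνδ ?_)
      have : 0 ≤ 4 * W * (r - 1) := mul_nonneg (by linarith) (by linarith)
      linarith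
    have k3 : N * e ≤ r * δ := by
      calc N * e ≤ N * (r * f) := mul_le_mul_of_nonneg_left he hN.le
        _ = r * (N * f) := by ring
        _ ≤ r * δ := mul_le_mul_of_nonneg_left hδ (by linarith)
    have k4 : (n + 2) * (W * r + (4 * W * (r - 1) + 1)) ≤ N * W := by
      have k5 : W * (5 * (n + 2) * r + 1) ≤ W * (N + 4 * (n + 2)) :=
        mul_le_mul_of_nonneg_left hb hW0.le
      linarith
    have k6 : (n + 2) * (W * r + (4 * W * (r - 1) + 1)) * δ ≤ N * W * δ :=
      mul_le_mul_of_nonneg_right k4 hδ0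
    have k7 : (n + 2) * ((4 * W * Y + 1) * (N * ν)) ≤ (n + 2) * ((4 * W * (r - 1) + 1) * δ) :=
      mul_le_mul_of_nonneg_left k2 hn2.le
    have k8 : (n + 2) * (W * (N * e)) ≤ (n + 2) * (W * (r * δ)) :=
      mul_le_mul_of_nonneg_left (mul_le_mul_of_nonneg_left k3 hW0.le) hn2.le
    linarith
  exact le_of_mul_le_mul_left key (mul_pos hn2 hN)

section main

variable [Finite Γ]

/-- **The local estimate.** -/
theorem arr_local (hn : Algebra.trdeg ℂ M = n) (hS : ASys C ℓ x N r H)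
    (p : Bases ℓ → ℕ) (hp : ∀ F : Finset (Fin (C.m + 1)), Proper ℓ F →
      (n + 2) * (∑ B, p B * cnt B.1 F) + ∑ B, p B ≤ (n + 2) * ((∑ B, p B) * rk ℓ F))
    {t W : ℕ} (hW : W = t * ∑ B, p B) (hWn : n + 2 ≤ W)
    {v : Place ℂ (fixedField Γ)} {w : Place ℂ M} {e : ℕ} {I : Subgroup Γ} (hwv : Over w v e)
    (hcard : Nat.card I = e) (hI : ∀ g ∈ I, Inert w (g : M ≃ₐ[ℂ] M))
    {D : Fin n → Derivation ℂ (fixedField Γ) (fixedField Γ)} {D' : Fin n → Derivation ℂ M M}
    (hDD : ∀ i, Ext (D i) (D' i)) (hD : ∀ i, DerReg v (D i)) (c : Fin (C.m + 1)) :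
    Ge w ((2 * W : ℕ) * C.BB w) (pf ℓ x p t D' * (C.Psi ^ (2 * W) * C.U c)) := by
  classical
  set κ := 2 * W with hκ
  have hN0 : 0 < N := by
    have h1 := hS.hN
    have h2 := hS.hr1
    by_contra h0
    have h3 : 5 * (n + 2) * 1 ≤ 5 * (n + 2) * r := Nat.mul_le_mul_left _ h2
    omega
  have hpl : IsPluri W (fun D' => pf ℓ x p t D' * (C.Psi ^ κ * C.U c)) := by
    intro A D
    change pf ℓ x p t _ * _ = _
    rw [pf_pluri x p t A D, hW]
    ring
  have hUb : C.U C.b ≠ 0 := hS.hU _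
  have hzV : C.V / C.U C.b = C.V := by rw [hS.hb, div_one]
  have hordb : w.ord (C.U C.b) = 0 := by rw [hS.hb, w.ord_one]
  have hmu0 : mu C.U w ≤ 0 := by
    have := mu_le C.U w C.b
    rwa [hordb] at this
  -- the estimate for the product of the conjugates
  have hΨ0 : Ge w (2 * C.Y.card * mu C.U w + C.BB w + 0) C.Psi := by
    have := C.ge_Psi (w := w) (G := fun _ => 0) fun τ _ => by
      rw [add_zero]
      exact C.ge_factor w τ
    simpa using this
  -- a logarithmic estimate, with a gain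
  have hmain : ∀ G : ℤ, Ge w (2 * C.Y.card * mu C.U w + C.BB w + G) C.Psi →
      ∀ c0 : ℤ, (∀ (D1 : Fin n → Derivation ℂ (fixedField Γ) (fixedField Γ))
      (D1' : Fin n → Derivation ℂ M M), (∀ i, Ext (D1 i) (D1' i)) → (∀ i, DerLog v (D1 i)) →
        Ge w c0 (pf ℓ x p t D1')) →
      (W : ℤ) * e ≤ c0 + κ * (2 * C.Y.card * mu C.U w + G) + mu C.U w →
      Ge w (κ * C.BB w) (pf ℓ x p t D' * (C.Psi ^ κ * C.U c)) := by
    intro G hG c0 hlog hgain
    have h1 := pivot hwv hpl (b := c0 + (κ * (2 * C.Y.card * mu C.U w + C.BB w + G) +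
      mu C.U w)) (fun D1 D1' hE hD1 => (hlog D1 D1' hE hD1).mul
        ((hG.pow κ).mul (C.ge_U w c))) hDD hD
    refine h1.mono ?_
    linarith
  -- the orders of the linear forms
  have hordU : ∀ j, w.ord (lf (ℓ j) x) = w.ord (lf (ℓ C.b) x) + N * w.ord (C.U j) := by
    intro j
    rw [hS.hpow j, w.ord_mul (hS.hx _) (pow_ne_zero _ (hS.hU j)), w.ord_pow]
  by_cases hall : ∀ j, w.ord (C.U j) = 0
  · have hmu : mu C.U w = 0 := by
      obtain ⟨j, hj⟩ := exists_mu C.U w
      rw [← hj, hall]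
    by_cases hfix : ∀ g ∈ I, ∀ j, (g : M ≃ₐ[ℂ] M) (C.U j) = C.U j
    · -- no loss
      set lam := (lf (ℓ C.b) x)⁻¹ with hlam
      have hlam0 : lam ≠ 0 := inv_ne_zero (hS.hx _)
      have hlx : ∀ j, lf (ℓ j) (fun i => lam * x i) = C.U j ^ N := by
        intro j
        rw [lf_mul, hS.hpow j, hlam, ← mul_assoc, inv_mul_cancel₀ (hS.hx _), one_mul]
      have hmem : ∀ φ : Form n, lf φ (fun i => lam * x i) ∈
          {z : M | (∀ g ∈ I, (g : M ≃ₐ[ℂ] M) z = z) ∧ w.Reg z} := by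
        refine lf_mem (S := {z : M | (∀ g ∈ I, (g : M ≃ₐ[ℂ] M) z = z) ∧ w.Reg z})
          ⟨fun g _ => map_zero _, w.reg_zero⟩ ?_ ?_ hS.hspan ?_
        · rintro a ⟨ha1, ha2⟩ b ⟨hb1, hb2⟩
          exact ⟨fun g hg => by rw [map_add, ha1 g hg, hb1 g hg], w.reg_add ha2 hb2⟩
        · rintro c a ⟨ha1, ha2⟩
          exact ⟨fun g hg => by rw [map_mul, AlgEquiv.commutes, ha1 g hg],
            w.reg_mul (w.reg_const c) ha2⟩
        · intro j
          rw [hlx]
          refine ⟨fun g hg => by rw [map_pow, hfix g hg j], Or.inr ?_⟩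
          rw [w.ord_pow, hall, mul_zero]
      have hxS : ∀ i, (∀ g ∈ I, (g : M ≃ₐ[ℂ] M) (lam * x i) = lam * x i) ∧
          w.Reg (lam * x i) := by
        intro i
        have h1 := hmem (LinearMap.proj i)
        rw [lf_proj] at h1
        exact h1
      have hbw : Ge w 0 (bw D' (fun i => lam * x i)) := by
        unfold Pool.Agent.W602.Cov.G.bw
        refine ge_det w _ 0 (fun _ _ => 0) (fun i j => ?_) (fun σ => by simp)
        rw [Matrix.of_apply]
        refine Fin.cases ?_ (fun l => ?_) i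
        · exact (hxS j).2
        · exact reg_fixed hn hwv hcard hI (hDD l) (hD l) (hxS j).1 (hxS j).2
      have hlx0 : ∀ i, lf (ℓ i) (fun i => lam * x i) ≠ 0 := by
        intro i
        rw [hlx]
        exact pow_ne_zero _ (hS.hU i)
      have h1 : Ge w 0 (pf ℓ x p t D') := by
        rw [← pf_scale x p t D' hlam0]
        unfold pf
        have h2 := ge_div (den_ne hlx0 p t) (hbw.pow (t * ∑ B, p B))
        rw [ord_den w hlx0] at h2
        refine h2.mono ?_
        simp only [hlx, w.ord_pow, hall, mul_zero, Finset.sum_const_zero, sub_zero, le_refl]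
      have h2 := h1.mul ((hΨ0.pow κ).mul (C.ge_U w c))
      refine h2.mono ?_
      rw [hmu]
      linarith
    · -- the inertia group moves something
      push Not at hfix
      obtain ⟨g0, hg0, j0, hj0⟩ := hfix
      let J : Subgroup Γ :=
        { carrier := {g | g ∈ I ∧ (g : M ≃ₐ[ℂ] M) C.V = C.V}
          mul_mem' := by
            rintro x y ⟨hx, hx'⟩ ⟨hy, hy'⟩
            refine ⟨I.mul_mem hx hy, ?_⟩
            change (x : M ≃ₐ[ℂ] M) ((y : M ≃ₐ[ℂ] M) C.V) = C.V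
            rw [hy', hx']
          one_mem' := ⟨I.one_mem, rfl⟩
          inv_mem' := by
            rintro x ⟨hx, hx'⟩
            refine ⟨I.inv_mem hx, ?_⟩
            conv_lhs => rw [← hx']
            change ((x⁻¹ * x : Γ) : M ≃ₐ[ℂ] M) C.V = C.V
            rw [inv_mul_cancel]
            rfl }
      have hJ : ∀ g, g ∈ J ↔ g ∈ I ∧ (g : M ≃ₐ[ℂ] M) C.V = C.V := fun g => Iff.rfl
      have hmove : ∃ g ∈ I, (g : M ≃ₐ[ℂ] M) C.V ≠ C.V :=
        ⟨g0, hg0, fun h => hj0 (hS.hgen g0 h j0)⟩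
      have h1 := count_two hJ hS.hY hmove
      rw [hcard] at h1
      have h2 : (e : ℤ) ≤ 2 * ((∑ τ ∈ C.Y, gn I J C.V τ : ℕ) : ℤ) := by exact_mod_cast h1
      have hΨ := C.ge_Psi (w := w) (G := fun τ => ((gn I J C.V τ : ℕ) : ℤ))
        fun τ _ => by
          have h3 := C.ge_factor_gain (J := J) hI (fun g hg => ((hJ g).1 hg).1) hS.hU
            (by rw [hordb, hmu]) (fun j hj => by rw [hzV]; exact ((hJ j).1 hj).2) τ
          rw [hzV] at h3
          exact h3
      rw [← Nat.cast_sum] at hΨ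
      refine hmain _ hΨ 0 (fun D1 D1' hE hlog => ?_) ?_
      · obtain ⟨h4, h5⟩ := log0 w (D := D1') fun i => log_ext hwv (hE i) (hlog i)
        obtain ⟨a, vv, hv, -, c0, hc, hc2⟩ := pf_ord' p hp hS.hspan t hS.hx w C.b D1' 0 h4 h5
        refine hc.mono ?_
        rcases hc2 with ⟨-, h⟩ | ⟨-, -, h⟩
        · exact h
        · have h6 := h C.b
          push_cast at h6
          rw [zero_mul, add_zero] at h6
          have h7 : (0 : ℤ) ≤ t * (∑ B, (p B : ℤ)) * vv C.b := by positivity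
          by_contra hneg
          push Not at hneg
          have h8 : ((n : ℤ) + 2) * c0 < 0 := mul_neg_of_pos_of_neg (by positivity) hneg
          linarith
      · rw [hmu, hκ]
        have h3 : (0 : ℤ) ≤ W := by positivity
        have h5 := mul_le_mul_of_nonneg_left h2 h3
        push_cast
        push_cast at h5
        linarith
  · -- the orders are not equal
    push Not at hall
    obtain ⟨j0, hj0⟩ := hall
    let f := Nat.card (I ⊓ H : Subgroup Γ)
    have hf : e ≤ r * f := by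
      rw [← hcard]
      exact card_le_index I H hS.hr
    have hdvd : (f : ℤ) ∣ w.ord (C.U j0) :=
      dvd_of_fixed (J := I ⊓ H) (fun g hg => hI g (Subgroup.mem_inf.1 hg).1) (hS.hU j0)
        fun g hg => hS.hH j0 g (Subgroup.mem_inf.1 hg).2
    have hfabs : (f : ℤ) ≤ |w.ord (C.U j0)| :=
      Int.le_of_dvd (abs_pos.2 hj0) ((dvd_abs _ _).2 hdvd)
    -- the maximal multiplicity
    obtain ⟨i3, -, hi3⟩ := Finset.exists_max_image Finset.univ (fun i => w.ord (lf (ℓ i) x))
      ⟨C.b, Finset.mem_univ _⟩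
    obtain ⟨i1, -, hi1⟩ := Finset.exists_min_image Finset.univ (fun i => w.ord (lf (ℓ i) x))
      ⟨C.b, Finset.mem_univ _⟩
    obtain ⟨δ, hδ⟩ : ∃ δ : ℤ, δ = w.ord (lf (ℓ i3) x) - w.ord (lf (ℓ i1) x) := ⟨_, rfl⟩
    have hNz : (0 : ℤ) < N := by exact_mod_cast hN0
    have hδf : (N : ℤ) * f ≤ δ := by
      have h1 := hi3 j0 (Finset.mem_univ _)
      have h2 := hi3 C.b (Finset.mem_univ _)
      have h3 := hi1 j0 (Finset.mem_univ _)
      have h4 := hi1 C.b (Finset.mem_univ _)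
      have h5 := hordU j0
      have h6 : (N : ℤ) * f ≤ N * |w.ord (C.U j0)| := mul_le_mul_of_nonneg_left hfabs hNz.le
      have h7 : (N : ℤ) * |w.ord (C.U j0)| = |N * w.ord (C.U j0)| := by
        rw [abs_mul, abs_of_pos hNz]
      rcases abs_cases (N * w.ord (C.U j0)) with ⟨h, -⟩ | ⟨h, -⟩ <;> linarith
    have hδb : -(N * mu C.U w) ≤ δ := by
      obtain ⟨j, hj⟩ := exists_mu C.U w
      rw [← hj]
      have h1 := hordU j
      have h2 := hi3 C.b (Finset.mem_univ _)
      have h3 := hi1 j (Finset.mem_univ _)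
      linarith
    -- the estimate
    obtain ⟨c0, hc0⟩ : ∃ c0 : ℤ, c0 = W * e - κ * (2 * C.Y.card * mu C.U w) - mu C.U w :=
      ⟨_, rfl⟩
    refine hmain 0 hΨ0 c0 (fun D1 D1' hE hlog => ?_) (by rw [hc0]; linarith)
    obtain ⟨h4, h5⟩ := log0 w (D := D1') fun i => log_ext hwv (hE i) (hlog i)
    obtain ⟨a, vv, hv, -, c1, hc, hc2⟩ := pf_ord' p hp hS.hspan t hS.hx w C.b D1' 0 h4 h5
    refine hc.mono ?_
    have hvv : ∀ j, (vv j : ℤ) = w.ord (lf (ℓ j) x) - a := fun j => by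
      rw [hv j]; ring
    rcases hc2 with ⟨hv0, -⟩ | ⟨-, hsp, h⟩
    · exfalso
      apply hj0
      have h6 : w.ord (lf (ℓ j0) x) = w.ord (lf (ℓ C.b) x) := by
        rw [hv, hv, hv0]
        rfl
      rw [hordU j0] at h6
      have h7 : (N : ℤ) * w.ord (C.U j0) = 0 := by linarith
      exact (mul_eq_zero.1 h7).resolve_left hNz.ne'
    · -- the minimal multiplicity is zero
      have hmin : ∃ i, vv i = 0 := by
        by_contra hcon
        push Not at hcon
        apply hsp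
        rw [← hS.hspan]
        congr 1
        ext φ
        constructor
        · rintro ⟨i, -, rfl⟩
          exact ⟨i, rfl⟩
        · rintro ⟨i, rfl⟩
          exact ⟨i, hcon i, rfl⟩
      obtain ⟨i2, hi2⟩ := hmin
      have h6 : (vv i3 : ℤ) = δ := by
        have h7 := hi1 i2 (Finset.mem_univ _)
        have h8 := hv i2
        rw [hi2] at h8
        have h9 := hv i1
        have h10 : (0 : ℤ) ≤ vv i1 := by positivity
        rw [hvv i3, hδ]
        push_cast at h8
        linarith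
      have h7 := h i3
      push_cast at h7
      rw [zero_mul, add_zero, h6] at h7
      have hWz : (W : ℤ) = t * ∑ B, (p B : ℤ) := by
        rw [hW]
        push_cast
        ring
      rw [← hWz] at h7
      -- `W δ ≤ (n + 2) c1`
      have hNb : (5 * ((n : ℤ) + 2) * r + 1) ≤ N + 4 * (n + 2) := by
        have := hS.hN
        exact_mod_cast this
      have hY1 : (C.Y.card : ℤ) + 1 ≤ r := by exact_mod_cast hS.hYc
      have hfz : (e : ℤ) ≤ r * f := by exact_mod_cast hf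
      have hWn' : (n : ℤ) + 2 ≤ W := by exact_mod_cast hWn
      have hc0' : c0 = W * e + (4 * W * C.Y.card + 1) * -mu C.U w := by
        rw [hc0, hκ]
        push_cast
        ring
      rw [hc0']
      exact arith (Int.natCast_nonneg n) hNz hWn' (by exact_mod_cast hS.hr1)
        (Int.natCast_nonneg f) hfz hY1 (by linarith) hδf (by linarith) h7 hNb

end main

end Pool.Agent.TH466.QG
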