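import Pool.Agent.W602.GT.KGen
import Pool.Agent.W619.Y.LogP
import Pool.Agent.W762.PG.PRES
import Pool.Agent.W357.PG.EXT
import Pool.Agent.W619.PQ.Local

/-!
Derivations of the field of invariants of a finite group, extended to the big field, and inertia
groups.
-/

set_option autoImplicit false
set_option linter.overlappingInstances false
set_option linter.unusedSectionVars false

open Algebra FF IntermediateField Pool.Agent.W603.LV

namespace Pool.Agent.TH466.QG

open Pool.Agent.W619.PQ (Inert exists_generator fixed_finite)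
open Pool.Agent.W602.GT (IsPluri DerReg DerLog)

variable {k M : Type} [Field k] [Field M] [Algebra k M] {Γ : Subgroup (M ≃ₐ[k] M)}

/-- the derivation `D'` of `M` extends the derivation `D` of the field of invariants -/
def Ext (D : Derivation k (fixedField Γ) (fixedField Γ)) (D' : Derivation k M M) : Prop :=
  ∀ f : fixedField Γ, D' (f : M) = (D f : M)

theorem ge_comp (w : Place k M) (g : M ≃ₐ[k] M) (N : ℤ) (f : M) :
    Ge (w.comp g) N f ↔ Ge w N (g f) := by
  unfold Ge
  rw [Place.comp_ord, map_eq_zero_iff g g.injective]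

theorem over_comp {v : Place k (fixedField Γ)} {w : Place k M} {e : ℕ}
    (h : Over w v e) (g : Γ) : Over (w.comp (g : M ≃ₐ[k] M)) v e := by
  refine ⟨h.1, fun f => ?_⟩
  rw [Place.comp_ord]
  have h1 : (g : M ≃ₐ[k] M) (algebraMap (fixedField Γ) M f) = algebraMap (fixedField Γ) M f :=
    f.2 g
  rw [h1, h.2]

section fin

variable [CharZero k] [Finite Γ]

theorem trdeg_fixed {n : ℕ} (hn : Algebra.trdeg k M = n) :
    Algebra.trdeg k (fixedField Γ) = n := by
  have hfd : FiniteDimensional (fixedField Γ) M := fixed_finite Γ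
  have h5 := trdeg_add_eq k (fixedField Γ) (A := M)
  rw [trdeg_eq_zero (R := fixedField Γ) (A := M), add_zero] at h5
  rw [h5, hn]

theorem exists_ext {n : ℕ} (hn : Algebra.trdeg k M = n)
    (D : Derivation k (fixedField Γ) (fixedField Γ)) : ∃ D' : Derivation k M M, Ext D D' ∧
      (∀ D'', Ext D D'' → D'' = D') ∧
      ∀ (g : Γ) z, (g : M ≃ₐ[k] M) (D' z) = D' ((g : M ≃ₐ[k] M) z) := by
  have hfd : FiniteDimensional (fixedField Γ) M := fixed_finite Γ
  obtain ⟨D', h1, h2, h3⟩ := Pool.Agent.W357.PG.main k (fixedField Γ) M n (trdeg_fixed hn) D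
  exact ⟨D', h1, h2, fun g z => h3 g (fun f => f.2 g) z⟩

theorem Ext.comm {n : ℕ} (hn : Algebra.trdeg k M = n)
    {D : Derivation k (fixedField Γ) (fixedField Γ)} {D' : Derivation k M M} (h : Ext D D')
    (g : Γ) (z : M) : (g : M ≃ₐ[k] M) (D' z) = D' ((g : M ≃ₐ[k] M) z) := by
  obtain ⟨D₁, h1, h2, h3⟩ := exists_ext hn D
  rw [h2 D' h]
  exact h3 g z

theorem Ext.lin {n : ℕ} (A : Fin n → fixedField Γ)
    {D : Fin n → Derivation k (fixedField Γ) (fixedField Γ)} {D' : Fin n → Derivation k M M}
    (h : ∀ i, Ext (D i) (D' i)) : Ext (∑ j, A j • D j) (∑ j, (A j : M) • D' j) := by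
  intro f
  rw [Pool.Agent.W357.PG.sum_apply', Pool.Agent.W357.PG.sum_apply']
  rw [AddSubmonoidClass.coe_finsetSum]
  refine Finset.sum_congr rfl fun j _ => ?_
  change (A j : M) * D' j (f : M) = ((A j * D j f : fixedField Γ) : M)
  rw [h j]
  rfl

/-- a logarithmic vector field extends to a logarithmic one -/
theorem log_ext {v : Place k (fixedField Γ)} {w : Place k M} {e : ℕ} (hwv : Over w v e)
    {D : Derivation k (fixedField Γ) (fixedField Γ)} {D' : Derivation k M M} (h : Ext D D')
    (hD : DerLog v D) : DerLog w D' := by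
  have hfd : FiniteDimensional (fixedField Γ) M := fixed_finite Γ
  intro z
  refine Pool.Agent.W619.Y.LogP.main Pool.Agent.W762.PG.main k (fixedField Γ) M v w e hwv D' ?_ z
  intro f
  have h1 : D' (algebraMap (fixedField Γ) M f) / algebraMap (fixedField Γ) M f =
      algebraMap (fixedField Γ) M (D f / f) := by
    rw [map_div₀]
    congr 1
    exact h f
  rw [h1]
  exact hwv.reg.2 (hD f)

/-- the orders of elements fixed by a group of inert automorphisms -/
theorem dvd_of_fixed {w : Place k M} {J : Subgroup Γ}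
    (hJ : ∀ g ∈ J, Inert w (g : M ≃ₐ[k] M)) {z : M} (hz0 : z ≠ 0)
    (hz : ∀ g ∈ J, (g : M ≃ₐ[k] M) z = z) : (Nat.card J : ℤ) ∣ w.ord z := by
  obtain ⟨g, hg, -, h⟩ := exists_generator w J hJ
  exact h z hz0 (hz g hg)

/-- the inertia group is commutative -/
theorem comm_of_inert {w : Place k M} {I : Subgroup Γ}
    (hI : ∀ g ∈ I, Inert w (g : M ≃ₐ[k] M)) {a b : Γ} (ha : a ∈ I) (hb : b ∈ I) :
    a * b = b * a := by
  obtain ⟨g, hg, hord, -⟩ := exists_generator w I hI
  have h1 : Subgroup.zpowers g ≤ I := by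
    rw [Subgroup.zpowers_le]
    exact hg
  have h2 : Subgroup.zpowers g = I := by
    apply Subgroup.eq_of_le_of_card_ge h1
    rw [Nat.card_zpowers, ← Subgroup.orderOf_coe, hord]
  rw [← h2, Subgroup.mem_zpowers_iff] at ha hb
  obtain ⟨m, rfl⟩ := ha
  obtain ⟨n, rfl⟩ := hb
  rw [← zpow_add, ← zpow_add, add_comm]

theorem ge_gain {w : Place k M} {I J : Subgroup Γ} (hI : ∀ g ∈ I, Inert w (g : M ≃ₐ[k] M))
    (hJI : J ≤ I) {z : M} (hz : w.Reg z) (hzJ : ∀ j ∈ J, (j : M ≃ₐ[k] M) z = z) {g : Γ}
    (hg : g ∈ I) : Ge w (Nat.card J) (z - (g : M ≃ₐ[k] M) z) := by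
  by_cases h0 : z - (g : M ≃ₐ[k] M) z = 0
  · exact Or.inl h0
  right
  have h1 : Ge w 1 (z - (g : M ≃ₐ[k] M) z) := by
    have := (hI g hg z hz).neg
    rwa [neg_sub] at this
  have h2 := h1.resolve_left h0
  have h3 : (Nat.card J : ℤ) ∣ w.ord (z - (g : M ≃ₐ[k] M) z) := by
    refine dvd_of_fixed (fun j hj => hI j (hJI hj)) h0 fun j hj => ?_
    rw [map_sub, hzJ j hj]
    congr 1
    have h4 : (j : M ≃ₐ[k] M) ((g : M ≃ₐ[k] M) z) = ((j * g : Γ) : M ≃ₐ[k] M) z := rfl
    rw [h4, comm_of_inert hI (hJI hj) hg]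
    change (g : M ≃ₐ[k] M) ((j : M ≃ₐ[k] M) z) = _
    rw [hzJ j hj]
  exact Int.le_of_dvd (by omega) h3

/-- vector fields which are regular on the quotient are regular on the elements fixed by the
inertia group -/
theorem reg_fixed {n : ℕ} (hn : Algebra.trdeg k M = n) {v : Place k (fixedField Γ)}
    {w : Place k M} {e : ℕ} {I : Subgroup Γ} (hwv : Over w v e) (hcard : Nat.card I = e)
    (hI : ∀ g ∈ I, Inert w (g : M ≃ₐ[k] M))
    {D : Derivation k (fixedField Γ) (fixedField Γ)} {D' : Derivation k M M} (hDD : Ext D D')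
    (hD : DerReg v D) {z : M} (hzI : ∀ g ∈ I, (g : M ≃ₐ[k] M) z = z) (hz : w.Reg z) :
    w.Reg (D' z) := by
  have hfd : FiniteDimensional (fixedField Γ) M := fixed_finite Γ
  let I' : Subgroup (M ≃ₐ[k] M) := I.map Γ.subtype
  let L : IntermediateField k M := fixedField I'
  have hmemL : ∀ x : M, x ∈ L ↔ ∀ g ∈ I, (g : M ≃ₐ[k] M) x = x := by
    intro x
    constructor
    · intro h g hg
      exact h ⟨(g : M ≃ₐ[k] M), Subgroup.mem_map_of_mem _ hg⟩
    · rintro h ⟨_, g, hg, rfl⟩
      exact h g hg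
  have hle : fixedField Γ ≤ L := fun x hx => (hmemL x).2 fun g _ => hx g
  let _ : Algebra (fixedField Γ) L := (IntermediateField.inclusion hle).toRingHom.toAlgebra
  have t1 : IsScalarTower k (fixedField Γ) L := IsScalarTower.of_algebraMap_eq fun c => rfl
  have t2 : IsScalarTower (fixedField Γ) L M := IsScalarTower.of_algebraMap_eq fun c => rfl
  have fd : FiniteDimensional (fixedField Γ) L := FiniteDimensional.left (fixedField Γ) L M
  have he : 0 < e := hwv.1
  obtain ⟨s, hs0, hs⟩ := v.surj
  have hLM : ∀ f : fixedField Γ, w.ord (algebraMap L M (algebraMap (fixedField Γ) L f)) =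
      e * v.ord f := fun f => hwv.2 f
  obtain ⟨e1, q, hq⟩ := exists_over (K := L) w ⟨algebraMap (fixedField Γ) L s, by
    rw [hLM, hs]
    omega⟩
  obtain ⟨t, ht0, ht⟩ := q.surj
  have h1 : w.ord (t : M) = e1 := by
    have := hq.2 t
    rw [ht, mul_one] at this
    exact this
  have h2 : (e : ℤ) ∣ e1 := by
    rw [← h1, ← hcard]
    refine dvd_of_fixed hI (fun h => ht0 (Subtype.ext h)) fun g hg => ?_
    exact (hmemL _).1 t.2 g hg
  obtain ⟨c, hc⟩ := h2
  have he' : (0 : ℤ) < e := by exact_mod_cast he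
  have h3 : ∀ f : fixedField Γ, c * q.ord (algebraMap (fixedField Γ) L f) = v.ord f := by
    intro f
    have h4 := hq.2 (algebraMap (fixedField Γ) L f)
    rw [hLM, hc, mul_assoc] at h4
    exact (mul_left_cancel₀ he'.ne' h4).symm
  have hc0 : 0 < c := by
    have h5 : (0 : ℤ) < e1 := by exact_mod_cast hq.1
    rw [hc] at h5
    exact (pos_iff_pos_of_mul_pos h5).1 he'
  have hc1 : c = 1 := by
    have h6 := h3 s
    rw [hs] at h6
    exact Int.eq_one_of_mul_eq_one_right hc0.le h6
  have hqv : Over q v 1 := ⟨one_pos, fun f => by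
    have := h3 f
    rw [hc1, one_mul] at this
    rw [this]
    simp⟩
  have hst : ∀ x : L, D' (x : M) ∈ L := by
    intro x
    rw [hmemL]
    intro g hg
    rw [hDD.comm hn g, (hmemL _).1 x.2 g hg]
  let D'' : Derivation k L L := Derivation.mk'
    { toFun := fun x => ⟨D' (x : M), hst x⟩
      map_add' := fun x y => Subtype.ext (map_add D' (x : M) (y : M))
      map_smul' := fun c x => Subtype.ext (D'.map_smul c (x : M)) }
    (fun x y => Subtype.ext (D'.leibniz (x : M) (y : M)))
  have hD''v : ∀ x : L, ((D'' x : L) : M) = D' (x : M) := fun x => rfl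
  have key := Pool.Agent.W762.PG.pres v q 1 hqv D'' (fun x hx => by
    have h4 : D'' (algebraMap (fixedField Γ) L x) = algebraMap (fixedField Γ) L (D x) := by
      apply Subtype.ext
      rw [hD''v]
      exact hDD x
    rw [h4]
    exact hqv.reg.2 (hD x hx)) (Or.inl rfl) ⟨z, (hmemL z).2 hzI⟩ (by
      rw [← hq.reg]
      exact hz)
  rw [← hq.reg] at key
  exact key

/-- From logarithmic vector fields to regular ones. -/
theorem pivot {n : ℕ} {v : Place k (fixedField Γ)} {w : Place k M} {e : ℕ} (hwv : Over w v e)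
    {N : ℕ} {ω : (Fin n → Derivation k M M) → M} (hω : IsPluri N ω) {b : ℤ}
    (hlog : ∀ (D : Fin n → Derivation k (fixedField Γ) (fixedField Γ))
      (D' : Fin n → Derivation k M M), (∀ i, Ext (D i) (D' i)) → (∀ i, DerLog v (D i)) →
      Ge w b (ω D'))
    {D : Fin n → Derivation k (fixedField Γ) (fixedField Γ)} {D' : Fin n → Derivation k M M}
    (hDD : ∀ i, Ext (D i) (D' i)) (hD : ∀ i, DerReg v (D i)) : Ge w (b - N * e) (ω D') := by
  classical
  obtain ⟨s, hs0, hs⟩ := v.surj
  have hsM : ((s : fixedField Γ) : M) ≠ 0 := fun h => hs0 (Subtype.ext h)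
  by_cases hall : ∀ i, v.Reg (D i s / s)
  · refine (hlog D D' hDD fun i f => ?_).mono ?_
    · exact Pool.Agent.W619.TW.log_of_pres v (D i) (hD i) hs0 hs (hall i) f
    · have : (0 : ℤ) ≤ N * e := by positivity
      omega
  push Not at hall
  obtain ⟨j0, hj0⟩ := hall
  have h5 : v.Reg (D j0 s) := hD j0 s (Or.inr (by omega))
  have h6 : D j0 s ≠ 0 := by
    intro h6
    apply hj0
    left
    rw [h6, zero_div]
  have h7 : v.ord (D j0 s) = 0 := by
    have h8 : 0 ≤ v.ord (D j0 s) := h5.resolve_left h6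
    by_contra h9
    apply hj0
    right
    rw [v.ord_div h6 hs0, hs]
    omega
  let c : Fin n → fixedField Γ := fun j => if j = j0 then 0 else -(D j s / D j0 s)
  let u : Fin n → fixedField Γ := fun j => if j = j0 then s else 1
  let A : Matrix (Fin n) (Fin n) (fixedField Γ) := Matrix.of fun i j =>
    u i * ((1 : Matrix (Fin n) (Fin n) (fixedField Γ)) i j +
      c i * (1 : Matrix (Fin n) (Fin n) (fixedField Γ)) j0 j)
  have hdetA : A.det = s := by
    have h8 : (Matrix.of fun i j => (1 : Matrix (Fin n) (Fin n) (fixedField Γ)) i j +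
      c i * (1 : Matrix (Fin n) (Fin n) (fixedField Γ)) j0 j).det = 1 := by
      rw [← Matrix.det_one (n := Fin n) (R := fixedField Γ)]
      exact Matrix.det_eq_of_forall_row_eq_smul_add_const c j0 (by simp [c]) fun i j => rfl
    have h9 := Matrix.det_mul_column u (Matrix.of fun i j =>
      (1 : Matrix (Fin n) (Fin n) (fixedField Γ)) i j +
      c i * (1 : Matrix (Fin n) (Fin n) (fixedField Γ)) j0 j)
    have h10 : ∏ j, u j = s := by
      simp [u]
    rw [h8, h10, mul_one] at h9
    exact h9
  let E : Fin n → Derivation k (fixedField Γ) (fixedField Γ) := fun i => ∑ j, A i j • D j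
  let E' : Fin n → Derivation k M M := fun i => ∑ j, (A i j : M) • D' j
  have hEE : ∀ i, Ext (E i) (E' i) := fun i => Ext.lin (fun j => A i j) hDD
  have hEval : ∀ i f, E i f = u i * (D i f + c i * D j0 f) := by
    intro i f
    change (∑ j, A i j • D j) f = _
    rw [Pool.Agent.W357.PG.sum_apply']
    have h8 : ∀ j, (A i j • D j) f = u i * ((1 : Matrix (Fin n) (Fin n) (fixedField Γ)) i j *
        D j f) + u i * c i * ((1 : Matrix (Fin n) (Fin n) (fixedField Γ)) j0 j * D j f) := by
      intro j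
      change A i j * D j f = _
      simp only [A, Matrix.of_apply]
      ring
    rw [Finset.sum_congr rfl fun j _ => h8 j, Finset.sum_add_distrib, ← Finset.mul_sum,
      ← Finset.mul_sum]
    simp only [Matrix.one_apply, ite_mul, one_mul, zero_mul, Finset.sum_ite_eq,
      Finset.mem_univ, if_true]
    ring
  have hinv : Ge v 0 (D j0 s)⁻¹ := Or.inr (by rw [v.ord_inv, h7]; simp)
  have hc : ∀ j, Ge v 0 (c j) := by
    intro j
    by_cases hj : j = j0
    · left; simp [c, hj]
    · simp only [c, hj, if_false]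
      have h8 : Ge v 0 (D j s) := hD j s (Or.inr (by omega))
      rw [div_eq_mul_inv]
      simpa using (h8.mul hinv).neg
  have hu : ∀ j, Ge v 0 (u j) := by
    intro j
    by_cases hj : j = j0
    · simp only [u, hj, if_true]; exact Or.inr (by omega)
    · simp only [u, hj, if_false]; exact Ge.one
  have hEreg : ∀ i, DerReg v (E i) := by
    intro i f hf
    change Ge v 0 (E i f)
    rw [hEval]
    have h8 : Ge v 0 (D i f) := hD i f hf
    have h9 : Ge v 0 (D j0 f) := hD j0 f hf
    have h10 := (hc i).mul h9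
    rw [add_zero] at h10
    simpa using (hu i).mul (h8.add h10)
  have hElog : ∀ i, DerLog v (E i) := by
    intro i f
    refine Pool.Agent.W619.TW.log_of_pres v (E i) (hEreg i) hs0 hs ?_ f
    rw [hEval]
    by_cases hj : i = j0
    · have h8 : u i * (D i s + c i * D j0 s) / s = D j0 s := by
        simp only [u, c, hj, if_true, zero_mul, add_zero]
        field_simp
      rw [h8]
      exact h5
    · have h8 : u i * (D i s + c i * D j0 s) / s = 0 := by
        simp only [u, c, hj, if_false]
        field_simp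
        ring
      rw [h8]
      exact Or.inl rfl
  have h10 := hlog E E' hEE hElog
  have h11 : ω E' = (s : M) ^ N * ω D' := by
    have h12 := hω (A.map (algebraMap (fixedField Γ) M)) D'
    have h13 : (A.map (algebraMap (fixedField Γ) M)).det = (s : M) := by
      rw [← RingHom.mapMatrix_apply, ← RingHom.map_det, hdetA]
      rfl
    rw [h13] at h12
    exact h12
  rw [h11] at h10
  have hsord : w.ord (s : M) = e := by
    have h12 := hwv.2 s
    rw [hs, mul_one] at h12
    exact h12
  refine Ge.of_mul' (P := w) (N := b - N * e) (m := N * e) (pow_ne_zero N hsM) ?_ ?_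
  · rw [w.ord_pow, hsord]
  · rw [sub_add_cancel]; exact h10

end fin

end Pool.Agent.TH466.QG
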