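import Pool.Agent.TH466.QG.Cnt

/-!
The local estimates for one circuit.
-/

set_option autoImplicit false
set_option linter.overlappingInstances false
set_option linter.unusedSectionVars false

open FF IntermediateField Pool.Agent.W603.LV

namespace Pool.Agent.TH466.QG

open Pool.Agent.W619.PQ (Inert)
open Pool.Agent.W602.GT (IsPluri DerReg DerLog eta eta_log eta_aux eta_smul tn tri_eq ge_ord ge_div
  ord_prod' ord_smul')

variable {k M : Type} [Field k] [Field M] [Algebra k M] {Γ : Subgroup (M ≃ₐ[k] M)}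

/-- the minimal order -/
noncomputable def mu {m : ℕ} (U : Fin (m + 1) → M) (w : Place k M) : ℤ :=
  Finset.univ.inf' Finset.univ_nonempty (fun j => w.ord (U j))

theorem mu_le {m : ℕ} (U : Fin (m + 1) → M) (w : Place k M) (j : Fin (m + 1)) :
    mu U w ≤ w.ord (U j) := Finset.inf'_le _ (Finset.mem_univ j)

theorem exists_mu {m : ℕ} (U : Fin (m + 1) → M) (w : Place k M) : ∃ j, w.ord (U j) = mu U w := by
  obtain ⟨j, -, hj⟩ := Finset.exists_mem_eq_inf' Finset.univ_nonempty (fun j => w.ord (U j))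
  exact ⟨j, hj.symm⟩

/-- a circuit of powers of the elements `U j`, with a linear combination (coefficients `γ`) and a
set `Y` of automorphisms -/
structure CC {k M : Type} [Field k] [Field M] [Algebra k M] (Γ : Subgroup (M ≃ₐ[k] M)) where
  m : ℕ
  U : Fin (m + 1) → M
  c : Fin (m + 1) → k
  d : ℕ
  b : Fin (m + 1)
  γ : Fin (m + 1) → k
  Y : Finset Γ

namespace CC

variable (C : CC Γ)

/-- the members of the circuit -/
def T (j : Fin (C.m + 1)) : M := C.c j • C.U j ^ C.d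

/-- the linear combination -/
noncomputable def V : M := ∑ j, C.γ j • C.U j

/-- the conjugates of the ratio `V / U b` -/
noncomputable def Psi : M :=
  ∏ τ ∈ C.Y, (C.V * (τ : M ≃ₐ[k] M) (C.U C.b) - (τ : M ≃ₐ[k] M) C.V * C.U C.b)

/-- the exponent of the filler -/
def ex (A κ : ℕ) : ℕ := C.d * (A - (C.m + 1)) - 2 * κ * C.Y.card - 1

/-- the factor -/
noncomputable def fa (A κ : ℕ) (E : Derivation k M M) (c : Fin (C.m + 1)) : M :=
  eta E C.T ^ A * (∏ j, C.T j) * C.Psi ^ κ * (C.U C.b ^ C.ex A κ * C.U c)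

/-- the sum of the differences of the orders at the conjugate places -/
noncomputable def BB (w : Place k M) : ℤ :=
  ∑ τ ∈ C.Y, (mu C.U (w.comp (τ : M ≃ₐ[k] M)) - mu C.U w)

theorem fa_smul (A κ : ℕ) (δ : M) (D : Derivation k M M) (c : Fin (C.m + 1)) :
    C.fa A κ (δ • D) c = δ ^ (A * tn C.m) * C.fa A κ D c := by
  unfold fa
  rw [eta_smul, mul_pow, ← pow_mul, mul_comm A]
  unfold tn
  ring

theorem ge_V (w : Place k M) : Ge w (mu C.U w) C.V := by
  unfold V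
  refine Ge.sum _ _ fun j _ => ?_
  rw [Algebra.smul_def]
  have h1 : Ge w (mu C.U w) (C.U j) := Or.inr (mu_le _ _ _)
  simpa using (Ge.const (P := w) (C.γ j)).mul h1

theorem ge_U (w : Place k M) (j : Fin (C.m + 1)) : Ge w (mu C.U w) (C.U j) :=
  Or.inr (mu_le _ _ _)

theorem ge_factor (w : Place k M) (τ : Γ) :
    Ge w (mu C.U w + mu C.U (w.comp (τ : M ≃ₐ[k] M)))
      (C.V * (τ : M ≃ₐ[k] M) (C.U C.b) - (τ : M ≃ₐ[k] M) C.V * C.U C.b) := by
  have h1 : Ge w (mu C.U (w.comp (τ : M ≃ₐ[k] M))) ((τ : M ≃ₐ[k] M) (C.U C.b)) :=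
    (ge_comp w τ _ _).1 (C.ge_U _ _)
  have h2 : Ge w (mu C.U (w.comp (τ : M ≃ₐ[k] M))) ((τ : M ≃ₐ[k] M) C.V) :=
    (ge_comp w τ _ _).1 (C.ge_V _)
  refine ((C.ge_V w).mul h1).sub ?_
  have h3 := h2.mul (C.ge_U w C.b)
  rwa [add_comm] at h3

theorem ge_factor_gain [CharZero k] [Finite Γ] {w : Place k M} {I J : Subgroup Γ}
    (hI : ∀ g ∈ I, Inert w (g : M ≃ₐ[k] M)) (hJI : J ≤ I) (hU : ∀ j, C.U j ≠ 0)
    (hb : w.ord (C.U C.b) = mu C.U w)
    (hzJ : ∀ j ∈ J, (j : M ≃ₐ[k] M) (C.V / C.U C.b) = C.V / C.U C.b) (τ : Γ) :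
    Ge w (mu C.U w + mu C.U (w.comp (τ : M ≃ₐ[k] M)) + (gn I J (C.V / C.U C.b) τ : ℕ))
      (C.V * (τ : M ≃ₐ[k] M) (C.U C.b) - (τ : M ≃ₐ[k] M) C.V * C.U C.b) := by
  unfold gn
  split_ifs with h
  · obtain ⟨g, hg, hgz⟩ := h
    have hUb := hU C.b
    have hτU : (τ : M ≃ₐ[k] M) (C.U C.b) ≠ 0 := by simpa using hUb
    have hreg : w.Reg (C.V / C.U C.b) := by
      have h1 := ge_div hUb (C.ge_V w)
      rw [hb, sub_self] at h1
      exact h1
    have h1 := ge_gain hI hJI hreg hzJ hg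
    rw [← hgz] at h1
    have h2 : Ge w (mu C.U (w.comp (τ : M ≃ₐ[k] M))) ((τ : M ≃ₐ[k] M) (C.U C.b)) :=
      (ge_comp w τ _ _).1 (C.ge_U _ _)
    have h3 := ((C.ge_U w C.b).mul h2).mul h1
    have e1 : C.V * (τ : M ≃ₐ[k] M) (C.U C.b) - (τ : M ≃ₐ[k] M) C.V * C.U C.b =
        C.U C.b * (τ : M ≃ₐ[k] M) (C.U C.b) *
          (C.V / C.U C.b - (τ : M ≃ₐ[k] M) (C.V / C.U C.b)) := by
      rw [map_div₀]
      field_simp
    rw [e1]
    exact h3
  · simpa using C.ge_factor w τ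

theorem ge_Psi {w : Place k M} {G : Γ → ℤ}
    (h : ∀ τ ∈ C.Y, Ge w (mu C.U w + mu C.U (w.comp (τ : M ≃ₐ[k] M)) + G τ)
      (C.V * (τ : M ≃ₐ[k] M) (C.U C.b) - (τ : M ≃ₐ[k] M) C.V * C.U C.b)) :
    Ge w (2 * C.Y.card * mu C.U w + C.BB w + ∑ τ ∈ C.Y, G τ) C.Psi := by
  unfold Psi BB
  have h1 := Ge.prod (P := w) C.Y _ _ h
  convert h1 using 1
  simp only [Finset.sum_add_distrib, Finset.sum_sub_distrib, Finset.sum_const, nsmul_eq_mul]
  ring

theorem ord_T (hc : ∀ j, C.c j ≠ 0) (w : Place k M) (j : Fin (C.m + 1)) :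
    w.ord (C.T j) = C.d * w.ord (C.U j) := by
  unfold T
  rw [ord_smul' w (hc j), w.ord_pow]

theorem T_ne (hc : ∀ j, C.c j ≠ 0) (hU : ∀ j, C.U j ≠ 0) (j : Fin (C.m + 1)) : C.T j ≠ 0 :=
  smul_ne_zero (hc j) (pow_ne_zero _ (hU j))

/-- the estimate for the factor of one circuit -/
theorem ge_fa (hc : ∀ j, C.c j ≠ 0) (hU : ∀ j, C.U j ≠ 0) {A κ : ℕ} (hA : C.m + 1 ≤ A)
    (hex : 2 * κ * C.Y.card + 1 ≤ C.d * (A - (C.m + 1))) {w : Place k M}
    {E : Derivation k M M} (hη : Ge w (-(C.d * mu C.U w)) (eta E C.T)) {G : ℤ}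
    (hΨ : Ge w (2 * C.Y.card * mu C.U w + C.BB w + G) C.Psi) (c : Fin (C.m + 1)) :
    Ge w (κ * C.BB w + (∑ j, (w.ord (C.T j) - C.d * mu C.U w) + κ * G)) (C.fa A κ E c) := by
  unfold fa
  have h1 := ((hη.pow A).mul (ge_ord w (∏ j, C.T j))).mul (hΨ.pow κ)
  have h2 := h1.mul (((C.ge_U w C.b).pow (C.ex A κ)).mul (C.ge_U w c))
  refine h2.mono ?_
  rw [ord_prod' w _ _ fun j _ => C.T_ne hc hU j, Finset.sum_sub_distrib]
  have h3 : ((C.ex A κ : ℕ) : ℤ) = C.d * (A - (C.m + 1)) - 2 * κ * C.Y.card - 1 := by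
    unfold ex
    rw [Nat.sub_sub, Nat.cast_sub hex]
    push_cast [Nat.cast_sub hA]
    ring
  rw [h3]
  simp only [Finset.sum_const, Finset.card_univ, Fintype.card_fin, nsmul_eq_mul]
  push_cast
  apply le_of_eq
  ring

/-- the logarithmic case -/
theorem eta_of_log (hc : ∀ j, C.c j ≠ 0) (hU : ∀ j, C.U j ≠ 0) (hsum : ∑ j, C.T j = 0)
    {w : Place k M} {E : Derivation k M M} (hE : ∀ x : M, Ge w 0 (E x / x)) :
    Ge w (-(C.d * mu C.U w)) (eta E C.T) := by
  obtain ⟨j, hj⟩ := exists_mu C.U w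
  have h1 := eta_log (P := w) (E := E) (ε := 0) (fun x _ => by simpa using hE x)
    (C.T_ne hc hU) hsum j
  rw [C.ord_T hc, hj, zero_mul, sub_zero] at h1
  exact h1

/-- the unramified case: the vector field `E` preserves the regular elements fixed by `I` -/
theorem eta_of_fixed (hc : ∀ j, C.c j ≠ 0) (hU : ∀ j, C.U j ≠ 0) (hsum : ∑ j, C.T j = 0)
    {w : Place k M} {E : Derivation k M M} (S : Set M) (hS : ∀ x ∈ S, Ge w 0 x)
    (hE : ∀ x ∈ S, E x ∈ S) (hmem : ∀ j, C.T j / C.T C.b ∈ S)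
    (hall : ∀ j, w.ord (C.U j) = mu C.U w) : Ge w (-(C.d * mu C.U w)) (eta E C.T) := by
  have hT := C.T_ne hc hU
  set b := C.b with hbdef
  have h0 : (fun l => C.T (b.succAbove l)) = fun l => C.T b * (C.T (b.succAbove l) / C.T b) := by
    funext l
    have := hT b
    field_simp
  have h1 : wr E (fun l => C.T (b.succAbove l)) = C.T b ^ C.m *
      wr E (fun l => C.T (b.succAbove l) / C.T b) := by
    rw [h0]
    have h2 := wr_change E 1 (C.T b) (fun l => C.T (b.succAbove l) / C.T b)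
    rw [one_smul] at h2
    rw [h2]
    simp
  have hiter : ∀ (r : ℕ) (x : M), x ∈ S → (⇑E)^[r] x ∈ S := by
    intro r
    induction r with
    | zero => intro x hx; simpa using hx
    | succ r ih =>
      intro x hx
      rw [Function.iterate_succ_apply']
      exact hE _ (ih x hx)
  have h2 : Ge w 0 (wr E (fun l => C.T (b.succAbove l) / C.T b)) :=
    ge_det w _ _ (fun i r => 0) (fun i r => hS _ (hiter r _ (hmem _))) (fun σ => by simp)
  have hordb : w.ord (C.T b) = C.d * mu C.U w := by rw [C.ord_T hc, hall]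
  have h3 : Ge w (C.m * w.ord (C.T b)) (wr E (fun l => C.T (b.succAbove l))) := by
    rw [h1]
    have := ((ge_ord w (C.T b)).pow C.m).mul h2
    simpa using this
  have h4 := eta_aux hT hsum b h3
  convert h4 using 1
  have h5 : ∀ j, w.ord (C.T j) = C.d * mu C.U w := fun j => by rw [C.ord_T hc, hall]
  rw [Finset.sum_congr rfl fun j _ => h5 j, h5 b]
  simp
  ring

end CC

end Pool.Agent.TH466.QG
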