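import Pool.Agent.TH466.QG.Base

/-!
Conjugates of an element, and counting in inertia groups.
-/

set_option autoImplicit false
set_option linter.overlappingInstances false
set_option linter.unusedSectionVars false

open FF IntermediateField Pool.Agent.W603.LV

namespace Pool.Agent.TH466.QG

variable {k M : Type} [Field k] [Field M] [Algebra k M] {Γ : Subgroup (M ≃ₐ[k] M)} [Finite Γ]

/-- representatives of the conjugates of `z` which are different from `z` -/
theorem exists_rep (z : M) (H : Subgroup Γ) (hH : ∀ h ∈ H, (h : M ≃ₐ[k] M) z = z) :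
    ∃ Y : Finset Γ, Y.card + 1 ≤ H.index ∧ (∀ τ ∈ Y, (τ : M ≃ₐ[k] M) z ≠ z) ∧
      ∀ g : Γ, (g : M ≃ₐ[k] M) z ≠ z → ∃ τ ∈ Y, (τ : M ≃ₐ[k] M) z = (g : M ≃ₐ[k] M) z := by
  classical
  have hfin : Finite (Γ ⧸ H) := inferInstance
  have : Fintype (Γ ⧸ H) := Fintype.ofFinite _
  have hout : ∀ g : Γ, (((g : Γ ⧸ H).out : Γ) : M ≃ₐ[k] M) z = (g : M ≃ₐ[k] M) z := by
    intro g
    obtain ⟨h, hh⟩ := QuotientGroup.mk_out_eq_mul H g
    rw [hh]
    change (g : M ≃ₐ[k] M) (((h : Γ) : M ≃ₐ[k] M) z) = _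
    rw [hH h h.2]
  let S : Finset (Γ ⧸ H) := Finset.univ.filter fun c => ((c.out : Γ) : M ≃ₐ[k] M) z ≠ z
  refine ⟨S.image fun c => c.out, ?_, ?_, ?_⟩
  · have h1 : S.card < Fintype.card (Γ ⧸ H) := by
      rw [← Finset.card_univ]
      apply Finset.card_lt_card
      rw [Finset.ssubset_univ_iff]
      intro h2
      have h3 : ((1 : Γ) : Γ ⧸ H) ∈ S := by rw [h2]; exact Finset.mem_univ _
      rw [Finset.mem_filter] at h3
      apply h3.2
      rw [hout]
      rfl
    have h2 : H.index = Fintype.card (Γ ⧸ H) := by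
      rw [Subgroup.index, Nat.card_eq_fintype_card]
    rw [h2]
    exact (Nat.add_le_add_right Finset.card_image_le 1).trans h1
  · intro τ hτ
    rw [Finset.mem_image] at hτ
    obtain ⟨c, hc, rfl⟩ := hτ
    exact (Finset.mem_filter.1 hc).2
  · intro g hg
    refine ⟨_, Finset.mem_image_of_mem _ (Finset.mem_filter.2 ⟨Finset.mem_univ (g : Γ ⧸ H), ?_⟩),
      hout g⟩
    rw [hout]
    exact hg

/-- the size of a subgroup and of its intersection with another one -/
theorem card_le_index (I H : Subgroup Γ) {r : ℕ} (hr : H.index ≤ r) :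
    Nat.card I ≤ r * Nat.card (I ⊓ H : Subgroup Γ) := by
  classical
  have : Fintype Γ := Fintype.ofFinite _
  have : Fintype (Γ ⧸ H) := Fintype.ofFinite _
  let SI : Finset Γ := Finset.univ.filter fun g => g ∈ I
  let SJ : Finset Γ := Finset.univ.filter fun g => g ∈ I ⊓ H
  have hSI : Nat.card I = SI.card := by
    rw [Nat.card_eq_fintype_card, Fintype.card_subtype]
  have hSJ : Nat.card (I ⊓ H : Subgroup Γ) = SJ.card := by
    rw [Nat.card_eq_fintype_card, Fintype.card_subtype]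
  have h1 : SI.card ≤ SJ.card * (SI.image (fun g : Γ => (g : Γ ⧸ H))).card := by
    refine Finset.card_le_mul_card_image SI SJ.card fun c hc => ?_
    rw [Finset.mem_image] at hc
    obtain ⟨g0, hg0, rfl⟩ := hc
    refine Finset.card_le_card_of_injOn (fun g => g0⁻¹ * g) ?_ ?_
    · intro g hg
      rw [Finset.mem_coe, Finset.mem_filter] at hg
      rw [Finset.mem_coe, Finset.mem_filter]
      refine ⟨Finset.mem_univ _, I.mul_mem (I.inv_mem (Finset.mem_filter.1 hg0).2)
        (Finset.mem_filter.1 hg.1).2, ?_⟩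
      exact QuotientGroup.eq.1 hg.2.symm
    · intro a _ b _ hab
      exact mul_left_cancel hab
  have h2 : (SI.image (fun g : Γ => (g : Γ ⧸ H))).card ≤ r := by
    refine (Finset.card_le_univ _).trans ?_
    rw [← Nat.card_eq_fintype_card]
    exact hr
  rw [hSI, hSJ, mul_comm]
  exact h1.trans (Nat.mul_le_mul_left _ h2)

open Classical in
/-- the order of the difference of `z` and its conjugate by `τ` -/
noncomputable def gn (I J : Subgroup Γ) (z : M) (τ : Γ) : ℕ :=
  if ∃ g ∈ I, (τ : M ≃ₐ[k] M) z = (g : M ≃ₐ[k] M) z then Nat.card J else 0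

theorem count {z : M} {I J : Subgroup Γ}
    (hJ : ∀ g, g ∈ J ↔ g ∈ I ∧ (g : M ≃ₐ[k] M) z = z) {Y : Finset Γ}
    (hY : ∀ g : Γ, (g : M ≃ₐ[k] M) z ≠ z → ∃ τ ∈ Y, (τ : M ≃ₐ[k] M) z = (g : M ≃ₐ[k] M) z) :
    Nat.card I ≤ Nat.card J + ∑ τ ∈ Y, gn I J z τ := by
  classical
  have : Fintype Γ := Fintype.ofFinite _
  let SI : Finset Γ := Finset.univ.filter fun g => g ∈ I
  let SJ : Finset Γ := Finset.univ.filter fun g => g ∈ J
  have hSI : Nat.card I = SI.card := by
    rw [Nat.card_eq_fintype_card, Fintype.card_subtype]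
  have hSJ : Nat.card J = SJ.card := by
    rw [Nat.card_eq_fintype_card, Fintype.card_subtype]
  let R : Γ → Finset Γ := fun τ => SI.filter fun g => (g : M ≃ₐ[k] M) z = (τ : M ≃ₐ[k] M) z
  have hsub : SI ⊆ SJ ∪ Y.biUnion R := by
    intro g hg
    have hgI := (Finset.mem_filter.1 hg).2
    rw [Finset.mem_union]
    by_cases h : (g : M ≃ₐ[k] M) z = z
    · left
      exact Finset.mem_filter.2 ⟨Finset.mem_univ _, (hJ g).2 ⟨hgI, h⟩⟩
    · right
      obtain ⟨τ, hτ, h1⟩ := hY g h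
      rw [Finset.mem_biUnion]
      exact ⟨τ, hτ, Finset.mem_filter.2 ⟨hg, h1.symm⟩⟩
  have hR : ∀ τ, (R τ).card ≤ gn I J z τ := by
    intro τ
    unfold gn
    split_ifs with h
    · obtain ⟨g0, hg0, h0⟩ := h
      rw [hSJ]
      refine Finset.card_le_card_of_injOn (fun g => g0⁻¹ * g) ?_ ?_
      · intro g hg
        rw [Finset.mem_coe, Finset.mem_filter] at hg
        rw [Finset.mem_coe, Finset.mem_filter]
        refine ⟨Finset.mem_univ _, (hJ _).2 ⟨I.mul_mem (I.inv_mem hg0)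
          (Finset.mem_filter.1 hg.1).2, ?_⟩⟩
        have h1 : (g : M ≃ₐ[k] M) z = (g0 : M ≃ₐ[k] M) z := hg.2.trans h0
        change ((g0⁻¹ : Γ) : M ≃ₐ[k] M) ((g : M ≃ₐ[k] M) z) = z
        rw [h1]
        change ((g0⁻¹ * g0 : Γ) : M ≃ₐ[k] M) z = z
        rw [inv_mul_cancel]
        rfl
      · intro a _ b _ hab
        exact mul_left_cancel hab
    · rw [Nat.le_zero, Finset.card_eq_zero]
      apply Finset.eq_empty_of_forall_notMem
      intro g hg
      exact h ⟨g, (Finset.mem_filter.1 (Finset.mem_filter.1 hg).1).2,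
        ((Finset.mem_filter.1 hg).2).symm⟩
  rw [hSI, hSJ]
  calc SI.card ≤ (SJ ∪ Y.biUnion R).card := Finset.card_le_card hsub
    _ ≤ SJ.card + (Y.biUnion R).card := Finset.card_union_le _ _
    _ ≤ SJ.card + ∑ τ ∈ Y, (R τ).card := Nat.add_le_add_left Finset.card_biUnion_le _
    _ ≤ SJ.card + ∑ τ ∈ Y, gn I J z τ :=
      Nat.add_le_add_left (Finset.sum_le_sum fun τ _ => hR τ) _

/-- if the inertia group moves `z`, the total order of the differences is at least half of its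
order -/
theorem count_two {z : M} {I J : Subgroup Γ}
    (hJ : ∀ g, g ∈ J ↔ g ∈ I ∧ (g : M ≃ₐ[k] M) z = z) {Y : Finset Γ}
    (hY : ∀ g : Γ, (g : M ≃ₐ[k] M) z ≠ z → ∃ τ ∈ Y, (τ : M ≃ₐ[k] M) z = (g : M ≃ₐ[k] M) z)
    (hmove : ∃ g ∈ I, (g : M ≃ₐ[k] M) z ≠ z) :
    Nat.card I ≤ 2 * ∑ τ ∈ Y, gn I J z τ := by
  have h1 := count hJ hY
  have hle : J ≤ I := fun g hg => ((hJ g).1 hg).1
  obtain ⟨c, hc⟩ := Subgroup.card_dvd_of_le hle
  have hI0 : 0 < Nat.card I := Nat.card_pos
  have hc2 : 2 ≤ c := by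
    rcases Nat.lt_or_ge c 2 with h | h
    · exfalso
      interval_cases c
      · rw [mul_zero] at hc
        omega
      · rw [mul_one] at hc
        have h2 := Subgroup.eq_of_le_of_card_ge hle hc.le
        obtain ⟨g, hg, hgz⟩ := hmove
        rw [← h2] at hg
        exact hgz ((hJ g).1 hg).2
    · exact h
  have h2 : 2 * Nat.card J ≤ Nat.card I := by
    rw [hc, mul_comm]
    exact Nat.mul_le_mul_left _ hc2
  omega

end Pool.Agent.TH466.QG
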