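import Pool.Agent.TH466.QG.Base

/-!
Norms of pluricanonical forms to the field of invariants.
-/

set_option autoImplicit false
set_option linter.overlappingInstances false
set_option linter.unusedSectionVars false

open FF IntermediateField Pool.Agent.W603.LV

namespace Pool.Agent.TH466.QG

open Pool.Agent.W619.PQ (fixed_finite)
open Pool.Agent.W602.GT (IsPluri RegAt DerReg Divisorial GeneralType der_ext)

variable {k M : Type} [Field k] [Field M] [Algebra k M] {Γ : Subgroup (M ≃ₐ[k] M)} {n : ℕ}

/-- the coefficients of a product of linear polynomials -/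
theorem ge_coeff (w : Place k M) {ι : Type} (s : Finset ι) (a b : ι → M) (β : ι → ℤ)
    (ha : ∀ i ∈ s, Ge w (β i) (a i)) (hb : ∀ i ∈ s, Ge w (β i) (b i)) (l : ℕ) :
    Ge w (∑ i ∈ s, β i)
      ((∏ i ∈ s, (Polynomial.C (a i) + Polynomial.C (b i) * Polynomial.X)).coeff l) := by
  classical
  induction s using Finset.induction_on generalizing l with
  | empty =>
    rw [Finset.prod_empty, Finset.sum_empty, Polynomial.coeff_one]
    split_ifs
    · exact Ge.one
    · exact Ge.zero
  | insert i s hi ih =>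
    rw [Finset.prod_insert hi, Finset.sum_insert hi, add_mul, Polynomial.coeff_add,
      Polynomial.coeff_C_mul, mul_assoc, Polynomial.coeff_C_mul]
    have h1 := ih (fun j hj => ha j (Finset.mem_insert_of_mem hj))
      (fun j hj => hb j (Finset.mem_insert_of_mem hj))
    refine ((ha i (Finset.mem_insert_self i s)).mul (h1 l)).add ?_
    refine (hb i (Finset.mem_insert_self i s)).mul ?_
    cases l with
    | zero =>
      rw [Polynomial.coeff_X_mul_zero]
      exact Ge.zero
    | succ l =>
      rw [Polynomial.coeff_X_mul]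
      exact h1 l

/-- the product over the group -/
noncomputable def PP [Fintype Γ] (x y : M) : Polynomial M :=
  ∏ g : Γ, (Polynomial.C ((g : M ≃ₐ[k] M) x) + Polynomial.C ((g : M ≃ₐ[k] M) y) * Polynomial.X)

theorem PP_inv [Fintype Γ] (x y : M) (h : Γ) (l : ℕ) :
    (h : M ≃ₐ[k] M) ((PP (Γ := Γ) x y).coeff l) = (PP (Γ := Γ) x y).coeff l := by
  have h1 : (h : M ≃ₐ[k] M) ((PP (Γ := Γ) x y).coeff l) =
      ((PP (Γ := Γ) x y).map ((h : M ≃ₐ[k] M) : M →+* M)).coeff l := by
    rw [Polynomial.coeff_map]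
    rfl
  rw [h1]
  congr 1
  unfold PP
  rw [Polynomial.map_prod]
  refine Fintype.prod_equiv (Equiv.mulLeft h) _ _ fun g => ?_
  rw [Polynomial.map_add, Polynomial.map_mul, Polynomial.map_C, Polynomial.map_C,
    Polynomial.map_X]
  rfl

theorem PP_mul [Fintype Γ] (a x y : M) :
    PP (Γ := Γ) (a * x) (a * y) =
      Polynomial.C (∏ g : Γ, (g : M ≃ₐ[k] M) a) * PP (Γ := Γ) x y := by
  unfold PP
  rw [map_prod, ← Finset.prod_mul_distrib]
  refine Finset.prod_congr rfl fun g _ => ?_
  simp only [map_mul]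
  ring

theorem PP_zero [Fintype Γ] (x y : M) :
    (PP (Γ := Γ) x y).coeff 0 = ∏ g : Γ, (g : M ≃ₐ[k] M) x := by
  unfold PP
  rw [Polynomial.coeff_zero_eq_eval_zero, Polynomial.eval_prod]
  simp

/-- **Norms.** Pluricanonical forms of `M` which are regular on the average at the places over each
place of the field of invariants give pluricanonical forms of the field of invariants. -/
theorem general_of_forms [CharZero k] [Finite Γ] (hn : Algebra.trdeg k M = n) {N : ℕ}
    (hN : 0 < N) {Λ : Type} [Finite Λ] (ω : Λ → (Fin n → Derivation k M M) → M)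
    (hω : ∀ c, IsPluri N (ω c)) (c0 : Λ)
    (hne : ∀ D' : Fin n → Derivation k M M, LinearIndependent M D' → ω c0 D' ≠ 0)
    (u : Fin n → M) (hu : IsTranscendenceBasis k u) (cc : Fin n → Λ)
    (hcc : ∀ i D', ω (cc i) D' = ω c0 D' * u i) (B : Place k M → ℤ)
    (hB : ∀ w : Place k M, 0 ≤ ∑ᶠ g : Γ, B (w.comp (g : M ≃ₐ[k] M)))
    (hloc : ∀ v : Place k (fixedField Γ), ∃ (w : Place k M) (e : ℕ), Over w v e ∧
      ∀ (g : Γ) (c : Λ) (D : Fin n → Derivation k (fixedField Γ) (fixedField Γ))
        (D' : Fin n → Derivation k M M), (∀ i, Ext (D i) (D' i)) → (∀ i, DerReg v (D i)) →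
        Ge (w.comp (g : M ≃ₐ[k] M)) (B (w.comp (g : M ≃ₐ[k] M))) (ω c D')) :
    GeneralType k (fixedField Γ) n := by
  classical
  have hft : Fintype Γ := Fintype.ofFinite Γ
  have hfd : FiniteDimensional (fixedField Γ) M := fixed_finite Γ
  have htr : Algebra.trdeg k (fixedField Γ) = n := trdeg_fixed hn
  -- the extension of derivations
  choose X hX1 hX2 hX3 using fun D : Derivation k (fixedField Γ) (fixedField Γ) =>
    exists_ext (Γ := Γ) hn D
  have hmem : ∀ x y : M, ∀ l, (PP (Γ := Γ) x y).coeff l ∈ fixedField Γ := fun x y l g =>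
    PP_inv x y g l
  let Ω : Fin n × ℕ → (Fin n → Derivation k (fixedField Γ) (fixedField Γ)) → fixedField Γ :=
    fun q D => ⟨(PP (Γ := Γ) (ω c0 fun i => X (D i)) (ω (cc q.1) fun i => X (D i))).coeff q.2,
      hmem _ _ _⟩
  have hXlin : ∀ (A : Matrix (Fin n) (Fin n) (fixedField Γ))
      (D : Fin n → Derivation k (fixedField Γ) (fixedField Γ)),
      (fun i => X (∑ j, A i j • D j)) = fun i => ∑ j, (A i j : M) • X (D j) := by
    intro A D
    funext i
    exact (hX2 _ _ (Ext.lin (fun j => A i j) fun j => hX1 (D j))).symm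
  have hΩ : ∀ q, IsPluri (N * Fintype.card Γ) (Ω q) := by
    intro q A D
    apply Subtype.ext
    have h1 : (A.map (algebraMap (fixedField Γ) M)).det = (A.det : M) := by
      rw [← RingHom.mapMatrix_apply, ← RingHom.map_det]
      rfl
    have h2 : ∀ c, (ω c fun i => X (∑ j, A i j • D j)) =
        (A.det : M) ^ N * ω c fun i => X (D i) := by
      intro c
      rw [hXlin, ← h1]
      exact hω c (A.map (algebraMap (fixedField Γ) M)) fun i => X (D i)
    change (PP (Γ := Γ) (ω c0 fun i => X (∑ j, A i j • D j))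
      (ω (cc q.1) fun i => X (∑ j, A i j • D j))).coeff q.2 =
      ((A.det ^ (N * Fintype.card Γ) * Ω q D : fixedField Γ) : M)
    rw [h2, h2, PP_mul, Polynomial.coeff_C_mul]
    have h3 : ∀ g : Γ, (g : M ≃ₐ[k] M) ((A.det : M) ^ N) = (A.det : M) ^ N := by
      intro g
      rw [map_pow]
      congr 1
      exact A.det.2 g
    rw [Finset.prod_congr rfl fun g _ => h3 g, Finset.prod_const, Finset.card_univ, ← pow_mul]
    rfl
  have hreg : ∀ (v : Place k (fixedField Γ)) q, RegAt v (Ω q) := by
    intro v q D hD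
    obtain ⟨w, e, hwv, hw⟩ := hloc v
    rw [← hwv.reg]
    change Ge w 0 ((PP (Γ := Γ) (ω c0 fun i => X (D i)) (ω (cc q.1) fun i => X (D i))).coeff q.2)
    have h1 := ge_coeff w Finset.univ (fun g : Γ => (g : M ≃ₐ[k] M) (ω c0 fun i => X (D i)))
      (fun g : Γ => (g : M ≃ₐ[k] M) (ω (cc q.1) fun i => X (D i)))
      (fun g : Γ => B (w.comp (g : M ≃ₐ[k] M)))
      (fun g _ => (ge_comp w g _ _).1 (hw g c0 D _ (fun i => hX1 (D i)) hD))
      (fun g _ => (ge_comp w g _ _).1 (hw g (cc q.1) D _ (fun i => hX1 (D i)) hD)) q.2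
    refine h1.mono ?_
    have h2 := hB w
    rwa [finsum_eq_sum_of_fintype] at h2
  -- the ratios
  let ρ : Fin n × ℕ → fixedField Γ := fun q =>
    ⟨(PP (Γ := Γ) 1 (u q.1)).coeff q.2, hmem _ _ _⟩
  have hρ : ∀ q D, Ω q D = (Ω (q.1, 0) D) * ρ q := by
    intro q D
    apply Subtype.ext
    change (PP (Γ := Γ) (ω c0 fun i => X (D i)) (ω (cc q.1) fun i => X (D i))).coeff q.2 =
      (PP (Γ := Γ) (ω c0 fun i => X (D i)) (ω (cc q.1) fun i => X (D i))).coeff 0 *
        (PP (Γ := Γ) 1 (u q.1)).coeff q.2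
    rw [hcc, PP_zero]
    have h1 : PP (Γ := Γ) (ω c0 fun i => X (D i)) ((ω c0 fun i => X (D i)) * u q.1) =
        PP (Γ := Γ) ((ω c0 fun i => X (D i)) * 1) ((ω c0 fun i => X (D i)) * u q.1) := by
      rw [mul_one]
    rw [h1, PP_mul, Polynomial.coeff_C_mul]
  -- algebraicity
  have halg : Algebra.IsAlgebraic (IntermediateField.adjoin k (Set.range ρ)) (fixedField Γ) := by
    let F0 : IntermediateField k (fixedField Γ) := IntermediateField.adjoin k (Set.range ρ)
    have h1 : ∀ i, IsAlgebraic F0 (u i) := by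
      intro i
      by_cases hui : u i = 0
      · rw [hui]; exact isAlgebraic_zero
      have hsub : ∀ l, (PP (Γ := Γ) 1 (u i)).coeff l ∈ (algebraMap F0 M).range := fun l =>
        ⟨⟨ρ (i, l), IntermediateField.subset_adjoin k _ ⟨(i, l), rfl⟩⟩, rfl⟩
      have hlift : PP (Γ := Γ) 1 (u i) ∈ Polynomial.lifts (algebraMap F0 M) := by
        rw [Polynomial.lifts_iff_coeff_lifts]
        intro l
        exact hsub l
      rw [Polynomial.mem_lifts] at hlift
      obtain ⟨p, hp⟩ := hlift
      have hp0 : p ≠ 0 := by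
        rintro rfl
        have h2 := PP_zero (Γ := Γ) 1 (u i)
        rw [← hp] at h2
        simp at h2
      have h3 : IsAlgebraic F0 (-(u i)⁻¹) := by
        refine ⟨p, hp0, ?_⟩
        rw [Polynomial.aeval_def, ← Polynomial.eval_map, hp]
        unfold PP
        rw [Polynomial.eval_prod]
        apply Finset.prod_eq_zero (Finset.mem_univ (1 : Γ))
        have h4 : ((1 : Γ) : M ≃ₐ[k] M) = 1 := rfl
        simp only [h4, AlgEquiv.one_apply, Polynomial.eval_add, Polynomial.eval_C,
          Polynomial.eval_mul, Polynomial.eval_X]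
        field_simp
        ring
      have h4 := h3.neg
      rw [neg_neg] at h4
      have h5 := h4.inv
      rwa [inv_inv] at h5
    -- `M` is algebraic over `F0`
    have h2 : Algebra.IsAlgebraic F0 M := by
      have h3 : Algebra.IsAlgebraic (IntermediateField.adjoin k (Set.range u)) M :=
        hu.isAlgebraic_field
      let F1 : IntermediateField F0 M := algebraicClosure F0 M
      have h4 : ∀ x ∈ IntermediateField.adjoin k (Set.range u), x ∈ F1 := by
        intro x hx
        have h5 : IntermediateField.adjoin k (Set.range u) ≤ F1.restrictScalars k := by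
          rw [IntermediateField.adjoin_le_iff]
          rintro _ ⟨i, rfl⟩
          change u i ∈ F1
          rw [mem_algebraicClosure_iff]
          exact h1 i
        exact h5 hx
      constructor
      intro x
      have h6 : IsAlgebraic (IntermediateField.adjoin k (Set.range u)) x := h3.isAlgebraic x
      obtain ⟨p, hp0, hp⟩ := h6
      let φ : IntermediateField.adjoin k (Set.range u) →+* F1 :=
        { toFun := fun y => ⟨y, h4 y y.2⟩
          map_one' := rfl
          map_mul' := fun _ _ => rfl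
          map_zero' := rfl
          map_add' := fun _ _ => rfl }
      have h7 : IsAlgebraic F1 x := by
        refine ⟨p.map φ, (Polynomial.map_ne_zero_iff φ.injective).2 hp0, ?_⟩
        rw [Polynomial.aeval_def, Polynomial.eval₂_map]
        exact hp
      have h8 : Algebra.IsAlgebraic F0 F1 := algebraicClosure.isAlgebraic F0 M
      exact h7.restrictScalars F0
    constructor
    intro x
    have h3 : IsAlgebraic F0 (algebraMap (fixedField Γ) M x) := h2.isAlgebraic _
    exact (isAlgebraic_algebraMap_iff (algebraMap (fixedField Γ) M).injective).1 h3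
  have halg' := Pool.Agent.W602.GT.alg_adjoin halg
  obtain ⟨S, hS, hSb⟩ := exists_isTranscendenceBasis_subset (R := k) (A := fixedField Γ)
    (Set.range ρ)
  have hcard := hSb.cardinalMk_eq_trdeg
  rw [htr] at hcard
  obtain ⟨φ⟩ : Nonempty (Fin n ≃ S) := by
    rw [← Cardinal.eq, Cardinal.mk_fin]
    exact hcard.symm
  set y : Fin n → fixedField Γ := fun i => (φ i : fixedField Γ) with hy
  have hyb : IsTranscendenceBasis k y := hSb.comp_equiv φ
  have hyq : ∀ i, ∃ q, ρ q = y i := fun i => hS (φ i).2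
  choose q hq using hyq
  obtain ⟨D, hD⟩ := Pool.Agent.W602.GT.exists_dual hyb
  -- independence of the extended vector fields
  have hind : LinearIndependent M fun i => X (D i) := by
    rw [Fintype.linearIndependent_iff]
    intro a ha i
    have h1 := congrArg (fun E : Derivation k M M => E (y i : M)) ha
    simp only [Derivation.coe_zero, Pi.zero_apply] at h1
    rw [Pool.Agent.W357.PG.sum_apply'] at h1
    have h2 : ∀ j, (a j • X (D j)) (y i : M) = if j = i then a j else 0 := by
      intro j
      change a j * X (D j) (y i : M) = _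
      rw [hX1 (D j) (y i)]
      have h3 := congrFun (congrFun hD j) i
      rw [Matrix.of_apply, Matrix.one_apply] at h3
      rw [h3]
      split_ifs with h
      · simp
      · simp
    rw [Finset.sum_congr rfl fun j _ => h2 j, Finset.sum_ite_eq' Finset.univ i] at h1
    simpa using h1
  have hne0 := hne _ hind
  by_cases hn0 : n = 0
  · subst hn0
    refine ⟨htr, N * Fintype.card Γ, Nat.mul_pos hN Fintype.card_pos, fun _ D =>
      ⟨∏ g : Γ, (g : M ≃ₐ[k] M) (ω c0 fun i => X (D i)), ?_⟩, ?_, ?_, D, ?_, ?_⟩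
    · intro g
      rw [← PP_zero (Γ := Γ) _ 0]
      exact PP_inv _ _ g 0
    · intro _ A D
      apply Subtype.ext
      have hA : A.det = 1 := by simp
      have hD0 : (fun i => ∑ j, A i j • D j) = D := funext fun i => i.elim0
      rw [hA, one_pow, one_mul, hD0]
    · intro v _ _ D hD
      obtain ⟨w, e, hwv, hw⟩ := hloc v
      rw [← hwv.reg]
      change Ge w 0 (∏ g : Γ, (g : M ≃ₐ[k] M) (ω c0 fun i => X (D i)))
      rw [← PP_zero (Γ := Γ) _ (ω c0 fun i => X (D i))]
      have h1 := ge_coeff w Finset.univ (fun g : Γ => (g : M ≃ₐ[k] M) (ω c0 fun i => X (D i)))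
        (fun g : Γ => (g : M ≃ₐ[k] M) (ω c0 fun i => X (D i)))
        (fun g : Γ => B (w.comp (g : M ≃ₐ[k] M)))
        (fun g _ => (ge_comp w g _ _).1 (hw g c0 D _ (fun i => hX1 (D i)) hD))
        (fun g _ => (ge_comp w g _ _).1 (hw g c0 D _ (fun i => hX1 (D i)) hD)) 0
      refine h1.mono ?_
      have h2 := hB w
      rwa [finsum_eq_sum_of_fintype] at h2
    · intro h0
      have h1 := congrArg (Subtype.val) h0
      change ∏ g : Γ, (g : M ≃ₐ[k] M) (ω c0 fun i => X (D i)) = 0 at h1
      rw [Finset.prod_eq_zero_iff] at h1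
      obtain ⟨g, -, hg⟩ := h1
      rw [map_eq_zero_iff _ (g : M ≃ₐ[k] M).injective] at hg
      exact hne0 hg
    · rw [algebraicIndependent_empty_type_iff]
      exact (algebraMap k (fixedField Γ)).injective
  obtain ⟨i0⟩ : Nonempty (Fin n) := ⟨⟨0, Nat.pos_of_ne_zero hn0⟩⟩
  have hzero : ∀ i j D, Ω (i, 0) D = Ω (j, 0) D := by
    intro i j D
    apply Subtype.ext
    change (PP (Γ := Γ) _ _).coeff 0 = (PP (Γ := Γ) _ _).coeff 0
    rw [PP_zero, PP_zero]
  have hΩ0 : Ω (i0, 0) D ≠ 0 := by
    intro h0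
    have h1 := congrArg (Subtype.val) h0
    change (PP (Γ := Γ) _ _).coeff 0 = 0 at h1
    rw [PP_zero, Finset.prod_eq_zero_iff] at h1
    obtain ⟨g, -, hg⟩ := h1
    rw [map_eq_zero_iff _ (g : M ≃ₐ[k] M).injective] at hg
    exact hne0 hg
  let W : Fin (n + 1) → (Fin n → Derivation k (fixedField Γ) (fixedField Γ)) → fixedField Γ :=
    Fin.cases (Ω (i0, 0)) fun i => Ω (q i)
  refine ⟨htr, N * Fintype.card Γ, Nat.mul_pos hN Fintype.card_pos, W, ?_, ?_, D, hΩ0, ?_⟩
  · intro j
    refine Fin.cases ?_ (fun i => ?_) j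
    · exact hΩ _
    · exact hΩ _
  · intro v _ j
    refine Fin.cases ?_ (fun i => ?_) j
    · exact hreg v _
    · exact hreg v _
  · have h1 : (fun i : Fin n => W i.succ D / W 0 D) = y := by
      funext i
      change Ω (q i) D / Ω (i0, 0) D = y i
      rw [hρ (q i) D, hzero (q i).1 i0 D, mul_div_cancel_left₀ _ hΩ0, hq]
    rw [h1]
    exact hyb.1

end Pool.Agent.TH466.QG
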