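import Pool.Agent.TH466.QG.Loc
import Pool.Agent.TH466.QG.Norm

/-!
The quotient of a variety with a system of circuits with large exponents is of general type.
-/

set_option autoImplicit false
set_option linter.overlappingInstances false
set_option linter.unusedSectionVars false

open FF IntermediateField Pool.Agent.W603.LV

namespace Pool.Agent.TH466.QG

open Pool.Agent.W619.PQ (Inert exists_inertia)
open Pool.Agent.W602.GT (IsPluri DerReg DerLog eta tn con con_apply con_log con_t lmat form
  form_pluri exists_lam const_of_der wr_ne ge_div GeneralType exists_der der_ext)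

variable {k M : Type} [Field k] [Field M] [Algebra k M] {Γ : Subgroup (M ≃ₐ[k] M)} {n : ℕ}
  {C : Fin n → CC Γ} {A r : ℕ} {H : Subgroup Γ}

theorem inert_comp {w : Place k M} {h : Γ} (hh : Inert w (h : M ≃ₐ[k] M)) (g : Γ) :
    Inert (w.comp (g : M ≃ₐ[k] M)) ((MulAut.conj g⁻¹ h : Γ) : M ≃ₐ[k] M) := by
  intro z hz
  rw [ge_comp] at hz ⊢
  have h1 := hh _ hz
  rw [map_sub]
  have h2 : (g : M ≃ₐ[k] M) (((MulAut.conj g⁻¹ h : Γ) : M ≃ₐ[k] M) z) =
      (h : M ≃ₐ[k] M) ((g : M ≃ₐ[k] M) z) := by
    have h3 : g * MulAut.conj g⁻¹ h = h * g := by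
      rw [MulAut.conj_apply, inv_inv]
      group
    have h4 := congrArg (fun x : Γ => (x : M ≃ₐ[k] M) z) h3
    exact h4
  rw [h2]
  exact h1

section main

variable [CharZero k] [IsAlgClosed k] [Finite Γ]

theorem sum_BB (Γ' : CC Γ) (w : Place k M) :
    ∑ᶠ g : Γ, Γ'.BB (w.comp (g : M ≃ₐ[k] M)) = 0 := by
  have hft : Fintype Γ := Fintype.ofFinite Γ
  rw [finsum_eq_sum_of_fintype]
  unfold CC.BB
  rw [Finset.sum_comm]
  refine Finset.sum_eq_zero fun τ _ => ?_
  rw [Finset.sum_sub_distrib, sub_eq_zero]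
  refine Fintype.sum_equiv (Equiv.mulRight τ) _ _ fun g => ?_
  rfl

/-- **The main theorem for circuits.** -/
theorem general_of_sys (hn : Algebra.trdeg k M = n) (hS : Sys C A r H)
    (a : ∀ i, Fin ((C i).m + 1))
    (hbasis : IsTranscendenceBasis k fun i => (C i).T (a i) / (C i).T (C i).b) :
    GeneralType k (fixedField Γ) n := by
  classical
  have hT : ∀ i j, (C i).T j ≠ 0 := fun i => (C i).T_ne (hS.hc i) (hS.hU i)
  set t : Fin n → M := fun i => (C i).T (a i) / (C i).T (C i).b with ht
  have ht0 : ∀ j, t j ≠ 0 := fun j => div_ne_zero (hT _ _) (hT _ _)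
  obtain ⟨lam, hlam⟩ := exists_lam k n
  obtain ⟨D0, hD0⟩ := exists_der t hbasis (fun j => algebraMap k M (lam j) * t j)
  have hconst : ∀ h, D0 h = 0 → ∃ c : k, h = algebraMap k M c := fun h hh =>
    const_of_der t hbasis lam hlam D0 hD0 hh
  set κ := 2 * Wt C A with hκ
  have hpt : (∏ j, t j) ≠ 0 := Finset.prod_ne_zero_iff.2 fun j _ => ht0 j
  -- nonvanishing
  have hPsi0 : ∀ i, (C i).Psi ^ κ ≠ 0 := by
    intro i
    apply pow_ne_zero
    unfold CC.Psi
    rw [Finset.prod_ne_zero_iff]
    intro τ hτ h0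
    have hUb := hS.hU i (C i).b
    have hτU : (τ : M ≃ₐ[k] M) ((C i).U (C i).b) ≠ 0 := by simpa using hUb
    have h1 : (τ : M ≃ₐ[k] M) ((C i).V / (C i).U (C i).b) = (C i).V / (C i).U (C i).b := by
      rw [map_div₀, div_eq_div_iff hτU hUb]
      exact (sub_eq_zero.1 h0).symm
    exact hS.hYm i τ hτ h1
  have hfa0 : ∀ i c, (C i).fa A κ D0 c ≠ 0 := by
    intro i c
    refine mul_ne_zero (mul_ne_zero (mul_ne_zero (pow_ne_zero _ ?_) ?_) (hPsi0 i))
      (mul_ne_zero (pow_ne_zero _ (hS.hU i _)) (hS.hU i _))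
    · exact div_ne_zero (wr_ne hconst _ (hS.hlin i)) (Finset.prod_ne_zero_iff.2 fun j _ => hT i j)
    · exact Finset.prod_ne_zero_iff.2 fun j _ => hT i j
  have hGQ0 : ∀ c, GQ C A κ D0 c ≠ 0 := fun c => Finset.prod_ne_zero_iff.2 fun i _ => hfa0 i _
  -- the forms
  let ω : (∀ i, Fin ((C i).m + 1)) → (Fin n → Derivation k M M) → M := fun c =>
    form t (Wt C A) (GQ C A κ D0 c / (∏ j, t j) ^ Wt C A)
  have hωv : ∀ c D', ω c D' = GQ C A κ (con t lam D') c := by
    intro c D
    change GQ C A κ D0 c / (∏ j, t j) ^ Wt C A * (Matrix.of fun i j => D i (t j)).det ^ Wt C A = _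
    have h1 : con t lam D = (lmat t D).det • D0 := by
      apply der_ext t hbasis
      intro l
      rw [con_t t lam D ht0 l, Derivation.coe_smul, Pi.smul_apply, hD0, smul_eq_mul]
      ring
    have h2 : (Matrix.of fun i j => D i (t j)).det = (∏ j, t j) * (lmat t D).det := by
      rw [← Matrix.det_mul_row]
      congr 1
      ext i j
      simp only [Matrix.of_apply, lmat]
      have := ht0 j
      field_simp
    rw [h1, GQ_smul, h2, mul_pow]
    field_simp
  have hωne : ∀ (c) (D' : Fin n → Derivation k M M), LinearIndependent M D' → ω c D' ≠ 0 := by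
    intro c D hD h0
    have h1 : GQ C A κ D0 c / (∏ j, t j) ^ Wt C A * (Matrix.of fun i j => D i (t j)).det ^ Wt C A
        = 0 := h0
    have h2 : (Matrix.of fun i j => D i (t j)).det = 0 := by
      rcases mul_eq_zero.1 h1 with h | h
      · exact absurd h (div_ne_zero (hGQ0 c) (pow_ne_zero _ hpt))
      · exact pow_eq_zero_iff hS.hW.ne' |>.1 h
    obtain ⟨x, hx0, hx⟩ := Matrix.exists_vecMul_eq_zero_iff.2 h2
    apply hx0
    have h3 : ∑ i, x i • D i = 0 := by
      apply der_ext t hbasis
      intro l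
      rw [Pool.Agent.W357.PG.sum_apply']
      exact congrFun hx l
    funext i
    exact Fintype.linearIndependent_iff.1 hD x h3 i
  -- the ratios
  let u : Fin n → M := fun i => (C i).U (a i) / (C i).U (C i).b
  have hu : IsTranscendenceBasis k u := by
    have h1 : Algebra.IsAlgebraic (IntermediateField.adjoin k (Set.range t)) M :=
      hbasis.isAlgebraic_field
    have h2 : IntermediateField.adjoin k (Set.range t) ≤
        IntermediateField.adjoin k (Set.range u) := by
      rw [IntermediateField.adjoin_le_iff]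
      rintro _ ⟨i, rfl⟩
      have h3 : t i = algebraMap k M ((C i).c (a i) / (C i).c (C i).b) * u i ^ (C i).d := by
        change (C i).T (a i) / (C i).T (C i).b = _ * ((C i).U (a i) / (C i).U (C i).b) ^ (C i).d
        unfold CC.T
        rw [Algebra.smul_def, Algebra.smul_def, map_div₀, div_pow]
        have h1 : algebraMap k M ((C i).c (C i).b) ≠ 0 := by
          rw [Ne, map_eq_zero]; exact hS.hc _ _
        have h2 := pow_ne_zero (C i).d (hS.hU i (C i).b)
        field_simp
      rw [h3]
      exact mul_mem (IntermediateField.algebraMap_mem _ _)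
        (pow_mem (IntermediateField.subset_adjoin k (Set.range u) ⟨i, rfl⟩) _)
    have h3 := Pool.Agent.W602.GT.alg_adjoin (Pool.Agent.W602.GT.alg_mono h2 h1)
    refine Algebra.IsAlgebraic.isTranscendenceBasis_of_lift_le_trdeg_of_finite k u ?_
    rw [hn]
    simp
  let c0 : ∀ i, Fin ((C i).m + 1) := fun i => (C i).b
  let cc : Fin n → ∀ i, Fin ((C i).m + 1) := fun i => Function.update c0 i (a i)
  have hcc : ∀ i D', ω (cc i) D' = ω c0 D' * u i := by
    intro i D
    rw [hωv, hωv]
    change (∏ l, (C l).fa A κ (con t lam D) (Function.update c0 i (a i) l)) =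
      (∏ l, (C l).fa A κ (con t lam D) (c0 l)) * u i
    rw [← Finset.mul_prod_erase Finset.univ _ (Finset.mem_univ i),
      ← Finset.mul_prod_erase Finset.univ (fun l => (C l).fa A κ (con t lam D) (c0 l))
        (Finset.mem_univ i)]
    have h2 : ∏ l ∈ Finset.univ.erase i,
        (C l).fa A κ (con t lam D) (Function.update c0 i (a i) l) =
        ∏ l ∈ Finset.univ.erase i, (C l).fa A κ (con t lam D) (c0 l) := by
      refine Finset.prod_congr rfl fun x hx => ?_
      rw [Function.update_of_ne (Finset.ne_of_mem_erase hx)]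
    rw [h2, Function.update_self]
    have h3 : (C i).fa A κ (con t lam D) (a i) = (C i).fa A κ (con t lam D) (c0 i) * u i := by
      unfold CC.fa
      have := hS.hU i (C i).b
      simp only [u, c0]
      field_simp
    rw [h3]
    ring
  refine general_of_forms (Γ := Γ) hn hS.hW ω (fun c => form_pluri t _ _) c0 (hωne c0) u hu cc hcc
    (fun w => ∑ i, (2 * Wt C A : ℕ) * (C i).BB w) (fun w => ?_) fun v => ?_
  · have hft : Fintype Γ := Fintype.ofFinite Γ
    rw [finsum_eq_sum_of_fintype, Finset.sum_comm]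
    refine le_of_eq (Finset.sum_eq_zero fun i _ => ?_).symm
    have h1 := sum_BB (C i) w
    rw [finsum_eq_sum_of_fintype] at h1
    rw [← Finset.mul_sum, h1, mul_zero]
  · obtain ⟨w, e, I, hwv, hcard, hI⟩ := exists_inertia Γ v
    refine ⟨w, e, hwv, fun g c D D' hDD hD => ?_⟩
    refine local_est (I := I.map (MulAut.conj g⁻¹).toMonoidHom) hn hS (a := a) (t := t)
      (lam := lam) (fun i => rfl) (ω := ω) (fun c => form_pluri t _ _) hωv (over_comp hwv g) ?_
      ?_ hDD hD c
    · rw [Subgroup.card_map_of_injective (MulAut.conj g⁻¹).injective]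
      exact hcard
    · rintro _ ⟨h, hh, rfl⟩
      exact inert_comp (hI h hh) g

end main

end Pool.Agent.TH466.QG
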