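import Pool.Agent.TH466.QG.Spz

/-!
Openness: the specializations of the generic point of a component which is not ruled, over fields
with systems of circuits.
-/

set_option autoImplicit false
set_option linter.overlappingInstances false
set_option linter.unusedSectionVars false

open FF IntermediateField Pool.Agent.W603.LV

namespace Pool.Agent.TH466.QG

open Pool.Agent.W602.GT

variable {k : Type} [Field k] {n : ℕ} {ι : Type}

/-- the dichotomy for sums of powers of linear forms, with the classes of the members -/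
theorem waring_dich [IsAlgClosed k] [CharZero k] {K : Type} [Field K] [Algebra k K] {s N : ℕ}
    {r d : ι → ℕ} {l : ∀ e, Fin (r e) → Fin (n + 1) → k} (hr : ∀ e, r e ≤ s)
    (hd : ∀ e, N ≤ d e) (hN1 : 1 ≤ N) {w : ℕ} (htr : Algebra.trdeg k K = w)
    {y : Fin (n + 1) → K} (hgen : Algebra.IsAlgebraic (coords k y) K)
    (hyF : ∀ e, ∑ j, lin (l e j) y ^ d e = 0) {i0 : Fin (n + 1)} (hi0 : y i0 ≠ 0) :
    HasCirc k s N w K ∨
    ∃ (R : ∀ e, {j // lin (l e j) y ≠ 0} → {j // lin (l e j) y ≠ 0} → Prop)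
      (v : Fin (n + 1) → K), (∀ e, Equivalence (R e)) ∧
      (∀ e j0 (A : Finset {j // lin (l e j) y ≠ 0}), (∀ j, j ∈ A ↔ R e j0 j) →
        ∑ j ∈ A, lin (l e j.1) y ^ d e = 0) ∧ v i0 = 0 ∧ v ≠ 0 ∧
      (∀ e j, lin (l e j) y = 0 → lin (l e j) v = 0) ∧
      ∀ e i j, R e i j → lin (l e i.1) v * lin (l e j.1) y = lin (l e j.1) v * lin (l e i.1) y := by
  classical
  have hK : CharZero K := charZero_of_injective_algebraMap (algebraMap k K).injective
  have hd0 : ∀ e, 0 < d e := fun e => lt_of_lt_of_le hN1 (hd e)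
  let J : ι → Type := fun e => {j : Fin (r e) // lin (l e j) y ≠ 0}
  let g : ∀ e, J e → K := fun e j => lin (l e j.1) y ^ d e
  have hg : ∀ e j, g e j ≠ 0 := fun e j => pow_ne_zero _ j.2
  have hsum : ∀ e, ∑ j, g e j = 0 := by
    intro e
    refine Eq.trans ?_ (hyF e)
    rw [← Finset.sum_subtype (Finset.univ.filter fun j => lin (l e j) y ≠ 0) (by simp)
      (fun j => lin (l e j) y ^ d e), Finset.sum_filter_of_ne]
    intro j _ hj h0
    exact hj (by rw [h0, zero_pow (hd0 e).ne'])
  have hcard : ∀ e, Fintype.card (J e) ≤ s := fun e =>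
    (Fintype.card_subtype_le _).trans (by rw [Fintype.card_fin]; exact hr e)
  rcases dich_circ htr g hg hsum with ⟨e, C, a, b, hb⟩ | ⟨D, hD, hR⟩
  · left
    refine ⟨fun i => (C i).m, fun i => d (e i), fun i j => lin (l (e i) ((C i).e j).1) y,
      fun i => (C i).c, a, b, fun i => ?_, fun i => hd _, fun i j => ((C i).e j).2,
      fun i => (C i).hc, fun i => (C i).rel, fun i => (C i).lin, hb⟩
    have := Fintype.card_le_of_injective _ (C i).he
    simp only [Fintype.card_fin] at this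
    exact this.trans (hcard _)
  right
  choose R hRe hRD hRs using hR
  let v : Fin (n + 1) → K := fun j => y i0 * D (y j / y i0)
  have hv0 : v i0 = 0 := by
    change y i0 * D (y i0 / y i0) = 0
    rw [div_self hi0, Derivation.map_one_eq_zero, mul_zero]
  refine ⟨R, v, hRe, hRs, hv0, ?_, ?_, ?_⟩
  · intro h0
    apply hD
    have h1 : ∀ j, D (y j / y i0) = 0 := fun j =>
      (mul_eq_zero.1 (congrFun h0 j)).resolve_left hi0
    refine Pool.Agent.W602.GT.der_eq_zero D {z | ∃ i j, y j ≠ 0 ∧ z = y i / y j} ?_ ?_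
    · exact hgen
    · rintro _ ⟨i, j, hj, rfl⟩
      have h2 : y i / y j = (y i / y i0) / (y j / y i0) := by
        field_simp
      rw [h2, div_eq_mul_inv, D.leibniz, D.leibniz_inv, h1, h1]
      simp
  · intro e j hj
    change lin (l e j) (fun j => y i0 * D (y j / y i0)) = 0
    rw [Pool.Agent.TH466.QG.lin_der, hj, zero_div, map_zero, mul_zero]
  · intro e i j hij
    have h2 := hRD e i j hij
    have hi := i.2
    have hj := j.2
    have hde : (d e : K) ≠ 0 := by exact_mod_cast (hd0 e).ne'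
    change D (lin (l e i.1) y ^ d e) * lin (l e j.1) y ^ d e =
      lin (l e i.1) y ^ d e * D (lin (l e j.1) y ^ d e) at h2
    have hpow : ∀ x : K, x ≠ 0 → D (x ^ d e) = d e * x ^ d e * (D x / x) := by
      intro x hx
      rw [D.leibniz_pow]
      obtain ⟨q, hq⟩ : ∃ q, d e = q + 1 := ⟨d e - 1, by have := hd0 e; omega⟩
      rw [hq]
      simp only [nsmul_eq_mul, smul_eq_mul, Nat.add_sub_cancel]
      field_simp
      ring
    rw [hpow _ hi, hpow _ hj] at h2
    have h3 : D (lin (l e i.1) y) / lin (l e i.1) y = D (lin (l e j.1) y) / lin (l e j.1) y := by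
      have h4 : (d e : K) * lin (l e i.1) y ^ d e * lin (l e j.1) y ^ d e ≠ 0 :=
        mul_ne_zero (mul_ne_zero hde (pow_ne_zero _ hi)) (pow_ne_zero _ hj)
      apply mul_left_cancel₀ h4
      linear_combination h2
    have h4 : D (lin (l e i.1) y) * lin (l e j.1) y = D (lin (l e j.1) y) * lin (l e i.1) y := by
      field_simp at h3
      linear_combination h3
    have h5 : ∀ L : Fin (n + 1) → k, lin L v =
        D (lin L y) - lin L y * (D (y i0) / y i0) := by
      intro L
      change lin L (fun j => y i0 * D (y j / y i0)) = _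
      rw [Pool.Agent.TH466.QG.lin_der, div_eq_mul_inv, D.leibniz, D.leibniz_inv]
      simp only [smul_eq_mul]
      field_simp
      ring
    rw [h5, h5]
    linear_combination h4

/-- the indices of the equations of a type -/
abbrev Idx (r : ι → ℕ) : Type := (Σ e, Fin (r e)) ⊕ (Σ e, Fin (r e) × Fin (r e))

/-- a linear form as a linear map -/
noncomputable def linL (K : Type) [Field K] [Algebra k K] (l : Fin (n + 1) → k) :
    (Fin (n + 1) → K) →ₗ[K] K := ∑ i, algebraMap k K (l i) • LinearMap.proj i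

theorem linL_apply {K : Type} [Field K] [Algebra k K] (l : Fin (n + 1) → k)
    (v : Fin (n + 1) → K) : linL K l v = lin l v := by
  unfold linL lin
  simp [LinearMap.sum_apply, Algebra.smul_def]

open Classical in
/-- the equations of a type at the point `y` -/
noncomputable def phiL {K : Type} [Field K] [Algebra k K] {r : ι → ℕ}
    (l : ∀ e, Fin (r e) → Fin (n + 1) → k) (τ : ∀ e, Fin (r e) × Fin (r e) → Prop)
    (y : Fin (n + 1) → K) : Idx r → (Fin (n + 1) → K) →ₗ[K] K
  | Sum.inl ⟨e, j⟩ => if τ e (j, j) then 0 else linL K (l e j)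
  | Sum.inr ⟨e, p⟩ => if τ e p then
      lin (l e p.2) y • linL K (l e p.1) - lin (l e p.1) y • linL K (l e p.2) else 0

/-- the minors of `(v, y)` -/
noncomputable def chiL {K : Type} [Field K] (y : Fin (n + 1) → K) (i0 m : Fin (n + 1)) :
    (Fin (n + 1) → K) →ₗ[K] K := y i0 • LinearMap.proj m - y m • LinearMap.proj i0

theorem chiL_apply {K : Type} [Field K] (y : Fin (n + 1) → K) (i0 m : Fin (n + 1))
    (v : Fin (n + 1) → K) : chiL y i0 m v = y i0 * v m - y m * v i0 := by
  simp [chiL]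

theorem phi_spec {K K'' : Type} [Field K] [Field K''] [Algebra k K] [Algebra k K'']
    (S : Sp k K K'') {r : ι → ℕ} (l : ∀ e, Fin (r e) → Fin (n + 1) → k)
    (τ : ∀ e, Fin (r e) × Fin (r e) → Prop) {y : Fin (n + 1) → K} {y' : Fin (n + 1) → K''}
    (hy : ∀ i, S.T (y i) (y' i)) (a : Idx r) (q : Fin (n + 1)) :
    S.T (phiL l τ y a (Pi.single q 1)) (phiL l τ y' a (Pi.single q 1)) := by
  classical
  have hs : ∀ i : Fin (n + 1), S.T ((Pi.single q 1 : Fin (n + 1) → K) i)
      ((Pi.single q 1 : Fin (n + 1) → K'') i) := by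
    intro i
    by_cases h : i = q
    · subst h
      simpa using S.one
    · simpa [h] using S.zero
  rcases a with ⟨e, j⟩ | ⟨e, p⟩
  · simp only [phiL]
    split_ifs
    · exact S.zero
    · rw [linL_apply, linL_apply]
      exact S.lin hs _
  · simp only [phiL]
    split_ifs
    · simp only [LinearMap.sub_apply, LinearMap.smul_apply, smul_eq_mul, linL_apply]
      exact S.sub (S.mul (S.lin hy _) (S.lin hs _)) (S.mul (S.lin hy _) (S.lin hs _))
    · exact S.zero

theorem chi_spec {K K'' : Type} [Field K] [Field K''] [Algebra k K] [Algebra k K'']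
    (S : Sp k K K'') {y : Fin (n + 1) → K} {y' : Fin (n + 1) → K''}
    (hy : ∀ i, S.T (y i) (y' i)) (i0 m q : Fin (n + 1)) :
    S.T (chiL y i0 m (Pi.single q 1)) (chiL y' i0 m (Pi.single q 1)) := by
  have hs : ∀ i : Fin (n + 1), S.T ((Pi.single q 1 : Fin (n + 1) → K) i)
      ((Pi.single q 1 : Fin (n + 1) → K'') i) := by
    intro i
    by_cases h : i = q
    · subst h
      simpa using S.one
    · simpa [h] using S.zero
  rw [chiL_apply, chiL_apply]
  exact S.sub (S.mul (hy _) (hs _)) (S.mul (hy _) (hs _))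

variable [CharZero k] [IsAlgClosed k]

/-- openness for sums of powers of linear forms -/
theorem open_waring [Finite ι] {F : ι → MvPolynomial (Fin (n + 1)) k} {s N : ℕ}
    (hF : ∀ e, IsPowSum s N (F e)) (hN1 : 1 ≤ N) {K : Type} [Field K] [Algebra k K] {w : ℕ}
    {y : Fin (n + 1) → K} (hy : SubVar F K w y) (hcomp : IsComponent F y) (hR : ¬ Ruled k K) :
    ∃ Θ : Set K, Θ.Finite ∧ ∀ (K'' : Type) [Field K''] [Algebra k K''] (S : Sp k K K''),
      (∀ ϑ ∈ Θ, ∃ z, S.T ϑ z) → ∀ y' : Fin (n + 1) → K'', (∀ i, S.T (y i) (y' i)) →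
      ∀ w' : ℕ, Algebra.trdeg k K'' = w' → Algebra.IsAlgebraic (coords k y') K'' →
      HasCirc k s N w' K'' := by
  classical
  cases nonempty_fintype ι
  choose r d l hr hd hFe using hF
  have hd0 : ∀ e, 0 < d e := fun e => lt_of_lt_of_le hN1 (hd e)
  obtain ⟨i0, hi0'⟩ := Function.ne_iff.1 hy.ne
  have hi0 : y i0 ≠ 0 := hi0'
  have hvalM : ∀ (M : Type) [Field M] [Algebra k M] (x : Fin (n + 1) → M) e,
      val x (F e) = ∑ j, lin (l e j) x ^ d e := by
    intro M _ _ x e
    unfold Pool.Agent.W602.GT.val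
    rw [hFe e, map_sum]
    refine Finset.sum_congr rfl fun j _ => ?_
    rw [map_pow, map_sum]
    simp only [map_mul, MvPolynomial.aeval_C, MvPolynomial.aeval_X]
    rfl
  let Ty : Type := ∀ e, Fin (r e) × Fin (r e) → Prop
  -- the coefficients
  have hco : ∀ τ : Ty, ∃ c : Fin (n + 1) → Idx r → K,
      (∀ m v, (∀ a, phiL l τ y a v = 0) → chiL y i0 m v = 0) →
      ∀ m, ∑ a, c m a • phiL l τ y a = chiL y i0 m := by
    intro τ
    by_cases h : ∀ m v, (∀ a, phiL l τ y a v = 0) → chiL y i0 m v = 0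
    · choose c hc using fun m => span_of_ker (phiL l τ y) (chiL y i0 m) (h m)
      exact ⟨c, fun _ => hc⟩
    · exact ⟨fun _ _ => 0, fun h' => absurd h' h⟩
  choose c hc using hco
  refine ⟨(⋃ τ : Ty, ⋃ m : Fin (n + 1), Set.range (c τ m)) ∪
    ((⋃ e, Set.range fun j => (lin (l e j) y)⁻¹) ∪
    ((⋃ e, Set.range fun A : Finset (Fin (r e)) => (∑ j ∈ A, lin (l e j) y ^ d e)⁻¹) ∪
    {(y i0)⁻¹})), ?_, ?_⟩
  · refine Set.Finite.union ?_ (Set.Finite.union ?_ (Set.Finite.union ?_ (Set.finite_singleton _)))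
    · exact Set.finite_iUnion fun τ => Set.finite_iUnion fun m => Set.finite_range _
    · exact Set.finite_iUnion fun e => Set.finite_range _
    · exact Set.finite_iUnion fun e => Set.finite_range _
  intro K'' _ _ S hS y' hyS w' htr hgen
  have hS1 : ∀ (τ : Ty) m a, ∃ z, S.T (c τ m a) z := fun τ m a =>
    hS _ (Or.inl (Set.mem_iUnion.2 ⟨τ, Set.mem_iUnion.2 ⟨m, a, rfl⟩⟩))
  have hS2 : ∀ e j, ∃ z, S.T (lin (l e j) y)⁻¹ z := fun e j =>
    hS _ (Or.inr (Or.inl (Set.mem_iUnion.2 ⟨e, j, rfl⟩)))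
  have hS3 : ∀ e (A : Finset (Fin (r e))), ∃ z, S.T (∑ j ∈ A, lin (l e j) y ^ d e)⁻¹ z :=
    fun e A => hS _ (Or.inr (Or.inr (Or.inl (Set.mem_iUnion.2 ⟨e, A, rfl⟩))))
  have hS4 : ∃ z, S.T (y i0)⁻¹ z := hS _ (Or.inr (Or.inr (Or.inr rfl)))
  have hi0' : y' i0 ≠ 0 := S.ne_zero (hyS i0) hS4 hi0
  have hback : ∀ e j, lin (l e j) y' = 0 → lin (l e j) y = 0 := fun e j h =>
    S.back (S.lin hyS _) (hS2 e j) h
  have hforw : ∀ e j, lin (l e j) y' ≠ 0 → lin (l e j) y ≠ 0 := fun e j h h0 =>
    h (S.eq_zero (S.lin hyS _) h0)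
  have hyF : ∀ e, ∑ j, lin (l e j) y' ^ d e = 0 := by
    intro e
    have h1 := S.sum Finset.univ (f := fun j => lin (l e j) y ^ d e)
      (f' := fun j => lin (l e j) y' ^ d e) fun j _ => S.pow (S.lin hyS _) _
    refine S.eq_zero h1 ?_
    rw [← hvalM]
    exact hy.mem e
  rcases waring_dich hr hd hN1 htr hgen hyF hi0' with h | ⟨R, v, hRe, hRs, hv0, hv, hZ, hQ⟩
  · exact h
  exfalso
  let τ : Ty := fun e p => ∃ (h1 : lin (l e p.1) y' ≠ 0) (h2 : lin (l e p.2) y' ≠ 0),
    R e ⟨p.1, h1⟩ ⟨p.2, h2⟩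
  have hτd : ∀ e j, τ e (j, j) ↔ lin (l e j) y' ≠ 0 := fun e j =>
    ⟨fun h => h.1, fun h => ⟨h, h, (hRe e).refl _⟩⟩
  -- the type is good
  have hgood : ∀ m u, (∀ a, phiL l τ y a u = 0) → chiL y i0 m u = 0 := by
    by_contra hcon
    push Not at hcon
    obtain ⟨m, u, hu, hm⟩ := hcon
    apply hR
    have huZ : ∀ e j, lin (l e j) y' = 0 → lin (l e j) u = 0 := by
      intro e j hj
      have h1 := hu (Sum.inl ⟨e, j⟩)
      simp only [phiL] at h1
      rw [if_neg (fun h => (hτd e j).1 h hj), linL_apply] at h1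
      exact h1
    have huQ : ∀ e i j, τ e (i, j) → lin (l e j) y * lin (l e i) u =
        lin (l e i) y * lin (l e j) u := by
      intro e i j hij
      have h1 := hu (Sum.inr ⟨e, (i, j)⟩)
      simp only [phiL] at h1
      rw [if_pos hij] at h1
      simp only [LinearMap.sub_apply, LinearMap.smul_apply, smul_eq_mul, linL_apply] at h1
      exact sub_eq_zero.1 h1
    let v0 : Fin (n + 1) → K := fun i => 1 * u i + (-(u i0 / y i0)) * y i
    have hv0l : ∀ L : Fin (n + 1) → k, lin L v0 = lin L u - u i0 / y i0 * lin L y := by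
      intro L
      simp only [v0]
      rw [lin_add_smul]
      ring
    refine flow_of_vec hy hcomp (i0 := i0) (j0 := m) hi0 v0 ?_ ?_
      {z | ∃ e j, lin (l e j) y' = 0 ∧ z = l e j}
      {p | ∃ e i j, τ e (i, j) ∧ p = (l e i, l e j)} ?_ ?_ ?_ ?_ ?_
    · simp only [v0]
      field_simp
      ring
    · intro h0
      apply hm
      rw [chiL_apply]
      simp only [v0] at h0
      field_simp at h0
      linear_combination h0
    · rintro _ ⟨e, j, hj, rfl⟩
      exact hback e j hj
    · rintro _ ⟨e, j, hj, rfl⟩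
      rw [hv0l, huZ e j hj, hback e j hj]
      ring
    · rintro _ ⟨e, i, j, ⟨h1, h2, -⟩, rfl⟩
      exact ⟨hforw _ _ h1, hforw _ _ h2⟩
    · rintro _ ⟨e, i, j, hij, rfl⟩
      have h1 : lin (l e i) y ≠ 0 := hforw _ _ hij.1
      have h2 : lin (l e j) y ≠ 0 := hforw _ _ hij.2.1
      have h3 := huQ e i j hij
      simp only
      rw [hv0l, hv0l]
      field_simp
      linear_combination (y i0) * h3
    · intro M _ _ _ _ x hxZ hxQ e
      rw [hvalM]
      have hcl : ∀ (j0 : {j // lin (l e j) y' ≠ 0}) (A : Finset {j // lin (l e j) y' ≠ 0}),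
          (∀ j, j ∈ A ↔ R e j0 j) → ∑ j ∈ A, lin (l e j.1) y ^ d e = 0 := by
        intro j0 A hA
        have h1 := hRs e j0 A hA
        have h2 : ∀ (M : Type) [Field M] [Algebra k M] (x : Fin (n + 1) → M),
            ∑ j ∈ A, lin (l e j.1) x ^ d e =
              ∑ j ∈ A.map (Function.Embedding.subtype _), lin (l e j) x ^ d e := by
          intro M _ _ x
          rw [Finset.sum_map]
          rfl
        rw [h2] at h1 ⊢
        refine S.back ?_ (hS3 e _) h1
        exact S.sum _ fun j _ => S.pow (S.lin hyS _) _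
      have hx0 : ∀ j, lin (l e j) y' = 0 → lin (l e j) x = 0 := fun j hj =>
        hxZ _ ⟨e, j, hj, rfl⟩
      have h0 : ∑ j, lin (l e j) x ^ d e =
          ∑ j : {j // lin (l e j) y' ≠ 0}, lin (l e j.1) x ^ d e := by
        rw [← Finset.sum_subtype (Finset.univ.filter fun j => lin (l e j) y' ≠ 0) (by simp)
          (fun j => lin (l e j) x ^ d e), Finset.sum_filter_of_ne]
        intro j _ hj hj0
        exact hj (by rw [hx0 j hj0, zero_pow (hd0 e).ne'])
      rw [h0]
      have hy0 : ∀ j : {j // lin (l e j) y' ≠ 0}, algebraMap K M (lin (l e j.1) y) ≠ 0 := by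
        intro j
        rw [Ne, map_eq_zero]
        exact hforw _ _ j.2
      have h1 := weighted_sum (R e) (hRe e) (fun j : {j // lin (l e j) y' ≠ 0} =>
          algebraMap K M (lin (l e j.1) y ^ d e))
        (fun j => (lin (l e j.1) x / algebraMap K M (lin (l e j.1) y)) ^ d e)
        (fun i j hij => by
          have h2 := hxQ (l e i.1, l e j.1) ⟨e, i.1, j.1, ⟨i.2, j.2, hij⟩, rfl⟩
          simp only at h2
          rw [map_div₀] at h2
          have := hy0 i
          have := hy0 j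
          congr 1
          rw [h2]
          field_simp)
        (fun j0 A hA => by
          rw [← map_sum, hcl j0 A hA, map_zero])
      refine Eq.trans (Finset.sum_congr rfl fun j _ => ?_) h1
      have := hy0 j
      rw [map_pow, ← mul_pow]
      congr 1
      field_simp
  -- the contradiction
  apply hv
  funext m
  have h1 := comb_spec S (phiL l τ y) (chiL y i0 m) (phiL l τ y') (chiL y' i0 m)
    (phi_spec S l τ hyS) (chi_spec S hyS i0 m) (hc τ hgood m) (hS1 τ m) (v := v) ?_
  · rw [chiL_apply, hv0, mul_zero, sub_zero] at h1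
    exact (mul_eq_zero.1 h1).resolve_left hi0'
  · rintro (⟨e, j⟩ | ⟨e, i, j⟩)
    · simp only [phiL]
      split_ifs with h
      · rfl
      · rw [linL_apply]
        exact hZ e j (not_not.1 fun h0 => h ((hτd e j).2 h0))
    · simp only [phiL]
      split_ifs with h
      · obtain ⟨h1, h2, h3⟩ := h
        simp only [LinearMap.sub_apply, LinearMap.smul_apply, smul_eq_mul, linL_apply]
        have := hQ e ⟨i, h1⟩ ⟨j, h2⟩ h3
        simp only at this
        linear_combination this
      · rfl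

/-- a component which is invariant under a one-parameter group of diagonal matrices is ruled -/
theorem ruled_of_weights {F : ι → MvPolynomial (Fin (n + 1)) k}
    {K : Type} [Field K] [Algebra k K] {w : ℕ}
    {y : Fin (n + 1) → K} (hy : SubVar F K w y) (hcomp : IsComponent F y)
    {b : Fin (n + 1) → ℤ} {i i' : Fin (n + 1)} (hi : y i ≠ 0) (hi' : y i' ≠ 0) (hb : b i ≠ b i')
    (hwc : ∀ e v, val y (wc b v (F e)) = 0) : Ruled k K := by
  have hyU : SubVarU ∅ F K w y :=
    ⟨hy.ne, fun j hj => absurd hj (Set.notMem_empty j), hy.mem, hy.gen, hy.dim⟩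
  have hcompU : IsComponentU ∅ F y := by
    obtain ⟨H, hH, hHy, hcone⟩ := hcomp
    exact ⟨H, hH, hHy, fun x hx hxH => hcone x (mem_cone_empty hx) hxH⟩
  obtain ⟨δ, σ, -, -, hσ0, hσ, htop, -⟩ := exists_delta hy.gen b hi hi' hb
    (fun G hG h0 v => ideal_hom hyU hcompU hwc G hG h0 v)
  refine ⟨consts δ, σ, ?_, htop⟩
  intro halg
  have h1 : Algebra.IsAlgebraic (consts δ) K := by
    have h2 : Algebra.IsAlgebraic (consts δ) (consts δ)⟮σ⟯ :=
      IntermediateField.isAlgebraic_adjoin_simple halg.isIntegral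
    constructor
    intro z
    have h3 := h2.isAlgebraic (⟨z, by rw [htop]; exact IntermediateField.mem_top⟩ : (consts δ)⟮σ⟯)
    exact h3.algebraMap (A := K)
  have h2 : Algebra.IsAlgebraic (IntermediateField.adjoin k (consts δ : Set K)) K := by
    rw [IntermediateField.adjoin_self]
    exact h1
  have h3 := der_eq_zero δ _ h2 (fun s hs => hs)
  rw [h3] at hσ
  exact hσ0 hσ.symm

/-- openness for sums of few monomials -/
theorem open_sparse [Finite ι] {F : ι → MvPolynomial (Fin (n + 1)) k} {s N : ℕ}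
    (hF : ∀ e, IsPowSparse ∅ s N (F e)) {K : Type} [Field K] [Algebra k K] {w : ℕ}
    {y : Fin (n + 1) → K} (hy : SubVar F K w y) (hcomp : IsComponent F y) (hR : ¬ Ruled k K) :
    ∃ Θ : Set K, Θ.Finite ∧ ∀ (K'' : Type) [Field K''] [Algebra k K''] (S : Sp k K K''),
      (∀ ϑ ∈ Θ, ∃ z, S.T ϑ z) → ∀ y' : Fin (n + 1) → K'', (∀ i, S.T (y i) (y' i)) →
      ∀ w' : ℕ, Algebra.trdeg k K'' = w' → Algebra.IsAlgebraic (coords k y') K'' →
      HasCirc k s N w' K'' := by
  classical
  refine ⟨⋃ e, Set.range fun A : (F e).support.powerset =>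
    (∑ α ∈ A.1, algebraMap k K ((F e).coeff α) * ∏ j, y j ^ α j)⁻¹,
    Set.finite_iUnion fun e => Set.finite_range _, ?_⟩
  intro K'' _ _ S hS y' hyS w' htr hgen
  have hS1 : ∀ e (A : Finset (Fin (n + 1) →₀ ℕ)), A ⊆ (F e).support →
      ∃ z, S.T (∑ α ∈ A, algebraMap k K ((F e).coeff α) * ∏ j, y j ^ α j)⁻¹ z := fun e A hA =>
    hS _ (Set.mem_iUnion.2 ⟨e, ⟨A, Finset.mem_powerset.2 hA⟩, rfl⟩)
  have hyF : ∀ e, val y' (F e) = 0 := fun e => S.eq_zero (S.val hyS _) (hy.mem e)
  rcases sparse_circ hF htr hgen hyF with h | ⟨b, i, i', hi, hi', hb, hwc⟩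
  · exact h
  exfalso
  apply hR
  refine ruled_of_weights hy hcomp (i := i) (i' := i')
    (fun h0 => hi (S.eq_zero (hyS i) h0)) (fun h0 => hi' (S.eq_zero (hyS i') h0)) hb
    fun e v => ?_
  have h1 := hwc e v
  rw [val_wc] at h1 ⊢
  refine S.back ?_ (hS1 e _ (Finset.filter_subset _ _)) h1
  exact S.sum _ fun α _ => S.mul (S.const _) (S.prod _ fun i _ => S.pow (hyS i) _)

/-- **Openness.** -/
theorem open_circ [Finite ι] {F : ι → MvPolynomial (Fin (n + 1)) k} {s N : ℕ}
    (hF : HighPowers s N F) (hN1 : 1 ≤ N) {K : Type} [Field K] [Algebra k K] {w : ℕ}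
    {y : Fin (n + 1) → K} (hy : SubVar F K w y) (hcomp : IsComponent F y) (hR : ¬ Ruled k K) :
    ∃ Θ : Set K, Θ.Finite ∧ ∀ (K'' : Type) [Field K''] [Algebra k K''] (S : Sp k K K''),
      (∀ ϑ ∈ Θ, ∃ z, S.T ϑ z) → ∀ y' : Fin (n + 1) → K'', (∀ i, S.T (y i) (y' i)) →
      ∀ w' : ℕ, Algebra.trdeg k K'' = w' → Algebra.IsAlgebraic (coords k y') K'' →
      HasCirc k s N w' K'' := by
  rcases hF with h | h
  · exact open_waring h hN1 hy hcomp hR
  · exact open_sparse h hy hcomp hR

end Pool.Agent.TH466.QG
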