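import Pool.Agent.TH466.QG.Open

/-!
Spreading out: specializations of a function field extend to a finite extension, with the degree
bounded, off a proper closed subset.
-/

set_option autoImplicit false
set_option linter.overlappingInstances false
set_option linter.unusedSectionVars false

open FF IntermediateField Polynomial

namespace Pool.Agent.TH466.QG

open Pool.Agent.W602.GT

section graph

variable {k L E : Type} [Field k] [Field L] [Field E] [Algebra k L] [Algebra k E] {σ : Type}

/-- the graph of the specialization `x ↦ z` of the coordinates -/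
def graph (k : Type) [Field k] {L E : Type} [Field L] [Field E] [Algebra k L] [Algebra k E]
    {σ : Type} (x : σ → L) (z : σ → E) : Subalgebra k (L × E) where
  carrier := {p | ∃ G H : MvPolynomial σ k, MvPolynomial.aeval x H ≠ 0 ∧
    MvPolynomial.aeval z H ≠ 0 ∧ p.1 * MvPolynomial.aeval x H = MvPolynomial.aeval x G ∧
    p.2 * MvPolynomial.aeval z H = MvPolynomial.aeval z G}
  mul_mem' := by
    rintro p q ⟨G, H, h1, h2, h3, h4⟩ ⟨G', H', h1', h2', h3', h4'⟩
    refine ⟨G * G', H * H', ?_, ?_, ?_, ?_⟩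
    · rw [map_mul]; exact mul_ne_zero h1 h1'
    · rw [map_mul]; exact mul_ne_zero h2 h2'
    · rw [map_mul, map_mul, ← h3, ← h3', Prod.fst_mul]; ring
    · rw [map_mul, map_mul, ← h4, ← h4', Prod.snd_mul]; ring
  add_mem' := by
    rintro p q ⟨G, H, h1, h2, h3, h4⟩ ⟨G', H', h1', h2', h3', h4'⟩
    refine ⟨G * H' + G' * H, H * H', ?_, ?_, ?_, ?_⟩
    · rw [map_mul]; exact mul_ne_zero h1 h1'
    · rw [map_mul]; exact mul_ne_zero h2 h2'
    · rw [map_add, map_mul, map_mul, map_mul, ← h3, ← h3', Prod.fst_add]; ring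
    · rw [map_add, map_mul, map_mul, map_mul, ← h4, ← h4', Prod.snd_add]; ring
  algebraMap_mem' := by
    intro c
    refine ⟨MvPolynomial.C c, 1, ?_, ?_, ?_, ?_⟩
    · rw [map_one]; exact one_ne_zero
    · rw [map_one]; exact one_ne_zero
    · rw [map_one, mul_one, MvPolynomial.aeval_C]; rfl
    · rw [map_one, mul_one, MvPolynomial.aeval_C]; rfl

/-- common denominators -/
theorem exists_den {x : σ → L} (hx : IntermediateField.adjoin k (Set.range x) = ⊤) {S : Set L}
    (hS : S.Finite) : ∃ H : MvPolynomial σ k, MvPolynomial.aeval x H ≠ 0 ∧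
      ∀ a ∈ S, ∃ G : MvPolynomial σ k, a * MvPolynomial.aeval x H = MvPolynomial.aeval x G := by
  induction S, hS using Set.Finite.induction_on with
  | empty =>
    refine ⟨1, ?_, fun a ha => absurd ha (Set.notMem_empty a)⟩
    rw [map_one]
    exact one_ne_zero
  | @insert b S _ _ ih =>
    obtain ⟨H, hH, hG⟩ := ih
    have hb : b ∈ IntermediateField.adjoin k (Set.range x) := by
      rw [hx]
      exact IntermediateField.mem_top
    obtain ⟨G0, H0, h0⟩ := (IntermediateField.mem_adjoin_range_iff k x b).1 hb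
    by_cases hH0 : MvPolynomial.aeval x H0 = 0
    · have hb0 : b = 0 := by rw [h0, hH0, div_zero]
      refine ⟨H, hH, fun a ha => ?_⟩
      rcases ha with rfl | ha
      · exact ⟨0, by rw [hb0, zero_mul, map_zero]⟩
      · exact hG a ha
    · refine ⟨H * H0, by rw [map_mul]; exact mul_ne_zero hH hH0, fun a ha => ?_⟩
      rcases ha with rfl | ha
      · refine ⟨G0 * H, ?_⟩
        rw [map_mul, map_mul, h0]
        field_simp
      · obtain ⟨G, hG'⟩ := hG a ha
        refine ⟨G * H0, ?_⟩
        rw [map_mul, map_mul, ← hG']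
        ring

end graph

/-- extension of a specialization to a finite extension -/
theorem ext_step {k L E K' B : Type} [Field k] [Field L] [Field E] [Field K'] [CommRing B]
    [Algebra k L] [Algebra k E] [Algebra k K'] [Algebra k B] [Algebra L K']
    [IsScalarTower k L K'] (α : B →ₐ[k] L) (β : B →ₐ[k] E) (hker : ∀ b, α b = 0 → β b = 0)
    {θ : K'} (hθ : IsIntegral L θ) (hco : ∀ i, (minpoly L θ).coeff i ∈ Set.range α) :
    ∃ (K'' : Type) (_ : Field K'') (_ : Algebra k K'') (_ : Algebra E K'')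
      (_ : IsScalarTower k E K'') (_ : FiniteDimensional E K''),
      Module.finrank E K'' ≤ (minpoly L θ).natDegree ∧ ∃ S : Sp k K' K'',
        (∀ b, S.T (algebraMap L K' (α b)) (algebraMap E K'' (β b))) ∧ ∃ t, S.T θ t := by
  have hBnt : Nontrivial B := α.toRingHom.domain_nontrivial
  obtain ⟨f, hf, hfd, hfm⟩ := Polynomial.lifts_and_natDegree_eq_and_monic (f := (α : B →+* L))
    ((Polynomial.lifts_iff_coeff_lifts _).2 hco) (minpoly.monic hθ)
  have hdeg : (f.map (β : B →+* E)).natDegree = (minpoly L θ).natDegree := by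
    rw [hfm.natDegree_map, hfd]
  obtain ⟨g, hg, hgf⟩ := Polynomial.exists_irreducible_of_natDegree_ne_zero
    (f := f.map (β : B →+* E)) (by rw [hdeg]; exact (minpoly.natDegree_pos hθ).ne')
  have hfact : Fact (Irreducible g) := ⟨hg⟩
  have hfin : FiniteDimensional E (AdjoinRoot g) := (AdjoinRoot.powerBasis hg.ne_zero).finite
  have hrank : Module.finrank E (AdjoinRoot g) = g.natDegree := by
    rw [(AdjoinRoot.powerBasis hg.ne_zero).finrank, AdjoinRoot.powerBasis_dim]
  have hroot : Polynomial.aeval (AdjoinRoot.root g) (f.map (β : B →+* E)) = 0 := by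
    obtain ⟨q, hq⟩ := hgf
    rw [hq, map_mul, AdjoinRoot.aeval_eq, AdjoinRoot.mk_self, zero_mul]
  let j : B[X] →ₐ[k] K' := Polynomial.eval₂AlgHom ((IsScalarTower.toAlgHom k L K').comp α) θ
    (fun _ => Commute.all _ _)
  let ψ : B[X] →ₐ[k] AdjoinRoot g := Polynomial.eval₂AlgHom
    ((IsScalarTower.toAlgHom k E (AdjoinRoot g)).comp β) (AdjoinRoot.root g)
    (fun _ => Commute.all _ _)
  have hj : ∀ P : B[X], j P = Polynomial.aeval θ (P.map (α : B →+* L)) := by
    intro P
    rw [Polynomial.aeval_def, Polynomial.eval₂_map]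
    rfl
  have hψ : ∀ P : B[X], ψ P = Polynomial.aeval (AdjoinRoot.root g) (P.map (β : B →+* E)) := by
    intro P
    rw [Polynomial.aeval_def, Polynomial.eval₂_map]
    rfl
  have hkerj : ∀ P, j P = 0 → ψ P = 0 := by
    intro P hP
    have h1 := Polynomial.modByMonic_add_div P f
    rw [← h1, map_add, map_mul] at hP ⊢
    have h2 : j f = 0 := by
      rw [hj, hf, minpoly.aeval]
    have h3 : ψ f = 0 := by rw [hψ]; exact hroot
    rw [h2, zero_mul, add_zero, hj] at hP
    rw [h3, zero_mul, add_zero, hψ]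
    have h4 : (P %ₘ f).map (α : B →+* L) = 0 := by
      by_contra h0
      have h5 := minpoly.degree_le_of_ne_zero L θ h0 hP
      have h6 : ((P %ₘ f).map (α : B →+* L)).degree < (minpoly L θ).degree := by
        refine lt_of_le_of_lt Polynomial.degree_map_le ?_
        refine lt_of_lt_of_le (Polynomial.degree_modByMonic_lt P hfm) ?_
        rw [Polynomial.degree_eq_natDegree hfm.ne_zero,
          Polynomial.degree_eq_natDegree (minpoly.monic hθ).ne_zero, hfd]
      exact absurd h5 (not_le_of_gt h6)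
    have h5 : (P %ₘ f).map (β : B →+* E) = 0 := by
      ext i
      rw [Polynomial.coeff_map, Polynomial.coeff_zero]
      apply hker
      have := congrArg (fun p => Polynomial.coeff p i) h4
      simpa using this
    rw [h5, map_zero]
  refine ⟨AdjoinRoot g, inferInstance, inferInstance, inferInstance, inferInstance, hfin, ?_,
    Sp.ofHom j ψ hkerj, ?_, ?_⟩
  · rw [hrank, ← hdeg]
    refine Polynomial.natDegree_le_of_dvd hgf ?_
    exact (hfm.map _).ne_zero
  · intro b
    refine ⟨Polynomial.C b, ?_, ?_⟩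
    · rw [hj, Polynomial.map_C, Polynomial.aeval_C]
      rfl
    · rw [hψ, Polynomial.map_C, Polynomial.aeval_C]
      rfl
  · refine ⟨ψ Polynomial.X, Polynomial.X, ?_, rfl⟩
    rw [hj, Polynomial.map_X, Polynomial.aeval_X]

/-- **Spreading out.** -/
theorem spread {k L K' : Type} [Field k] [CharZero k] [Field L] [Field K'] [Algebra k L]
    [Algebra k K'] [Algebra L K'] [IsScalarTower k L K'] [FiniteDimensional L K'] {σ : Type}
    {x : σ → L} (hx : IntermediateField.adjoin k (Set.range x) = ⊤) {Θ : Set K'}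
    (hΘ : Θ.Finite) : ∃ H : MvPolynomial σ k, MvPolynomial.aeval x H ≠ 0 ∧
      ∀ (E : Type) [Field E] [Algebra k E] (z : σ → E),
        (∀ G : MvPolynomial σ k, MvPolynomial.aeval x G = 0 → MvPolynomial.aeval z G = 0) →
        MvPolynomial.aeval z H ≠ 0 →
        ∃ (K'' : Type) (_ : Field K'') (_ : Algebra k K'') (_ : Algebra E K'')
          (_ : IsScalarTower k E K'') (_ : FiniteDimensional E K''),
          Module.finrank E K'' ≤ Module.finrank L K' ∧ ∃ S : Sp k K' K'',
            (∀ i, S.T (algebraMap L K' (x i)) (algebraMap E K'' (z i))) ∧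
            ∀ ϑ ∈ Θ, ∃ t, S.T ϑ t := by
  classical
  have hcL : CharZero L := charZero_of_injective_algebraMap (algebraMap k L).injective
  obtain ⟨θ, hθ⟩ := Field.exists_primitive_element L K'
  have hθi : IsIntegral L θ := Algebra.IsIntegral.isIntegral θ
  have hrep : ∀ ϑ : K', ∃ p : L[X], Polynomial.aeval θ p = ϑ := by
    intro ϑ
    have h1 : ϑ ∈ (L⟮θ⟯).toSubalgebra := by
      rw [hθ]
      exact IntermediateField.mem_top
    rw [IntermediateField.adjoin_simple_toSubalgebra_of_isAlgebraic hθi.isAlgebraic] at h1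
    rw [Algebra.adjoin_singleton_eq_range_aeval] at h1
    exact h1
  choose p hp using hrep
  have hfinS : ((↑(minpoly L θ).coeffs : Set L) ∪ ⋃ ϑ ∈ Θ, (↑(p ϑ).coeffs : Set L)).Finite := by
    refine (Finset.finite_toSet _).union (hΘ.biUnion fun ϑ _ => Finset.finite_toSet _)
  obtain ⟨H, hH, hG⟩ := exists_den hx hfinS
  refine ⟨H, hH, fun E _ _ z hz hzH => ?_⟩
  let α : graph k x z →ₐ[k] L := (AlgHom.fst k L E).comp (graph k x z).val
  let β : graph k x z →ₐ[k] E := (AlgHom.snd k L E).comp (graph k x z).val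
  have hker : ∀ b, α b = 0 → β b = 0 := by
    rintro ⟨⟨a, a'⟩, G, H', h1, h2, h3, h4⟩ h0
    change a = 0 at h0
    change a' = 0
    simp only at h3 h4
    rw [h0, zero_mul] at h3
    rw [hz G h3.symm] at h4
    exact (mul_eq_zero.1 h4).resolve_right h2
  have hr0 : ∀ G : MvPolynomial σ k, ∀ a : L,
      a * MvPolynomial.aeval x H = MvPolynomial.aeval x G → a ∈ Set.range α := by
    intro G a ha
    refine ⟨⟨(a, MvPolynomial.aeval z G / MvPolynomial.aeval z H), G, H, hH, hzH, ha, ?_⟩, rfl⟩
    exact div_mul_cancel₀ _ hzH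
  have hrange : ∀ q : L[X], (∀ c ∈ q.coeffs, ∃ G : MvPolynomial σ k,
      c * MvPolynomial.aeval x H = MvPolynomial.aeval x G) → ∀ i, q.coeff i ∈ Set.range α := by
    intro q hq i
    by_cases h0 : q.coeff i = 0
    · rw [h0]
      exact ⟨0, map_zero α⟩
    · obtain ⟨G, hG'⟩ := hq _ (Polynomial.coeff_mem_coeffs h0)
      exact hr0 G _ hG'
  obtain ⟨K'', i1, i2, i3, i4, i5, hrk, S, hS1, hS2⟩ := ext_step α β hker hθi
    (hrange _ fun c hc => hG c (Or.inl hc))
  refine ⟨K'', i1, i2, i3, i4, i5, ?_, S, ?_, ?_⟩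
  · refine hrk.trans ?_
    rw [← IntermediateField.adjoin.finrank hθi, hθ, IntermediateField.finrank_top']
  · intro i
    have h1 : α ⟨(x i, z i), MvPolynomial.X i, 1, by rw [map_one]; exact one_ne_zero, by
      rw [map_one]; exact one_ne_zero, by simp, by simp⟩ = x i := rfl
    have h2 := hS1 ⟨(x i, z i), MvPolynomial.X i, 1, by rw [map_one]; exact one_ne_zero, by
      rw [map_one]; exact one_ne_zero, by simp, by simp⟩
    exact h2
  · intro ϑ hϑ
    obtain ⟨t, ht⟩ := hS2
    have h1 : ∀ i, ∃ u, S.T (algebraMap L K' ((p ϑ).coeff i)) u := by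
      intro i
      obtain ⟨b, hb⟩ := hrange (p ϑ) (fun c hc => hG c (Or.inr (Set.mem_biUnion hϑ hc))) i
      exact ⟨_, by rw [← hb]; exact hS1 b⟩
    choose u hu using h1
    refine ⟨∑ i ∈ Finset.range ((p ϑ).natDegree + 1), u i * t ^ i, ?_⟩
    have h2 : ϑ = ∑ i ∈ Finset.range ((p ϑ).natDegree + 1),
        algebraMap L K' ((p ϑ).coeff i) * θ ^ i := by
      conv_lhs => rw [← hp ϑ, Polynomial.aeval_eq_sum_range]
      simp only [Algebra.smul_def]
    have h3 := S.sum (Finset.range ((p ϑ).natDegree + 1)) (fun i _ => S.mul (hu i) (S.pow ht i))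
    rw [← h2] at h3
    exact h3

end Pool.Agent.TH466.QG
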