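import Pool.Agent.TH466.QG.Flow

/-!
Specializations of fields, as relations.
-/

set_option autoImplicit false
set_option linter.overlappingInstances false
set_option linter.unusedSectionVars false

open FF IntermediateField Pool.Agent.W603.LV

namespace Pool.Agent.TH466.QG

open Pool.Agent.W602.GT

/-- a specialization of `K` in `K''` (a homomorphism of a subring of `K`, as a relation) -/
structure Sp (k K K'' : Type) [Field k] [Field K] [Field K''] [Algebra k K] [Algebra k K''] where
  T : K → K'' → Prop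
  add : ∀ {x y : K} {x' y' : K''}, T x x' → T y y' → T (x + y) (x' + y')
  mul : ∀ {x y : K} {x' y' : K''}, T x x' → T y y' → T (x * y) (x' * y')
  const : ∀ c : k, T (algebraMap k K c) (algebraMap k K'' c)
  uniq : ∀ {x' : K''}, T 0 x' → x' = 0

namespace Sp

variable {k K K'' : Type} [Field k] [Field K] [Field K''] [Algebra k K] [Algebra k K'']
  (S : Sp k K K'')

theorem zero : S.T 0 0 := by simpa using S.const 0

theorem one : S.T 1 1 := by simpa using S.const 1

theorem neg {x : K} {x' : K''} (h : S.T x x') : S.T (-x) (-x') := by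
  have := S.mul (S.const (-1)) h
  simpa using this

theorem sub {x y : K} {x' y' : K''} (h : S.T x x') (h' : S.T y y') : S.T (x - y) (x' - y') := by
  rw [sub_eq_add_neg, sub_eq_add_neg]
  exact S.add h (S.neg h')

theorem ext {x : K} {x' x'' : K''} (h : S.T x x') (h' : S.T x x'') : x' = x'' := by
  have := S.sub h h'
  rw [sub_self] at this
  exact sub_eq_zero.1 (S.uniq this)

theorem eq_zero {x : K} {x' : K''} (h : S.T x x') (h0 : x = 0) : x' = 0 := by
  subst h0
  exact S.uniq h

theorem sum {I : Type} (s : Finset I) {f : I → K} {f' : I → K''}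
    (h : ∀ i ∈ s, S.T (f i) (f' i)) : S.T (∑ i ∈ s, f i) (∑ i ∈ s, f' i) := by
  classical
  induction s using Finset.induction_on with
  | empty => simpa using S.zero
  | insert a s ha ih =>
    rw [Finset.sum_insert ha, Finset.sum_insert ha]
    exact S.add (h a (Finset.mem_insert_self _ _))
      (ih fun i hi => h i (Finset.mem_insert_of_mem hi))

theorem prod {I : Type} (s : Finset I) {f : I → K} {f' : I → K''}
    (h : ∀ i ∈ s, S.T (f i) (f' i)) : S.T (∏ i ∈ s, f i) (∏ i ∈ s, f' i) := by
  classical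
  induction s using Finset.induction_on with
  | empty => simpa using S.one
  | insert a s ha ih =>
    rw [Finset.prod_insert ha, Finset.prod_insert ha]
    exact S.mul (h a (Finset.mem_insert_self _ _))
      (ih fun i hi => h i (Finset.mem_insert_of_mem hi))

theorem pow {x : K} {x' : K''} (h : S.T x x') (m : ℕ) : S.T (x ^ m) (x' ^ m) := by
  induction m with
  | zero => simpa using S.one
  | succ m ih =>
    rw [pow_succ, pow_succ]
    exact S.mul ih h

theorem lin {n : ℕ} {y : Fin (n + 1) → K} {y' : Fin (n + 1) → K''} (h : ∀ i, S.T (y i) (y' i))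
    (l : Fin (n + 1) → k) : S.T (lin l y) (lin l y') := by
  unfold Pool.Agent.W602.GT.lin
  exact S.sum _ fun i _ => S.mul (S.const _) (h i)

theorem ne_zero {x : K} {x' : K''} (h : S.T x x') (hinv : ∃ z, S.T x⁻¹ z) (hx : x ≠ 0) :
    x' ≠ 0 := by
  rintro rfl
  obtain ⟨z, hz⟩ := hinv
  have h1 := S.mul h hz
  rw [mul_inv_cancel₀ hx, zero_mul] at h1
  exact zero_ne_one (S.ext h1 S.one)

/-- an element with an inverse which specializes vanishes if its specialization does -/
theorem back {x : K} {x' : K''} (h : S.T x x') (hinv : ∃ z, S.T x⁻¹ z) (hx : x' = 0) : x = 0 := by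
  by_contra h0
  exact S.ne_zero h hinv h0 hx

theorem val {n : ℕ} {y : Fin (n + 1) → K} {y' : Fin (n + 1) → K''} (h : ∀ i, S.T (y i) (y' i))
    (G : MvPolynomial (Fin (n + 1)) k) : S.T (val y G) (val y' G) := by
  rw [val_eq_sum, val_eq_sum]
  exact S.sum _ fun α _ => S.mul (S.const _) (S.prod _ fun i _ => S.pow (h i) _)

/-- the specialization of a subfield -/
def res {K0 : Type} [Field K0] [Algebra k K0] [Algebra K0 K] [IsScalarTower k K0 K] :
    Sp k K0 K'' where
  T x x' := S.T (algebraMap K0 K x) x'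
  add h h' := by rw [map_add]; exact S.add h h'
  mul h h' := by rw [map_mul]; exact S.mul h h'
  const c := by
    rw [← IsScalarTower.algebraMap_apply]
    exact S.const c
  uniq h := by
    rw [map_zero] at h
    exact S.uniq h

/-- a pair of homomorphisms of a ring -/
def ofHom {A : Type} [CommRing A] [Algebra k A] (j : A →ₐ[k] K) (ψ : A →ₐ[k] K'')
    (h : ∀ a, j a = 0 → ψ a = 0) : Sp k K K'' where
  T x x' := ∃ a, j a = x ∧ ψ a = x'
  add := by
    rintro _ _ _ _ ⟨a, rfl, rfl⟩ ⟨b, rfl, rfl⟩
    exact ⟨a + b, map_add _ _ _, map_add _ _ _⟩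
  mul := by
    rintro _ _ _ _ ⟨a, rfl, rfl⟩ ⟨b, rfl, rfl⟩
    exact ⟨a * b, map_mul _ _ _, map_mul _ _ _⟩
  const c := ⟨algebraMap k A c, j.commutes c, ψ.commutes c⟩
  uniq := by
    rintro _ ⟨a, ha, rfl⟩
    exact h a ha

end Sp

section lina

/-- linear algebra: a linear form which vanishes where some others do is a combination of them -/
theorem span_of_ker {K : Type} [Field K] {m : ℕ} {I : Type} [Fintype I]
    (φ : I → (Fin m → K) →ₗ[K] K) (χ : (Fin m → K) →ₗ[K] K)
    (h : ∀ v, (∀ a, φ a v = 0) → χ v = 0) : ∃ c : I → K, ∑ a, c a • φ a = χ := by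
  have h1 : χ ∈ Submodule.span K (Set.range φ) := by
    apply mem_span_of_iInf_ker_le_ker
    intro v hv
    rw [Submodule.mem_iInf] at hv
    exact h v hv
  exact (Submodule.mem_span_range_iff_exists_fun K).1 h1

theorem comb_spec {k K K'' : Type} [Field k] [Field K] [Field K''] [Algebra k K] [Algebra k K'']
    (S : Sp k K K'') {m : ℕ} {I : Type} [Fintype I]
    (φ : I → (Fin m → K) →ₗ[K] K) (χ : (Fin m → K) →ₗ[K] K)
    (φ' : I → (Fin m → K'') →ₗ[K''] K'') (χ' : (Fin m → K'') →ₗ[K''] K'')
    (hφ : ∀ a q, S.T (φ a (Pi.single q 1)) (φ' a (Pi.single q 1)))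
    (hχ : ∀ q, S.T (χ (Pi.single q 1)) (χ' (Pi.single q 1)))
    {c : I → K} (hc : ∑ a, c a • φ a = χ) (hcS : ∀ a, ∃ z, S.T (c a) z)
    {v : Fin m → K''} (hv : ∀ a, φ' a v = 0) : χ' v = 0 := by
  choose c' hc' using hcS
  have h1 : ∑ a, c' a • φ' a = χ' := by
    apply LinearMap.pi_ext'
    intro q
    apply LinearMap.ext_ring
    change (∑ a, c' a • φ' a) (Pi.single q 1) = χ' (Pi.single q 1)
    refine S.ext (x := χ (Pi.single q 1)) ?_ (hχ q)
    rw [← hc]
    simp only [LinearMap.sum_apply, LinearMap.smul_apply, smul_eq_mul]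
    exact S.sum _ fun a _ => S.mul (hc' a) (hφ a q)
  rw [← h1]
  simp only [LinearMap.sum_apply, LinearMap.smul_apply, smul_eq_mul]
  exact Finset.sum_eq_zero fun a _ => by rw [hv a, mul_zero]

end lina

end Pool.Agent.TH466.QG
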