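import Pool.Agent.TH466.QG.Spread

/-!
Subvarieties of the varieties which are dominated by a component which is not ruled.
-/

set_option autoImplicit false
set_option linter.overlappingInstances false
set_option linter.unusedSectionVars false

open FF IntermediateField

namespace Pool.Agent.TH466.QG

open Pool.Agent.W602.GT (GeneralType val lin coords HighPowers SubVar IsComponent Ruled IsForm
  LogGeneralType val_smul alg_adjoin)

/-- the dimension of a specialization -/
theorem dim_le {k L E : Type} [Field k] [Field L] [Field E] [Algebra k L] [Algebra k E]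
    {σ : Type} {x : σ → L} {z : σ → E} (hz : IntermediateField.adjoin k (Set.range z) = ⊤)
    (hsp : ∀ G : MvPolynomial σ k, MvPolynomial.aeval x G = 0 → MvPolynomial.aeval z G = 0)
    {w w' : ℕ} (hw : Algebra.trdeg k L = w) (hw' : Algebra.trdeg k E = w') : w' ≤ w := by
  have halg : Algebra.IsAlgebraic (IntermediateField.adjoin k (Set.range z)) E := by
    rw [hz]
    infer_instance
  have halg' := alg_adjoin halg
  obtain ⟨B, hB, hBb⟩ := exists_isTranscendenceBasis_subset (R := k) (A := E) (Set.range z)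
  have hcard := hBb.cardinalMk_eq_trdeg
  rw [hw'] at hcard
  choose c hc using fun b : B => hB b.2
  have h1 : AlgebraicIndependent k (fun b : B => x (c b)) := by
    rw [algebraicIndependent_iff]
    intro p hp
    have h2 : MvPolynomial.aeval x (MvPolynomial.rename c p) = 0 := by
      rw [MvPolynomial.aeval_rename]
      exact hp
    have h3 := hsp _ h2
    rw [MvPolynomial.aeval_rename] at h3
    have h4 : (z ∘ c : B → E) = Subtype.val := funext hc
    rw [h4] at h3
    exact (algebraicIndependent_iff.1 hBb.1) p h3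
  have h2 := h1.cardinalMk_le_trdeg
  rw [hcard, hw] at h2
  exact_mod_cast h2

/-- the transcendence degree of an algebraic extension -/
theorem trdeg_alg {k E K : Type} [Field k] [Field E] [Field K] [Algebra k E] [Algebra k K]
    [Algebra E K] [IsScalarTower k E K] [Algebra.IsAlgebraic E K] :
    Algebra.trdeg k K = Algebra.trdeg k E := by
  rw [← trdeg_add_eq k E (A := K)]
  have h1 : Algebra.trdeg E K = 0 := by
    rw [trdeg_eq_zero_iff]
    infer_instance
  rw [h1, add_zero]

theorem alg_over {k E K : Type} [Field k] [Field E] [Field K] [Algebra k E] [Algebra k K]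
    [Algebra E K] [IsScalarTower k E K] [Algebra.IsAlgebraic E K] {σ : Type} {z : σ → E}
    (hz : IntermediateField.adjoin k (Set.range z) = ⊤) (C : IntermediateField k K)
    (h : ∀ m, IsAlgebraic C (algebraMap E K (z m))) : Algebra.IsAlgebraic C K := by
  let A := algebraicClosure C K
  have h1 : ∀ e : E, algebraMap E K e ∈ A := by
    intro e
    have he : e ∈ IntermediateField.adjoin k (Set.range z) := by
      rw [hz]
      exact IntermediateField.mem_top
    induction he using IntermediateField.adjoin_induction with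
    | mem x hx =>
      obtain ⟨m, rfl⟩ := hx
      exact mem_algebraicClosure_iff.2 (h m)
    | algebraMap c =>
      rw [← IsScalarTower.algebraMap_apply k E K]
      exact A.algebraMap_mem (⟨algebraMap k K c, C.algebraMap_mem c⟩ : C)
    | add x y _ _ hx hy => rw [map_add]; exact add_mem hx hy
    | inv x _ hx => rw [map_inv₀]; exact inv_mem hx
    | mul x y _ _ hx hy => rw [map_mul]; exact mul_mem hx hy
  let φ : E →+* A := (algebraMap E K).codRestrict A.toSubfield h1
  have h2 : ∀ u : K, IsAlgebraic A u := by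
    intro u
    obtain ⟨p, hp0, hp⟩ := Algebra.IsAlgebraic.isAlgebraic (R := E) u
    refine ⟨p.map φ, ?_, ?_⟩
    · rw [Ne, Polynomial.map_eq_zero]
      exact hp0
    · rw [Polynomial.aeval_def, Polynomial.eval₂_map]
      exact hp
  have h3 : Algebra.IsAlgebraic A K := ⟨h2⟩
  have h4 : Algebra.IsAlgebraic C A := inferInstance
  exact Algebra.IsAlgebraic.trans C A K

theorem Sp.inv {k K K'' : Type} [Field k] [Field K] [Field K''] [Algebra k K] [Algebra k K'']
    (S : Sp k K K'') {x : K} {x' : K''} (h : S.T x x') (hinv : ∃ z, S.T x⁻¹ z) (hx : x ≠ 0) :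
    S.T x⁻¹ x'⁻¹ := by
  obtain ⟨z, hz⟩ := hinv
  have h1 := S.mul h hz
  rw [mul_inv_cancel₀ hx] at h1
  have h2 : x' * z = 1 := S.ext h1 S.one
  have h3 : z = x'⁻¹ := eq_inv_of_mul_eq_one_right h2
  rw [← h3]
  exact hz

/-- the normalized coordinates generate the function field -/
theorem adjoin_norm {k K : Type} [Field k] [Field K] [Algebra k K] {n : ℕ} {y : Fin (n + 1) → K}
    (hgen : coords k y = ⊤) {i0 : Fin (n + 1)} (hi0 : y i0 ≠ 0) :
    IntermediateField.adjoin k (Set.range fun i => y i / y i0) = ⊤ := by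
  rw [eq_top_iff, ← hgen]
  unfold Pool.Agent.W602.GT.coords
  rw [IntermediateField.adjoin_le_iff]
  rintro _ ⟨i, j, hj, rfl⟩
  have h1 : y i / y j = (y i / y i0) / (y j / y i0) := by field_simp
  rw [h1]
  exact div_mem (IntermediateField.subset_adjoin k _ ⟨i, rfl⟩)
    (IntermediateField.subset_adjoin k _ ⟨j, rfl⟩)

/-- elements which are algebraic over `K` remain algebraic under specialization -/
theorem alg_spec {k K K' : Type} [Field k] [Field K] [Field K'] [Algebra k K] [Algebra k K']
    [Algebra K K'] [IsScalarTower k K K'] [Algebra.IsAlgebraic K K'] {n : ℕ}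
    {y : Fin (n + 1) → K} (hgen : coords k y = ⊤) {i0 : Fin (n + 1)} (hi0 : y i0 ≠ 0)
    {σ : Type} [Finite σ] (x : σ → K') : ∃ Θ : Set K, Θ.Finite ∧
      ∀ (K'' : Type) [Field K''] [Algebra k K''] (S : Sp k K' K''),
        (∀ ϑ ∈ Θ, ∃ t, S.T (algebraMap K K' ϑ) t) → ∀ y' : Fin (n + 1) → K'',
        (∀ i, S.T (algebraMap K K' (y i)) (y' i)) → ∀ z : σ → K'', (∀ m, S.T (x m) (z m)) →
        ∀ m, IsAlgebraic (coords k y') (z m) := by
  classical
  have hfin : (⋃ m, (↑(minpoly K (x m)).coeffs : Set K)).Finite :=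
    Set.finite_iUnion fun m => Finset.finite_toSet _
  obtain ⟨H, hH, hG⟩ := exists_den (adjoin_norm hgen hi0) hfin
  refine ⟨{(y i0)⁻¹, (MvPolynomial.aeval (fun i => y i / y i0) H)⁻¹}, Set.toFinite _, ?_⟩
  intro K'' _ _ S hS y' hy z hxz m
  let S0 : Sp k K K'' := S.res
  have hS1 : ∃ t, S0.T (y i0)⁻¹ t := hS _ (Or.inl rfl)
  have hS2 : ∃ t, S0.T (MvPolynomial.aeval (fun i => y i / y i0) H)⁻¹ t := hS _ (Or.inr rfl)
  have hy0 : ∀ i, S0.T (y i) (y' i) := hy
  have hi0' : y' i0 ≠ 0 := S0.ne_zero (hy0 i0) hS1 hi0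
  have hybar : ∀ i, S0.T (y i / y i0) (y' i / y' i0) := by
    intro i
    rw [div_eq_mul_inv, div_eq_mul_inv]
    exact S0.mul (hy0 i) (S0.inv (hy0 i0) hS1 hi0)
  have hval : ∀ G : MvPolynomial (Fin (n + 1)) k,
      S0.T (MvPolynomial.aeval (fun i => y i / y i0) G)
        (MvPolynomial.aeval (fun i => y' i / y' i0) G) := fun G => S0.val hybar G
  have hH' : MvPolynomial.aeval (fun i => y' i / y' i0) H ≠ 0 := S0.ne_zero (hval H) hS2 hH
  have hmem : ∀ G : MvPolynomial (Fin (n + 1)) k,
      MvPolynomial.aeval (fun i => y' i / y' i0) G ∈ coords k y' := by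
    intro G
    have h1 : ∀ i, y' i / y' i0 ∈ coords k y' := fun i =>
      IntermediateField.subset_adjoin k _ ⟨i, i0, hi0', rfl⟩
    have h2 := MvPolynomial.aeval_range (R := k) (fun i => y' i / y' i0)
    have h3 : MvPolynomial.aeval (fun i => y' i / y' i0) G ∈
        Algebra.adjoin k (Set.range fun i => y' i / y' i0) := by
      rw [Algebra.adjoin_range_eq_range_aeval]
      exact ⟨G, rfl⟩
    have h4 : Algebra.adjoin k (Set.range fun i => y' i / y' i0) ≤ (coords k y').toSubalgebra := by
      rw [Algebra.adjoin_le_iff]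
      rintro _ ⟨i, rfl⟩
      exact h1 i
    exact h4 h3
  have hco : ∀ i, ∃ c' : coords k y', S0.T ((minpoly K (x m)).coeff i) c' := by
    intro i
    by_cases h0 : (minpoly K (x m)).coeff i = 0
    · exact ⟨0, by rw [h0]; exact S0.zero⟩
    · obtain ⟨G, hG'⟩ := hG _ (Set.mem_iUnion.2 ⟨m, Polynomial.coeff_mem_coeffs h0⟩)
      refine ⟨⟨MvPolynomial.aeval (fun i => y' i / y' i0) G *
        (MvPolynomial.aeval (fun i => y' i / y' i0) H)⁻¹,
        mul_mem (hmem G) (inv_mem (hmem H))⟩, ?_⟩
      have h1 : (minpoly K (x m)).coeff i = MvPolynomial.aeval (fun i => y i / y i0) G *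
          (MvPolynomial.aeval (fun i => y i / y i0) H)⁻¹ := by
        rw [← hG']
        field_simp
      rw [h1]
      exact S0.mul (hval G) (S0.inv (hval H) hS2 hH)
  choose c' hc' using hco
  have hint : IsIntegral K (x m) := Algebra.IsIntegral.isIntegral _
  set d := (minpoly K (x m)).natDegree with hd
  have hlead : (c' d : K'') = 1 := by
    have h1 := hc' d
    have h2 : (minpoly K (x m)).coeff d = 1 := (minpoly.monic hint).coeff_natDegree
    rw [h2] at h1
    exact S0.ext h1 S0.one
  refine ⟨∑ i ∈ Finset.range (d + 1), Polynomial.C (c' i) * Polynomial.X ^ i, ?_, ?_⟩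
  · intro h0
    have h1 := congrArg (fun p => Polynomial.coeff p d) h0
    simp only [Polynomial.finsetSum_coeff, Polynomial.coeff_C_mul, Polynomial.coeff_X_pow,
      Polynomial.coeff_zero, mul_ite, mul_one, mul_zero, Finset.sum_ite_eq,
      Finset.mem_range, Nat.lt_succ_self, if_true] at h1
    rw [h1] at hlead
    exact zero_ne_one hlead
  · have h1 : Polynomial.aeval (z m) (∑ i ∈ Finset.range (d + 1),
        Polynomial.C (c' i) * Polynomial.X ^ i) =
        ∑ i ∈ Finset.range (d + 1), (c' i : K'') * z m ^ i := by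
      rw [map_sum]
      refine Finset.sum_congr rfl fun i _ => ?_
      rw [map_mul, Polynomial.aeval_C, map_pow, Polynomial.aeval_X]
      rfl
    rw [h1]
    have h2 := S.sum (Finset.range (d + 1)) (fun i _ => S.mul (hc' i) (S.pow (hxz m) i))
    refine S.eq_zero h2 ?_
    have h3 := minpoly.aeval K (x m)
    rw [Polynomial.aeval_eq_sum_range] at h3
    simp only [Algebra.smul_def] at h3
    exact h3

section hz

variable {k : Type} [Field k] {M : ℕ}

/-- homogenization with respect to the variable `i0` -/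
noncomputable def hz (i0 : Fin (M + 1)) (G : MvPolynomial (Fin (M + 1)) k) :
    MvPolynomial (Fin (M + 1)) k :=
  ∑ d ∈ Finset.range (G.totalDegree + 1), MvPolynomial.homogeneousComponent d G *
    MvPolynomial.X i0 ^ (G.totalDegree - d)

theorem hz_form (i0 : Fin (M + 1)) (G : MvPolynomial (Fin (M + 1)) k) : IsForm (hz i0 G) := by
  refine ⟨G.totalDegree, ?_⟩
  unfold hz
  refine MvPolynomial.IsHomogeneous.sum _ _ _ fun d hd => ?_
  have h1 := (MvPolynomial.homogeneousComponent_isHomogeneous d G).mul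
    ((MvPolynomial.isHomogeneous_X k i0).pow (G.totalDegree - d))
  have h2 : d + 1 * (G.totalDegree - d) = G.totalDegree := by
    have := Finset.mem_range.1 hd
    omega
  rwa [h2] at h1

theorem val_hz {E : Type} [Field E] [Algebra k E] {i0 : Fin (M + 1)}
    (G : MvPolynomial (Fin (M + 1)) k) {u : Fin (M + 1) → E} (hu : u i0 ≠ 0) :
    val u (hz i0 G) = u i0 ^ G.totalDegree * MvPolynomial.aeval (fun i => u i / u i0) G := by
  have h1 : MvPolynomial.aeval (fun i => u i / u i0) G =
      ∑ d ∈ Finset.range (G.totalDegree + 1),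
        val (fun i => u i / u i0) (MvPolynomial.homogeneousComponent d G) := by
    conv_lhs => rw [← MvPolynomial.sum_homogeneousComponent G]
    rw [map_sum]
    rfl
  rw [h1, Finset.mul_sum]
  unfold hz
  change MvPolynomial.aeval u _ = _
  rw [map_sum]
  refine Finset.sum_congr rfl fun d hd => ?_
  rw [map_mul, map_pow, MvPolynomial.aeval_X]
  have h2 := val_smul (MvPolynomial.homogeneousComponent_isHomogeneous d G) (u i0)
    (fun i => u i / u i0)
  have h3 : (fun i => u i0 * (u i / u i0)) = u := by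
    funext i
    field_simp
  rw [h3] at h2
  change val u _ * _ = _
  rw [h2]
  have h4 : u i0 ^ G.totalDegree = u i0 ^ d * u i0 ^ (G.totalDegree - d) := by
    rw [← pow_add]
    congr 1
    have := Finset.mem_range.1 hd
    omega
  rw [h4]
  ring

end hz

/-- `E` is the function field, and `z` the generic point in homogeneous coordinates, of a closed
subvariety of the projective variety with generic point `x`: the forms which vanish at `x` vanish
at `z`. -/
structure SubOf (k : Type) [Field k] {M : ℕ} {L : Type} [Field L] [Algebra k L]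
    (x : Fin (M + 1) → L) {E : Type} [Field E] [Algebra k E] (z : Fin (M + 1) → E) : Prop where
  ne : z ≠ 0
  gen : coords k z = ⊤
  spec : ∀ G : MvPolynomial (Fin (M + 1)) k, IsForm G → val x G = 0 → val z G = 0

/-- The projective variety with generic point `x` is strongly of general type: off a proper closed
subset (contained in the zero set of the form `R`, which does not vanish at the generic point), all
closed subvarieties of positive dimension are of general type. -/
def StronglyGeneral (k : Type) [Field k] {M : ℕ} {L : Type} [Field L] [Algebra k L]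
    (x : Fin (M + 1) → L) : Prop :=
  ∃ R : MvPolynomial (Fin (M + 1)) k, IsForm R ∧ val x R ≠ 0 ∧
    ∀ (E : Type) [Field E] [Algebra k E] (w : ℕ) (z : Fin (M + 1) → E), SubOf k x z →
      val z R ≠ 0 → 1 ≤ w → Algebra.trdeg k E = w → GeneralType k E w

/-- **Lang's conjecture for the varieties dominated by a component which is not ruled.** -/
theorem strong_main {k : Type} [Field k] [CharZero k] [IsAlgClosed k] {n : ℕ} {ι : Type}
    [Finite ι] {F : ι → MvPolynomial (Fin (n + 1)) k} {s N : ℕ} (hF : HighPowers s N F)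
    (hN1 : 1 ≤ N) {K : Type} [Field K] [Algebra k K] {w : ℕ} {y : Fin (n + 1) → K}
    (hy : SubVar F K w y) (hcomp : IsComponent F y) (hR : ¬ Ruled k K) {r : ℕ}
    (hN : r * (w * ((s + 4) * ((s - 1) * (s - 2) / 2))) ≤ N)
    {K' L : Type} [Field K'] [Field L] [Algebra k K'] [Algebra k L] [Algebra K K']
    [Algebra L K'] [IsScalarTower k K K'] [IsScalarTower k L K'] [Algebra.IsAlgebraic K K']
    [FiniteDimensional L K'] (hr : Module.finrank L K' ≤ r) {M : ℕ} {x : Fin (M + 1) → L}
    (hx : x ≠ 0) (hgen : coords k x = ⊤) : StronglyGeneral k x := by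
  classical
  obtain ⟨i1, hi1'⟩ := Function.ne_iff.1 hx
  have hi1 : x i1 ≠ 0 := hi1'
  obtain ⟨i0, hi0'⟩ := Function.ne_iff.1 hy.ne
  have hi0 : y i0 ≠ 0 := hi0'
  obtain ⟨Θ1, hΘ1, hopen⟩ := open_circ hF hN1 hy hcomp hR
  obtain ⟨Θ2, hΘ2, halgs⟩ := alg_spec (K' := K') hy.gen hi0
    (fun m => algebraMap L K' (x m / x i1))
  obtain ⟨H, hH, hspread⟩ := spread (K' := K') (adjoin_norm hgen hi1)
    (Θ := algebraMap K K' '' (Θ1 ∪ (Θ2 ∪ Set.range y)))
    ((hΘ1.union (hΘ2.union (Set.finite_range y))).image _)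
  refine ⟨MvPolynomial.X i1 * hz i1 H, ?_, ?_, ?_⟩
  · obtain ⟨d, hd⟩ := hz_form i1 H
    exact ⟨1 + d, (MvPolynomial.isHomogeneous_X k i1).mul hd⟩
  · change MvPolynomial.aeval x _ ≠ 0
    rw [map_mul, MvPolynomial.aeval_X]
    refine mul_ne_zero hi1 ?_
    change val x _ ≠ 0
    rw [val_hz H hi1]
    exact mul_ne_zero (pow_ne_zero _ hi1) hH
  intro E _ _ w' z hz hzR hw1 htr
  change MvPolynomial.aeval z _ ≠ 0 at hzR
  rw [map_mul, MvPolynomial.aeval_X] at hzR
  have hz1 : z i1 ≠ 0 := left_ne_zero_of_mul hzR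
  have hzH : MvPolynomial.aeval (fun i => z i / z i1) H ≠ 0 := by
    have h1 : val z (Pool.Agent.TH466.QG.hz i1 H) ≠ 0 := right_ne_zero_of_mul hzR
    rw [val_hz H hz1] at h1
    exact right_ne_zero_of_mul h1
  have hsp : ∀ G : MvPolynomial (Fin (M + 1)) k,
      MvPolynomial.aeval (fun i => x i / x i1) G = 0 →
      MvPolynomial.aeval (fun i => z i / z i1) G = 0 := by
    intro G hG
    have h1 : val x (Pool.Agent.TH466.QG.hz i1 G) = 0 := by
      rw [val_hz G hi1, hG, mul_zero]
    have h2 := hz.spec _ (hz_form i1 G) h1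
    rw [val_hz G hz1] at h2
    exact (mul_eq_zero.1 h2).resolve_left (pow_ne_zero _ hz1)
  obtain ⟨K'', i1', i2', i3', i4', i5', hrk, S, hSx, hSΘ⟩ := hspread E
    (fun i => z i / z i1) hsp hzH
  have hSy : ∀ i, ∃ t, S.T (algebraMap K K' (y i)) t := fun i =>
    hSΘ _ ⟨y i, Or.inr (Or.inr ⟨i, rfl⟩), rfl⟩
  choose y' hy' using hSy
  have halg : Algebra.IsAlgebraic (coords k y') K'' := by
    refine alg_over (adjoin_norm hz.gen hz1) _ fun m => ?_
    exact halgs K'' S (fun ϑ hϑ => hSΘ _ ⟨ϑ, Or.inr (Or.inl hϑ), rfl⟩) y' hy'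
      (fun m => algebraMap E K'' (z m / z i1)) hSx m
  have htr' : Algebra.trdeg k K'' = w' := by rw [trdeg_alg (E := E), htr]
  have hC : HasCirc k s N w' K'' := by
    refine hopen K'' (S.res (K0 := K)) (fun ϑ hϑ => hSΘ _ ⟨ϑ, Or.inl hϑ, rfl⟩) y' hy' w' htr'
      halg
  have hwL : Algebra.trdeg k L = w := by
    rw [← hy.dim, ← trdeg_alg (E := K) (K := K'), trdeg_alg (E := L) (K := K')]
  have hle : w' ≤ w := dim_le (adjoin_norm hz.gen hz1) hsp hwL htr
  refine general_below hw1 (hrk.trans hr) hC ?_
  rw [tn_eq]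
  refine le_trans ?_ hN
  exact Nat.mul_le_mul_left _ (Nat.mul_le_mul_right _ hle)

end Pool.Agent.TH466.QG
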